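import Pool.Agent.Lib.MP_85de51_alZ.Ident
set_option autoImplicit false

/-!
# JOB Block: the operators `b`, `x` on `W × W × W`

`b = Bb b`, `x = Bx b c0 Y`, with `g = b - c0` and `E = b Y - Y b`, `E2 = b E - E b`, `E3 = b E2 - E2 b`
(operators of `W`). In block form (rows = components of the result)
`b = diag(b, b + 1, b - 1)`, `x = [[Y, g/2, g/2], [1/2, 0, 0], [-1/2, 0, 0]]`, and, using `b g = g b`:
`cx1 = [[E, -g/2, g/2], [1/2, 0, 0], [1/2, 0, 0]]`,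
`cx2 = [[E2, g/2, g/2], [1/2, 0, 0], [-1/2, 0, 0]]`,
`cx3 = [[E3, -g/2, g/2], [1/2, 0, 0], [1/2, 0, 0]]`. So
`opP = [[E2 + E, 0, g], [1, 0, 0], [0, 0, 0]]`, `opM = [[E2 - E, g, 0], [0, 0, 0], [-1, 0, 0]]`,
`opV = diag(Y - E2, 0, 0)`, `opZ = diag(E3 - E, 0, 0)`, and
`opC = [[c0 + (E E2 - E2 E), (E2 + E) g / 2, -(E2 - E) g / 2], [(E2 - E)/2, b + 1 + g/2, 0],
[(E2 + E)/2, 0, b - 1 + g/2]]`.
Proof: compute each operator at `(w0, w1, w2)`; e.g. first a lemma for `cx1 ... (w0, w1, w2)`, then for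
`cx2`, `cx3` (unfold one bracket at a time, `Prod.ext`, `module`/`abel` after `map_add`, `map_smul`,
`map_sub` and the rewriting `b (c0 w) = c0 (b w)`).
* `block_comm`: by the formulas `opC (opZ w)` and `opZ (opC w)` are `((c0 + E E2 - E2 E) (Z w0),
(E2 - E)/2 (Z w0), (E2 + E)/2 (Z w0))` and `(Z ((c0 + E E2 - E2 E) w0 + (E2 + E) g w1 / 2 -
(E2 - E) g w2 / 2), 0, 0)`, where `Z = E3 - E`. By `hE` all products `E b^i E` vanish, hence all products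
of two of `E`, `E2`, `E3` (they are combinations of `b^i E b^j`): `E2 = b E - E b`,
`E3 = b^2 E - 2 b E b + E b^2`. Remains `c0 Z = Z c0`: `c0` commutes with `b` and `E`.
-/

namespace OneRelZ

variable {k W : Type} [Field k] [AddCommGroup W] [Module k W]

/-- the operator `b` -/
def Bb (b : Module.End k W) : Module.End k (W × W × W) where
  toFun w := (b w.1, b w.2.1 + w.2.1, b w.2.2 - w.2.2)
  map_add' x y := by
    ext <;> simp <;> abel
  map_smul' c x := by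
    ext <;> simp [smul_add, smul_sub]

/-- the operator `x` -/
def Bx (b c0 Y : Module.End k W) : Module.End k (W × W × W) where
  toFun w := (Y w.1 + (2⁻¹ : k) • (b (w.2.1 + w.2.2) - c0 (w.2.1 + w.2.2)), (2⁻¹ : k) • w.1,
    -((2⁻¹ : k) • w.1))
  map_add' x y := by
    ext
    · simp only [Prod.fst_add, Prod.snd_add, map_add, smul_add, smul_sub]; abel
    · simp
    · simp only [Prod.fst_add, Prod.snd_add, smul_add]; abel
  map_smul' c x := by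
    ext
    · simp only [Prod.smul_fst, Prod.smul_snd, ← smul_add, map_smul, RingHom.id_apply]; module
    · simp [smul_comm c (2⁻¹ : k)]
    · simp [smul_comm c (2⁻¹ : k)]

variable (b c0 Y : Module.End k W)

theorem Block_cx1 (h2 : (2 : k) ≠ 0) (hbc : Commute b c0) (w : W × W × W) :
    cx1 (Bb b) (Bx b c0 Y) w =
      (cx1 b Y w.1 + (2⁻¹ : k) • (b w.2.2 - c0 w.2.2) - (2⁻¹ : k) • (b w.2.1 - c0 w.2.1),
        (2⁻¹ : k) • w.1, (2⁻¹ : k) • w.1) := by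
  have hc : ∀ v, c0 (b v) = b (c0 v) := fun v => by
    rw [← Module.End.mul_apply, ← hbc.eq, Module.End.mul_apply]
  obtain ⟨w0, w1, w2⟩ := w
  simp only [cx1, LinearMap.sub_apply, Module.End.mul_apply, Bb, Bx, LinearMap.coe_mk,
    AddHom.coe_mk, Prod.mk_sub_mk, map_add, map_sub, map_smul, map_neg, hc, Prod.mk.injEq]
  refine ⟨?_, ?_, ?_⟩ <;> module

theorem Block_cx2 (h2 : (2 : k) ≠ 0) (hbc : Commute b c0) (w : W × W × W) :
    cx2 (Bb b) (Bx b c0 Y) w =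
      (cx2 b Y w.1 + (2⁻¹ : k) • (b w.2.2 - c0 w.2.2) + (2⁻¹ : k) • (b w.2.1 - c0 w.2.1),
        (2⁻¹ : k) • w.1, -((2⁻¹ : k) • w.1)) := by
  have hc : ∀ v, c0 (b v) = b (c0 v) := fun v => by
    rw [← Module.End.mul_apply, ← hbc.eq, Module.End.mul_apply]
  have e : cx2 (Bb b) (Bx b c0 Y) w = Bb b (cx1 (Bb b) (Bx b c0 Y) w) -
      cx1 (Bb b) (Bx b c0 Y) (Bb b w) := rfl
  rw [e, Block_cx1 b c0 Y h2 hbc, Block_cx1 b c0 Y h2 hbc]
  obtain ⟨w0, w1, w2⟩ := w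
  simp only [cx2, LinearMap.sub_apply, Module.End.mul_apply, Bb, LinearMap.coe_mk,
    AddHom.coe_mk, Prod.mk_sub_mk, map_add, map_sub, map_smul, map_neg, hc, Prod.mk.injEq]
  refine ⟨?_, ?_, ?_⟩ <;> module

theorem Block_cx3 (h2 : (2 : k) ≠ 0) (hbc : Commute b c0) (w : W × W × W) :
    cx3 (Bb b) (Bx b c0 Y) w =
      (cx3 b Y w.1 + (2⁻¹ : k) • (b w.2.2 - c0 w.2.2) - (2⁻¹ : k) • (b w.2.1 - c0 w.2.1),
        (2⁻¹ : k) • w.1, (2⁻¹ : k) • w.1) := by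
  have hc : ∀ v, c0 (b v) = b (c0 v) := fun v => by
    rw [← Module.End.mul_apply, ← hbc.eq, Module.End.mul_apply]
  have e : cx3 (Bb b) (Bx b c0 Y) w = Bb b (cx2 (Bb b) (Bx b c0 Y) w) -
      cx2 (Bb b) (Bx b c0 Y) (Bb b w) := rfl
  rw [e, Block_cx2 b c0 Y h2 hbc, Block_cx2 b c0 Y h2 hbc]
  obtain ⟨w0, w1, w2⟩ := w
  simp only [cx3, LinearMap.sub_apply, Module.End.mul_apply, Bb, LinearMap.coe_mk,
    AddHom.coe_mk, Prod.mk_sub_mk, map_add, map_sub, map_smul, map_neg, hc, Prod.mk.injEq]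
  refine ⟨?_, ?_, ?_⟩ <;> module

theorem Block_half (h2 : (2 : k) ≠ 0) (v : W) : (2⁻¹ : k) • v + (2⁻¹ : k) • v = v := by
  rw [← add_smul, ← two_mul, mul_inv_cancel₀ h2, one_smul]

theorem block_P (h2 : (2 : k) ≠ 0) (hbc : Commute b c0) (w : W × W × W) :
    opP (Bb b) (Bx b c0 Y) w =
      ((cx2 b Y + cx1 b Y) w.1 + (b w.2.2 - c0 w.2.2), w.1, 0) := by
  have e : opP (Bb b) (Bx b c0 Y) w = cx2 (Bb b) (Bx b c0 Y) w +
      cx1 (Bb b) (Bx b c0 Y) w := rfl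
  rw [e, Block_cx1 b c0 Y h2 hbc, Block_cx2 b c0 Y h2 hbc]
  have h3 := Block_half h2 (b w.2.2 - c0 w.2.2)
  simp only [Prod.mk_add_mk, LinearMap.add_apply, Prod.mk.injEq]
  refine ⟨?_, Block_half h2 _, by abel⟩
  linear_combination (norm := module) h3

theorem block_M (h2 : (2 : k) ≠ 0) (hbc : Commute b c0) (w : W × W × W) :
    opM (Bb b) (Bx b c0 Y) w =
      ((cx2 b Y - cx1 b Y) w.1 + (b w.2.1 - c0 w.2.1), 0, -w.1) := by
  have e : opM (Bb b) (Bx b c0 Y) w = cx2 (Bb b) (Bx b c0 Y) w -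
      cx1 (Bb b) (Bx b c0 Y) w := rfl
  rw [e, Block_cx1 b c0 Y h2 hbc, Block_cx2 b c0 Y h2 hbc]
  have h3 := Block_half h2 (b w.2.1 - c0 w.2.1)
  have h4 := Block_half h2 w.1
  simp only [Prod.mk_sub_mk, LinearMap.sub_apply, Prod.mk.injEq]
  refine ⟨?_, by abel, ?_⟩
  · linear_combination (norm := module) h3
  · rw [← neg_add', h4]

theorem block_V (h2 : (2 : k) ≠ 0) (hbc : Commute b c0) (w : W × W × W) :
    opV (Bb b) (Bx b c0 Y) w = ((Y - cx2 b Y) w.1, 0, 0) := by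
  have e : opV (Bb b) (Bx b c0 Y) w = Bx b c0 Y w -
      cx2 (Bb b) (Bx b c0 Y) w := rfl
  rw [e, Block_cx2 b c0 Y h2 hbc]
  obtain ⟨w0, w1, w2⟩ := w
  simp only [Bx, LinearMap.coe_mk,
    AddHom.coe_mk, Prod.mk_sub_mk, map_add, LinearMap.sub_apply, Prod.mk.injEq]
  refine ⟨?_, ?_, ?_⟩ <;> module

theorem block_Z (h2 : (2 : k) ≠ 0) (hbc : Commute b c0) (w : W × W × W) :
    opZ (Bb b) (Bx b c0 Y) w = ((cx3 b Y - cx1 b Y) w.1, 0, 0) := by
  have e : opZ (Bb b) (Bx b c0 Y) w = cx3 (Bb b) (Bx b c0 Y) w -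
      cx1 (Bb b) (Bx b c0 Y) w := rfl
  rw [e, Block_cx1 b c0 Y h2 hbc, Block_cx3 b c0 Y h2 hbc]
  simp only [Prod.mk_sub_mk, LinearMap.sub_apply, Prod.mk.injEq]
  refine ⟨by abel, by abel, by abel⟩

/-- the operator `c` -/
theorem Block_C (h2 : (2 : k) ≠ 0) (hbc : Commute b c0) (w : W × W × W) :
    opC (Bb b) (Bx b c0 Y) w =
      (c0 w.1 + (cx1 b Y (cx2 b Y w.1) - cx2 b Y (cx1 b Y w.1)) +
        (2⁻¹ : k) • ((cx2 b Y + cx1 b Y) (b w.2.1 - c0 w.2.1)) -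
        (2⁻¹ : k) • ((cx2 b Y - cx1 b Y) (b w.2.2 - c0 w.2.2)),
        (2⁻¹ : k) • ((cx2 b Y - cx1 b Y) w.1) + b w.2.1 + w.2.1 +
          (2⁻¹ : k) • (b w.2.1 - c0 w.2.1),
        (2⁻¹ : k) • ((cx2 b Y + cx1 b Y) w.1) + b w.2.2 - w.2.2 +
          (2⁻¹ : k) • (b w.2.2 - c0 w.2.2)) := by
  have e : opC (Bb b) (Bx b c0 Y) w = Bb b w +
    (cx1 (Bb b) (Bx b c0 Y) (cx2 (Bb b) (Bx b c0 Y) w) -
      cx2 (Bb b) (Bx b c0 Y) (cx1 (Bb b) (Bx b c0 Y) w)) := rfl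
  rw [e, Block_cx1 b c0 Y h2 hbc, Block_cx2 b c0 Y h2 hbc, Block_cx1 b c0 Y h2 hbc,
    Block_cx2 b c0 Y h2 hbc]
  obtain ⟨w0, w1, w2⟩ := w
  have h4 : (2⁻¹ : k) • (2⁻¹ : k) • (b w0 - c0 w0) +  (2⁻¹ : k) • (2⁻¹ : k) • (b w0 - c0 w0)
      + (2⁻¹ : k) • (2⁻¹ : k) • (b w0 - c0 w0) + (2⁻¹ : k) • (2⁻¹ : k) • (b w0 - c0 w0) =
      b w0 - c0 w0 := by
    rw [Block_half h2 ((2⁻¹ : k) • (b w0 - c0 w0)), add_assoc,
      Block_half h2 ((2⁻¹ : k) • (b w0 - c0 w0)), Block_half h2]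
  simp only [Bb, LinearMap.coe_mk, LinearMap.sub_apply, LinearMap.add_apply,
    AddHom.coe_mk, Prod.mk_sub_mk, Prod.mk_add_mk, map_add, map_sub, map_smul, map_neg,
    Prod.mk.injEq] at h4 ⊢
  refine ⟨?_, ?_, ?_⟩
  · linear_combination (norm := module) (-1 : k) • h4
  · have h6 := Block_half h2 ((2⁻¹ : k) • (b w1 - c0 w1))
    linear_combination (norm := module) h6
  · have h6 := Block_half h2 ((2⁻¹ : k) • (b w2 - c0 w2))
    linear_combination (norm := module) h6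

theorem Block_r (b A B : Module.End k W) (h : ∀ n : ℕ, A * b ^ n * B = 0) (n : ℕ) :
    A * b ^ n * (b * B - B * b) = 0 := by
  have e : A * b ^ n * (b * B - B * b) = A * b ^ (n + 1) * B - A * b ^ n * B * b := by
    rw [pow_succ]
    noncomm_ring
  rw [e, h, h, zero_mul, sub_zero]

theorem Block_l (b A B : Module.End k W) (h : ∀ n : ℕ, A * b ^ n * B = 0) (n : ℕ) :
    (b * A - A * b) * b ^ n * B = 0 := by
  have e : (b * A - A * b) * b ^ n * B = b * (A * b ^ n * B) - A * b ^ (n + 1) * B := by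
    rw [pow_succ']
    noncomm_ring
  rw [e, h, h, mul_zero, sub_zero]

theorem block_comm (h2 : (2 : k) ≠ 0) (hbc : Commute b c0)
    (hE : ∀ n : ℕ, cx1 b Y * b ^ n * cx1 b Y = 0) (hcE : Commute c0 (cx1 b Y)) :
    Commute (opC (Bb b) (Bx b c0 Y)) (opZ (Bb b) (Bx b c0 Y)) := by
  have h11 := hE
  have h12 := Block_r b _ _ h11
  have h13 := Block_r b _ _ h12
  have h21 := Block_l b _ _ h11
  have h22 := Block_l b _ _ h12
  have h23 := Block_l b _ _ h13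
  have h31 := Block_l b _ _ h21
  have h32 := Block_l b _ _ h22
  change ∀ n : ℕ, cx1 b Y * b ^ n * cx2 b Y = 0 at h12
  change ∀ n : ℕ, cx1 b Y * b ^ n * cx3 b Y = 0 at h13
  change ∀ n : ℕ, cx2 b Y * b ^ n * cx1 b Y = 0 at h21
  change ∀ n : ℕ, cx2 b Y * b ^ n * cx2 b Y = 0 at h22
  change ∀ n : ℕ, cx2 b Y * b ^ n * cx3 b Y = 0 at h23
  change ∀ n : ℕ, cx3 b Y * b ^ n * cx1 b Y = 0 at h31
  change ∀ n : ℕ, cx3 b Y * b ^ n * cx2 b Y = 0 at h32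
  have q : ∀ A B : Module.End k W, (∀ n : ℕ, A * b ^ n * B = 0) → ∀ v, A (B v) = 0 := by
    intro A B h v
    have h0 := h 0
    rw [pow_zero, mul_one] at h0
    rw [← Module.End.mul_apply, h0, LinearMap.zero_apply]
  have q11 := q _ _ h11
  have q12 := q _ _ h12
  have q13 := q _ _ h13
  have q21 := q _ _ h21
  have q22 := q _ _ h22
  have q23 := q _ _ h23
  have q31 := q _ _ h31
  have q32 := q _ _ h32
  have hc2 : Commute c0 (cx2 b Y) := by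
    unfold cx2
    exact (hbc.symm.mul_right hcE).sub_right (hcE.mul_right hbc.symm)
  have hc3 : Commute c0 (cx3 b Y) := by
    unfold cx3
    exact (hbc.symm.mul_right hc2).sub_right (hc2.mul_right hbc.symm)
  have r1 : ∀ v, c0 (cx1 b Y v) = cx1 b Y (c0 v) := fun v => by
    rw [← Module.End.mul_apply, hcE.eq, Module.End.mul_apply]
  have r3 : ∀ v, c0 (cx3 b Y v) = cx3 b Y (c0 v) := fun v => by
    rw [← Module.End.mul_apply, hc3.eq, Module.End.mul_apply]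
  apply LinearMap.ext
  intro w
  rw [Module.End.mul_apply, Module.End.mul_apply, Block_C b c0 Y h2 hbc, block_Z b c0 Y h2 hbc,
    block_Z b c0 Y h2 hbc, Block_C b c0 Y h2 hbc]
  simp only [LinearMap.sub_apply, LinearMap.add_apply, map_add, map_sub, map_smul, map_zero,
    q11, q12, q13, q21, q22, q23, q31, q32, r1, r3, Prod.mk.injEq, sub_zero, add_zero, smul_zero,
    and_true, sub_self]

end OneRelZ
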