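import Pool.Agent.Lib.MP_85de51_alZ.Block
set_option autoImplicit false

/-!
# JOB BlockSt: the relations of a state in `W × W × W`, and the powers of `x`

`(Bb b)^n (w, 0, 0) = (b^n w, 0, 0)`, `(Bb b)^n` of a vector with vanishing first component has
vanishing first component. For a sequence `n ↦ (T (b^n σ), 0, 0)` (`T : Module.End k W`) the
operation `sD (Bb b)` gives `n ↦ ((b T - T b) (b^n σ), 0, 0)` (`b^(n+1) σ = b^n (b σ)`), i.e. replaces
`T` by `cx1 b T`; note `cx2 b Y = cx1 b (cx1 b Y)`, `cx3 b Y = cx1 b (cx2 b Y)` by `rfl`. So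
`sP (Bb b) (..) n = ((cx2 b Y + cx1 b Y) (b^n σ), 0, 0)` etc., and all relations follow from `block_P`,
`block_M`, `block_V`, `block_Z`.
`block_pow`: `x^j (w, 0, 0) = (Y^j w, y, -y)` for some `y`, by induction on `j`
(`b (y - y) - c0 (y - y) = 0`).
-/

namespace OneRelZ

variable {k W : Type} [Field k] [AddCommGroup W] [Module k W]

theorem blockst_Bb (b : Module.End k W) (w : W × W × W) :
    Bb b w = (b w.1, b w.2.1 + w.2.1, b w.2.2 - w.2.2) := rfl

theorem blockst_Bx (b c0 Y : Module.End k W) (w : W × W × W) :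
    Bx b c0 Y w = (Y w.1 + (2⁻¹ : k) • (b (w.2.1 + w.2.2) - c0 (w.2.1 + w.2.2)), (2⁻¹ : k) • w.1,
    -((2⁻¹ : k) • w.1)) := rfl

theorem blockst_bpow (b : Module.End k W) (j : ℕ) (w : W) :
    ((Bb b) ^ j) ((w, 0, 0) : W × W × W) = ((b ^ j) w, 0, 0) := by
  induction j with
  | zero => simp
  | succ j ih =>
    rw [pow_succ', pow_succ', Module.End.mul_apply, Module.End.mul_apply, ih, blockst_Bb]
    simp

theorem blockst_fst (b : Module.End k W) (j : ℕ) (w : W × W × W) :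
    (((Bb b) ^ j) w).1 = (b ^ j) w.1 := by
  induction j with
  | zero => simp
  | succ j ih =>
    rw [pow_succ', pow_succ', Module.End.mul_apply, Module.End.mul_apply, blockst_Bb, ih]

theorem blockst_sD (b T : Module.End k W) (σ : W) :
    sD (Bb b) (fun n => ((T ((b ^ n) σ), 0, 0) : W × W × W)) =
      fun n => ((cx1 b T ((b ^ n) σ), 0, 0) : W × W × W) := by
  funext n
  have h : cx1 b T ((b ^ n) σ) = b (T ((b ^ n) σ)) - T ((b ^ (n + 1)) σ) := by
    rw [pow_succ', Module.End.mul_apply]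
    rfl
  rw [h]
  simp only [sD, blockst_Bb, map_zero, add_zero, sub_zero, Prod.mk_sub_mk]

theorem block_st (h2 : (2 : k) ≠ 0) (b c0 Y : Module.End k W) (hbc : Commute b c0) (d : ℕ) (σ : W)
    (hσ : c0 σ = (b ^ d) σ) :
    StRel (Bb b) (Bx b c0 Y) d (fun n => ((Y ((b ^ n) σ), 0, 0) : W × W × W))
      (σ, 0, 0) (0, σ, 0) (0, 0, σ) := by
  have e1 := blockst_sD b Y σ
  have e2 : sD (Bb b) (sD (Bb b) (fun n => ((Y ((b ^ n) σ), 0, 0) : W × W × W))) =
      fun n => ((cx2 b Y ((b ^ n) σ), 0, 0) : W × W × W) := by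
    rw [e1, blockst_sD]
    rfl
  have e3 : sD (Bb b) (sD (Bb b) (sD (Bb b) (fun n => ((Y ((b ^ n) σ), 0, 0) : W × W × W)))) =
      fun n => ((cx3 b Y ((b ^ n) σ), 0, 0) : W × W × W) := by
    rw [e2, blockst_sD]
    rfl
  have f1 := fun n => congrFun e1 n
  have f2 := fun n => congrFun e2 n
  have f3 := fun n => congrFun e3 n
  refine ⟨?_, ?_, ?_, ?_, ?_, ?_, ?_, ?_, ?_, ?_, ?_, ?_⟩
  · rw [block_P b c0 Y h2 hbc]
    simp only [sP, f2, f1]
    simp
  · rw [block_M b c0 Y h2 hbc]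
    simp only [sM, f2, f1]
    simp
  · rw [block_V b c0 Y h2 hbc]
    simp only [sV, f2]
    simp
  · rw [block_P b c0 Y h2 hbc]
    simp
  · rw [block_M b c0 Y h2 hbc, blockst_bpow, blockst_Bb]
    simp [hσ]
  · rw [block_V b c0 Y h2 hbc]
    simp
  · rw [block_P b c0 Y h2 hbc, blockst_bpow, blockst_Bb]
    simp [hσ]
  · rw [block_M b c0 Y h2 hbc]
    simp
  · rw [block_V b c0 Y h2 hbc]
    simp
  · intro n _
    rw [block_Z b c0 Y h2 hbc, blockst_bpow]
    simp only [sZ, f3, f1]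
    simp
  · intro n _
    rw [block_Z b c0 Y h2 hbc, blockst_fst]
    simp
  · intro n _
    rw [block_Z b c0 Y h2 hbc, blockst_fst]
    simp

theorem block_pow (b c0 Y : Module.End k W) (j : ℕ) (w : W) :
    ((((Bx b c0 Y) ^ j) (w, 0, 0) : W × W × W)).1 = (Y ^ j) w := by
  have h : ∃ y : W, ((Bx b c0 Y) ^ j) ((w, 0, 0) : W × W × W) = ((Y ^ j) w, y, -y) := by
    induction j with
    | zero => exact ⟨0, by simp⟩
    | succ j ih =>
      obtain ⟨y, hy⟩ := ih
      refine ⟨(2⁻¹ : k) • (Y ^ j) w, ?_⟩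
      rw [pow_succ', pow_succ', Module.End.mul_apply, Module.End.mul_apply, hy, blockst_Bx]
      simp
  obtain ⟨y, hy⟩ := h
  rw [hy]

theorem block_bpow (b : Module.End k W) (j : ℕ) (w : W) :
    ((Bb b) ^ j) ((w, 0, 0) : W × W × W) = ((b ^ j) w, 0, 0) :=
  blockst_bpow b j w

end OneRelZ
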