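import Pool.Agent.Lib.MP_85de51_alZ.Defs
set_option autoImplicit false

/-!
# JOB RelsIff: unfolding the list of relators; transport of the relations

* `rels_iff`: first `strels_iff`: for operators `σ σ1 σ2 : Module.End k V`, `Y : ℕ → Module.End k V` and a
vector `e`: `(∀ F ∈ strels b x d Y σ σ1 σ2, F e = 0) ↔ StRel b x d (fun n => Y n e) (σ e) (σ1 e) (σ2 e)`
(`rD b Y n` applied to `e` is `sD b (fun n => Y n e) n`; `List.mem_append`, `List.mem_map`,
`List.mem_range`, `sub_eq_zero`, `Module.End.mul_apply`; compare the file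
`Pool/Agent/Lib/MP_85de51_alP/RelsIff.lean`). Then `List.mem_flatMap`. Evaluation of the sequences:
`Yg D s b i n e = Vg D b w i n`, `Yh D s b i r n e = Vh D b w i r n`, with
`w i ρ κ = s (b^(cod i ρ κ) e)` and `gen s b i ρ κ e = w i ρ κ` (`rfl`).
* `Rels.map`: all operators `opP b x` etc. are intertwined by `ι` (`cx1`, `cx2`, `cx3`: unfold, `map_sub`),
`ι (b^n m) = b'^n (ι m)`, `ι (sD b Y n) = sD b' (fun n => ι (Y n)) n`, and
`ι (Vg D b w i n) = Vg D b' (fun i ρ κ => ι (w i ρ κ)) i n` (`apply_ite`).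
-/

namespace OneRelZ

variable {k V : Type*} [Field k] [AddCommGroup V] [Module k V]

theorem RelsIff_sub {A B : Module.End k V} {e : V} : (A - B) e = 0 ↔ A e = B e := by
  rw [LinearMap.sub_apply, sub_eq_zero]

theorem RelsIff_strels (b x : Module.End k V) (d : ℕ) (Y : ℕ → Module.End k V) (σ σ1 σ2 : Module.End k V)
    (e : V) : (∀ F ∈ strels b x d Y σ σ1 σ2, F e = 0) ↔
      StRel b x d (fun n => Y n e) (σ e) (σ1 e) (σ2 e) := by
  unfold strels
  simp only [List.forall_mem_append, List.forall_mem_cons, List.forall_mem_map, List.mem_range]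
  constructor
  · rintro ⟨⟨⟨⟨h1, h2, h3, h4, h5, h6, h7, h8, h9, -⟩, h10⟩, h11⟩, h12⟩
    exact ⟨RelsIff_sub.1 h1, RelsIff_sub.1 h2, RelsIff_sub.1 h3, h4, RelsIff_sub.1 h5, h6,
      RelsIff_sub.1 h7, h8, h9, fun n hn => RelsIff_sub.1 (h10 n hn), h11, h12⟩
  · intro h
    exact ⟨⟨⟨⟨RelsIff_sub.2 h.a1, RelsIff_sub.2 h.a2, RelsIff_sub.2 h.a3, h.a4, RelsIff_sub.2 h.a5, h.a6,
      RelsIff_sub.2 h.a7, h.a8, h.a9, fun _ hx => absurd hx List.not_mem_nil⟩, fun n hn => RelsIff_sub.2 (h.a10 n hn)⟩, h.a11⟩, h.a12⟩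

theorem rels_iff (D : Mc) (s b x : Module.End k V) (e : V) :
    (∀ F ∈ rels D s b x, F e = 0) ↔ Rels D b x (fun i ρ κ => s ((b ^ cod i ρ κ) e)) := by
  have hg : ∀ i, (fun n => Yg D s b i n e) = Vg D b (fun i ρ κ => s ((b ^ cod i ρ κ) e)) i := by
    intro i
    funext n
    unfold Yg Vg
    split_ifs
    · rfl
    · rfl
  have hII : ∀ i, (∀ F ∈ strels b x (D.d i) (Yg D s b i) (gen s b i 0 0) (gen s b i 0 1) (gen s b i 0 2),
      F e = 0) ↔ StRel b x (D.d i) (Vg D b (fun i ρ κ => s ((b ^ cod i ρ κ) e)) i)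
        (s ((b ^ cod i 0 0) e)) (s ((b ^ cod i 0 1) e)) (s ((b ^ cod i 0 2) e)) := by
    intro i
    rw [RelsIff_strels, hg]
    exact Iff.rfl
  have hI : ∀ i r, (∀ F ∈ strels b x (D.al i r) (Yh D s b i r) (gen s b i (r + 1) 0)
      (gen s b i (r + 1) 1) (gen s b i (r + 1) 2), F e = 0) ↔
      StRel b x (D.al i r) (Vh D b (fun i ρ κ => s ((b ^ cod i ρ κ) e)) i r)
        (s ((b ^ cod i (r + 1) 0) e)) (s ((b ^ cod i (r + 1) 1) e)) (s ((b ^ cod i (r + 1) 2) e)) := by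
    intro i r
    rw [RelsIff_strels]
    exact Iff.rfl
  unfold rels
  simp only [List.mem_flatMap, List.mem_append, List.mem_range]
  constructor
  · intro h
    refine ⟨fun i hi => (hII i).1 fun F hF => h F ⟨i, hi, Or.inl hF⟩,
      fun i hi r hr => (hI i r).1 fun F hF => h F ⟨i, hi, Or.inr ⟨r, hr, hF⟩⟩⟩
  · rintro h F ⟨i, hi, hF | ⟨r, hr, hF⟩⟩
    · exact (hII i).2 (h.II i hi) F hF
    · exact (hI i r).2 (h.I i hi r hr) F hF

section map

variable {V' : Type*} [AddCommGroup V'] [Module k V'] {b x : Module.End k V} {b' x' : Module.End k V'}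
  {ι : V →ₗ[k] V'}

theorem RelsIff_cx1 (hb : ∀ m, ι (b m) = b' (ι m)) (hx : ∀ m, ι (x m) = x' (ι m)) (m : V) :
    ι (cx1 b x m) = cx1 b' x' (ι m) := by
  show ι (b (x m) - x (b m)) = b' (x' (ι m)) - x' (b' (ι m))
  rw [map_sub, hb, hx, hx, hb]

theorem RelsIff_cx2 (hb : ∀ m, ι (b m) = b' (ι m)) (hx : ∀ m, ι (x m) = x' (ι m)) (m : V) :
    ι (cx2 b x m) = cx2 b' x' (ι m) := by
  show ι (b (cx1 b x m) - cx1 b x (b m)) = b' (cx1 b' x' (ι m)) - cx1 b' x' (b' (ι m))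
  rw [map_sub, hb, RelsIff_cx1 hb hx, RelsIff_cx1 hb hx, hb]

theorem RelsIff_cx3 (hb : ∀ m, ι (b m) = b' (ι m)) (hx : ∀ m, ι (x m) = x' (ι m)) (m : V) :
    ι (cx3 b x m) = cx3 b' x' (ι m) := by
  show ι (b (cx2 b x m) - cx2 b x (b m)) = b' (cx2 b' x' (ι m)) - cx2 b' x' (b' (ι m))
  rw [map_sub, hb, RelsIff_cx2 hb hx, RelsIff_cx2 hb hx, hb]

theorem RelsIff_opP (hb : ∀ m, ι (b m) = b' (ι m)) (hx : ∀ m, ι (x m) = x' (ι m)) (m : V) :
    ι (opP b x m) = opP b' x' (ι m) := by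
  show ι (cx2 b x m + cx1 b x m) = cx2 b' x' (ι m) + cx1 b' x' (ι m)
  rw [map_add, RelsIff_cx2 hb hx, RelsIff_cx1 hb hx]

theorem RelsIff_opM (hb : ∀ m, ι (b m) = b' (ι m)) (hx : ∀ m, ι (x m) = x' (ι m)) (m : V) :
    ι (opM b x m) = opM b' x' (ι m) := by
  show ι (cx2 b x m - cx1 b x m) = cx2 b' x' (ι m) - cx1 b' x' (ι m)
  rw [map_sub, RelsIff_cx2 hb hx, RelsIff_cx1 hb hx]

theorem RelsIff_opV (hb : ∀ m, ι (b m) = b' (ι m)) (hx : ∀ m, ι (x m) = x' (ι m)) (m : V) :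
    ι (opV b x m) = opV b' x' (ι m) := by
  show ι (x m - cx2 b x m) = x' (ι m) - cx2 b' x' (ι m)
  rw [map_sub, RelsIff_cx2 hb hx, hx]

theorem RelsIff_opZ (hb : ∀ m, ι (b m) = b' (ι m)) (hx : ∀ m, ι (x m) = x' (ι m)) (m : V) :
    ι (opZ b x m) = opZ b' x' (ι m) := by
  show ι (cx3 b x m - cx1 b x m) = cx3 b' x' (ι m) - cx1 b' x' (ι m)
  rw [map_sub, RelsIff_cx3 hb hx, RelsIff_cx1 hb hx]

theorem RelsIff_pow (hb : ∀ m, ι (b m) = b' (ι m)) (n : ℕ) (m : V) : ι ((b ^ n) m) = (b' ^ n) (ι m) := by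
  induction n generalizing m with
  | zero => rfl
  | succ n ih => rw [pow_succ, pow_succ, Module.End.mul_apply, Module.End.mul_apply, ih, hb]

theorem RelsIff_sD (hb : ∀ m, ι (b m) = b' (ι m)) (Y : ℕ → V) (n : ℕ) :
    ι (sD b Y n) = sD b' (fun n => ι (Y n)) n := by
  show ι (b (Y n) - Y (n + 1)) = b' (ι (Y n)) - ι (Y (n + 1))
  rw [map_sub, hb]

theorem RelsIff_sD2 (hb : ∀ m, ι (b m) = b' (ι m)) (Y : ℕ → V) (n : ℕ) :
    ι (sD b (sD b Y) n) = sD b' (sD b' (fun n => ι (Y n))) n := by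
  have h1 : (fun n => ι (sD b Y n)) = sD b' (fun n => ι (Y n)) := funext fun n => RelsIff_sD hb Y n
  rw [RelsIff_sD hb, h1]

theorem RelsIff_sD3 (hb : ∀ m, ι (b m) = b' (ι m)) (Y : ℕ → V) (n : ℕ) :
    ι (sD b (sD b (sD b Y)) n) = sD b' (sD b' (sD b' (fun n => ι (Y n)))) n := by
  have h1 : (fun n => ι (sD b Y n)) = sD b' (fun n => ι (Y n)) := funext fun n => RelsIff_sD hb Y n
  rw [RelsIff_sD2 hb, h1]

theorem RelsIff_st (hb : ∀ m, ι (b m) = b' (ι m)) (hx : ∀ m, ι (x m) = x' (ι m)) {d : ℕ} {Y : ℕ → V}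
    {σ σ1 σ2 : V} (h : StRel b x d Y σ σ1 σ2) :
    StRel b' x' d (fun n => ι (Y n)) (ι σ) (ι σ1) (ι σ2) where
  a1 := by
    rw [← RelsIff_opP hb hx, h.a1, map_add]
    show ι σ1 + ι (sD b (sD b Y) 0 + sD b Y 0) = ι σ1 + (sD b' (sD b' (fun n => ι (Y n))) 0 + sD b' (fun n => ι (Y n)) 0)
    rw [map_add, RelsIff_sD2 hb, RelsIff_sD hb]
  a2 := by
    rw [← RelsIff_opM hb hx, h.a2, map_add, map_neg]
    show -ι σ2 + ι (sD b (sD b Y) 0 - sD b Y 0) = -ι σ2 + (sD b' (sD b' (fun n => ι (Y n))) 0 - sD b' (fun n => ι (Y n)) 0)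
    rw [map_sub, RelsIff_sD2 hb, RelsIff_sD hb]
  a3 := by
    rw [← RelsIff_opV hb hx, h.a3]
    show ι (Y 0 - sD b (sD b Y) 0) = ι (Y 0) - sD b' (sD b' (fun n => ι (Y n))) 0
    rw [map_sub, RelsIff_sD2 hb]
  a4 := by rw [← RelsIff_opP hb hx, h.a4, map_zero]
  a5 := by rw [← RelsIff_opM hb hx, h.a5, map_sub, hb, RelsIff_pow hb]
  a6 := by rw [← RelsIff_opV hb hx, h.a6, map_zero]
  a7 := by rw [← RelsIff_opP hb hx, h.a7, map_sub, hb, RelsIff_pow hb]
  a8 := by rw [← RelsIff_opM hb hx, h.a8, map_zero]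
  a9 := by rw [← RelsIff_opV hb hx, h.a9, map_zero]
  a10 n hn := by
    rw [← RelsIff_pow hb, ← RelsIff_opZ hb hx, h.a10 n hn]
    show ι (sD b (sD b (sD b Y)) n - sD b Y n) =
      sD b' (sD b' (sD b' (fun n => ι (Y n)))) n - sD b' (fun n => ι (Y n)) n
    rw [map_sub, RelsIff_sD3 hb, RelsIff_sD hb]
  a11 n hn := by rw [← RelsIff_pow hb, ← RelsIff_opZ hb hx, h.a11 n hn, map_zero]
  a12 n hn := by rw [← RelsIff_pow hb, ← RelsIff_opZ hb hx, h.a12 n hn, map_zero]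

end map

/-- transport of the relations -/
theorem Rels.map {V' : Type*} [AddCommGroup V'] [Module k V'] (D : Mc) (b x : Module.End k V)
    (w : ℕ → ℕ → ℕ → V) (b' x' : Module.End k V') (ι : V →ₗ[k] V')
    (hb : ∀ m, ι (b m) = b' (ι m)) (hx : ∀ m, ι (x m) = x' (ι m)) (h : Rels D b x w) :
    Rels D b' x' (fun i ρ κ => ι (w i ρ κ)) := by
  constructor
  · intro i hi
    have h1 := RelsIff_st hb hx (h.II i hi)
    have h2 : (fun n => ι (Vg D b w i n)) = Vg D b' (fun i ρ κ => ι (w i ρ κ)) i := by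
      funext n
      unfold Vg
      split_ifs
      · exact map_zero ι
      · exact RelsIff_pow hb _ _
    rw [h2] at h1
    exact h1
  · intro i hi r hr
    have h1 := RelsIff_st hb hx (h.I i hi r hr)
    have h2 : (fun n => ι (Vh D b w i r n)) = Vh D b' (fun i ρ κ => ι (w i ρ κ)) i r := by
      funext n
      exact RelsIff_pow hb _ _
    rw [h2] at h1
    exact h1

section ring

variable {A B : Type*} [Ring A] [Ring B] (φ : A →+* B)

theorem RelsIff_mcx1 (b x : A) : φ (cx1 b x) = cx1 (φ b) (φ x) := by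
  unfold cx1
  rw [map_sub, map_mul, map_mul]

theorem RelsIff_mcx2 (b x : A) : φ (cx2 b x) = cx2 (φ b) (φ x) := by
  unfold cx2
  rw [map_sub, map_mul, map_mul, RelsIff_mcx1]

theorem RelsIff_mcx3 (b x : A) : φ (cx3 b x) = cx3 (φ b) (φ x) := by
  unfold cx3
  rw [map_sub, map_mul, map_mul, RelsIff_mcx2]

theorem RelsIff_mP (b x : A) : φ (opP b x) = opP (φ b) (φ x) := by
  unfold opP
  rw [map_add, RelsIff_mcx2, RelsIff_mcx1]

theorem RelsIff_mM (b x : A) : φ (opM b x) = opM (φ b) (φ x) := by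
  unfold opM
  rw [map_sub, RelsIff_mcx2, RelsIff_mcx1]

theorem RelsIff_mV (b x : A) : φ (opV b x) = opV (φ b) (φ x) := by
  unfold opV
  rw [map_sub, RelsIff_mcx2]

theorem RelsIff_mZ (b x : A) : φ (opZ b x) = opZ (φ b) (φ x) := by
  unfold opZ
  rw [map_sub, RelsIff_mcx3, RelsIff_mcx1]

theorem RelsIff_mD (b : A) (Y : ℕ → A) (n : ℕ) : φ (rD b Y n) = rD (φ b) (fun n => φ (Y n)) n := by
  unfold rD
  rw [map_sub, map_mul]

theorem RelsIff_mD' (b : A) (Y : ℕ → A) : (fun n => φ (rD b Y n)) = rD (φ b) (fun n => φ (Y n)) :=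
  funext fun n => RelsIff_mD φ b Y n

theorem RelsIff_mst (b x : A) (d : ℕ) (Y : ℕ → A) (σ σ1 σ2 : A) :
    (strels b x d Y σ σ1 σ2).map φ = strels (φ b) (φ x) d (fun n => φ (Y n)) (φ σ) (φ σ1) (φ σ2) := by
  unfold strels
  simp only [List.map_append, List.map_cons, List.map_nil, List.map_map, Function.comp_def, map_sub, map_add,
    map_neg, map_mul, map_pow, RelsIff_mP, RelsIff_mM, RelsIff_mV, RelsIff_mZ, RelsIff_mD]

end ring

/-- the list of relators is natural -/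
theorem rels_map {A B : Type*} [Ring A] [Ring B] (φ : A →+* B) (D : Mc) (s b x : A) :
    (rels D s b x).map φ = rels D (φ s) (φ b) (φ x) := by
  have hgen : ∀ i ρ κ, φ (gen s b i ρ κ) = gen (φ s) (φ b) i ρ κ := by
    intro i ρ κ
    unfold gen
    rw [map_mul, map_pow]
  have hg : ∀ i, (fun n => φ (Yg D s b i n)) = Yg D (φ s) (φ b) i := by
    intro i
    funext n
    unfold Yg
    split_ifs
    · exact map_zero φ
    · rw [map_mul, map_pow, hgen]
  have hh : ∀ i r, (fun n => φ (Yh D s b i r n)) = Yh D (φ s) (φ b) i r := by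
    intro i r
    funext n
    unfold Yh
    rw [map_mul, map_pow, hgen]
  unfold rels
  simp only [List.map_flatMap, List.map_append, RelsIff_mst, hg, hh, hgen]

end OneRelZ
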