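import Pool.Agent.Lib.MP_85de51_alZ.Inst
import Pool.Agent.Lib.MP_85de51_alZ.RelsIff
import Pool.Agent.Lib.MP_85de51_alP.BrB
set_option autoImplicit false

/-!
# JOB BrB: from modules to the membership problem, the negative side

Adapt the file `Pool/Agent/Lib/MP_85de51_alP/BrB.lean` (imported, namespace `OneRelP`; it does exactly
this for another relator and another list of relators; all its lemmas which do not mention the relator
or the instance can be used: `BrB_j`, `BrB_jh`, `BrB_phi`, `BrB_T`, `BrB_pi`, `BrB_mem_iff`, `BrB_pi_j`,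
`BrB_pi_gs`, `BrB_pi_gu`, `BrB_pi_gz`, `BrB_phi_gv`, `BrB_lexp_single`, `BrB_lift_S`, `BrB_lift_X`,
`BrB_pi_toL`, ...). Changes: `relZ k` instead of `relP k q`, `map_relS` (Ident) instead of `map_relL`,
`rels_map` (RelsIff) instead of `BrB_rels_map`, and
`BrB_pi s u e (lmon k (powB n w)) = ((s * u - u * s)^n) (BrB_pi s u e (lmon k w))`,
so `BrB_pi s u e (lmon k (tst c n)) = s (B^n (s (B^c e)))`.
-/

namespace OneRelZ

open MP_85de51_al OneRelP

attribute [local instance 100] LieRing.ofAssociativeRing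

section BrBZ

variable {k V : Type} [Field k] [AddCommGroup V] [Module k V]

theorem BrB_pi_powB (s u : Module.End k V) (e : V) (n : ℕ) (w : FreeMagma (Fin 3)) :
    BrB_pi s u e (lmon k (powB n w)) = ((s * u - u * s) ^ n) (BrB_pi s u e (lmon k w)) := by
  induction n with
  | zero => rw [pow_zero]; rfl
  | succ n ih =>
    have h : powB (n + 1) w = gv * powB n w := Function.iterate_succ_apply' _ _ _
    rw [h]
    show BrB_pi s u e ⁅lmon k gv, lmon k (powB n w)⁆ = _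
    rw [BrB_pi_j s u e _ _ (BrB_phi_gv s u e), ih, pow_succ', Module.End.mul_apply]

theorem BrB_pi_tst (s u : Module.End k V) (e : V) (c n : ℕ) :
    BrB_pi s u e (lmon k (tst c n)) =
      s (((s * u - u * s) ^ n) (s (((s * u - u * s) ^ c) e))) := by
  unfold tst
  show BrB_pi s u e ⁅lmon k gs, lmon k (powB n (gs * powB c gz))⁆ = _
  rw [BrB_pi_gs, BrB_pi_powB]
  have h : BrB_pi s u e (lmon k (gs * powB c gz)) = s (((s * u - u * s) ^ c) e) := by
    show BrB_pi s u e ⁅lmon k gs, lmon k (powB c gz)⁆ = _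
    rw [BrB_pi_gs, BrB_pi_powB, BrB_pi_gz]
  rw [h]

theorem BrB_lexp_two (m m' : FreeMagma (Fin 3)) :
    lexp k [((1 : k), m), ((-1 : k), m')] = lmon k m - lmon k m' := by
  simp [lexp, sub_eq_add_neg]

theorem BrB_phi_relZ (s u : Module.End k V) (e : V) (h0 : relS s u = 0) :
    BrB_phi s u e (relZ k) = 0 := by
  rw [relZ, map_relS, BrB_phi_gs, BrB_phi_gu]
  have h := map_relS (BrB_jh (k := k) (V := V)) s u
  rw [h0, map_zero] at h
  exact h.symm

theorem BrB_lift_memZ (s u : Module.End k V) (D : Mc) (F : FreeAlgebra k (Fin 2))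
    (hF : F ∈ rels D (S0 k) (X0 k) (U0 k)) :
    FreeAlgebra.lift k ![s, u] F ∈ rels D s (s * u - u * s) u := by
  have h := rels_map ((FreeAlgebra.lift k ![s, u] : FreeAlgebra k (Fin 2) →ₐ[k] _) :
    FreeAlgebra k (Fin 2) →+* Module.End k V) D (S0 k) (X0 k) (U0 k)
  have h2 : ((FreeAlgebra.lift k ![s, u] : FreeAlgebra k (Fin 2) →ₐ[k] _) :
    FreeAlgebra k (Fin 2) →+* Module.End k V) F ∈ (rels D (S0 k) (X0 k) (U0 k)).map
      ((FreeAlgebra.lift k ![s, u] : FreeAlgebra k (Fin 2) →ₐ[k] _) :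
    FreeAlgebra k (Fin 2) →+* Module.End k V) := List.mem_map_of_mem hF
  rw [h] at h2
  simp only [RingHom.coe_coe] at h2
  rw [BrB_lift_S, BrB_lift_X, BrB_lift_U] at h2
  exact h2

theorem BrB_gensZ (D : Mc) (i₀ n : ℕ) (s u : Module.End k V) (e : V)
    (h1 : ∀ F ∈ rels D s (s * u - u * s) u, F e = 0)
    (h2 : u (s (((s * u - u * s) ^ n) (s (((s * u - u * s) ^ cod i₀ 0 0) e)))) =
        s (((s * u - u * s) ^ n) (s (((s * u - u * s) ^ cod i₀ 0 0) e))))
    (w : List (k × FreeMagma (Fin 3)))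
    (hw : w ∈ (inst k D i₀ n).1) : BrB_phi s u e (lexp k w) ∈ BrB_T k V := by
  simp only [inst, List.mem_cons, List.mem_map] at hw
  rcases hw with rfl | rfl | rfl | ⟨F, hF, rfl⟩
  · rw [BrB_lexp_two, BrB_mem_iff, map_sub]
    have h3 : BrB_pi s u e (lmon k (gu * tst (cod i₀ 0 0) n)) =
        u (BrB_pi s u e (lmon k (tst (cod i₀ 0 0) n))) := by
      show BrB_pi s u e ⁅lmon k gu, lmon k (tst (cod i₀ 0 0) n)⁆ = _
      rw [BrB_pi_gu]
    rw [h3, BrB_pi_tst, h2, sub_self]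
  · rw [BrB_lexp_single, BrB_phi_gs, BrB_mem_T, BrB_j_apply]
    simp
  · rw [BrB_lexp_single, BrB_phi_gu, BrB_mem_T, BrB_j_apply]
    simp
  · rw [BrB_mem_iff, BrB_pi_toL]
    exact h1 _ (BrB_lift_memZ s u D F hF)

theorem BrB_ideal_leZ (s u : Module.End k V) (e : V) (h0 : relS s u = 0)
    {y : FreeLieAlgebra k (Fin 3)}
    (hy : y ∈ (LieSubmodule.lieSpan k (FreeLieAlgebra k (Fin 3)) {relZ k} :
      LieIdeal k (FreeLieAlgebra k (Fin 3)))) : BrB_phi s u e y = 0 := by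
  have h : (LieSubmodule.lieSpan k (FreeLieAlgebra k (Fin 3)) {relZ k} :
      LieIdeal k (FreeLieAlgebra k (Fin 3))) ≤ (BrB_phi s u e).ker := by
    rw [LieSubmodule.lieSpan_le]
    intro x hx
    rw [Set.mem_singleton_iff] at hx
    rw [hx]
    exact LieHom.mem_ker.2 (BrB_phi_relZ s u e h0)
  exact LieHom.mem_ker.1 (h hy)

end BrBZ

theorem not_member_of (k : Type) [Field k] (D : Mc) (i₀ n : ℕ) (V : Type) [AddCommGroup V]
    [Module k V] (s u : Module.End k V) (e : V) (h0 : relS s u = 0)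
    (h1 : ∀ F ∈ rels D s (s * u - u * s) u, F e = 0)
    (h2 : u (s (((s * u - u * s) ^ n) (s (((s * u - u * s) ^ cod i₀ 0 0) e)))) =
        s (((s * u - u * s) ^ n) (s (((s * u - u * s) ^ cod i₀ 0 0) e))))
    (h3 : s (((s * u - u * s) ^ n) (s (((s * u - u * s) ^ cod i₀ 0 0) e))) ≠ 0) :
    ¬ Member k (relZ k) (inst k D i₀ n) := by
  intro h
  have key : ∀ x ∈ LieSubalgebra.lieSpan k (OneRel k (relZ k))
      {x : OneRel k (relZ k) | ∃ w ∈ (inst k D i₀ n).1,
        x = LieSubmodule.Quotient.mk (lexp k w)},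
      ∃ y : FreeLieAlgebra k (Fin 3), LieSubmodule.Quotient.mk y = x ∧
        BrB_phi s u e y ∈ BrB_T k V := by
    intro x hx
    induction hx using LieSubalgebra.lieSpan_induction with
    | mem x h =>
      obtain ⟨w, hw, rfl⟩ := h
      exact ⟨_, rfl, BrB_gensZ D i₀ n s u e h1 h2 w hw⟩
    | zero => exact ⟨0, rfl, by rw [map_zero]; exact (BrB_T k V).zero_mem⟩
    | add x y _ _ hx hy =>
      obtain ⟨a, rfl, ha⟩ := hx
      obtain ⟨b, rfl, hb⟩ := hy
      exact ⟨a + b, rfl, by rw [map_add]; exact (BrB_T k V).add_mem ha hb⟩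
    | smul c x _ hx =>
      obtain ⟨a, rfl, ha⟩ := hx
      exact ⟨c • a, rfl, by rw [map_smul]; exact (BrB_T k V).smul_mem c ha⟩
    | lie x y _ _ hx hy =>
      obtain ⟨a, rfl, ha⟩ := hx
      obtain ⟨b, rfl, hb⟩ := hy
      exact ⟨⁅a, b⁆, LieSubmodule.Quotient.mk_bracket _ _ _, by
        rw [LieHom.map_lie]; exact (BrB_T k V).lie_mem ha hb⟩
  obtain ⟨y, hy, hyT⟩ := key _ h
  have h4 : y - lexp k (inst k D i₀ n).2 ∈
      (LieSubmodule.lieSpan k (FreeLieAlgebra k (Fin 3)) {relZ k} :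
      LieIdeal k (FreeLieAlgebra k (Fin 3))) := by
    rw [← LieSubmodule.Quotient.mk_eq_zero']
    have : (LieSubmodule.Quotient.mk (y - lexp k (inst k D i₀ n).2) : OneRel k (relZ k)) =
      LieSubmodule.Quotient.mk y - LieSubmodule.Quotient.mk (lexp k (inst k D i₀ n).2) := rfl
    rw [this, hy, sub_self]
  have h5 := BrB_ideal_leZ s u e h0 h4
  rw [map_sub, sub_eq_zero] at h5
  rw [h5, BrB_mem_iff] at hyT
  have h6 : BrB_pi s u e (lexp k [(1, tst (cod i₀ 0 0) n)]) = 0 := hyT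
  rw [BrB_lexp_single, BrB_pi_tst] at h6
  exact h3 h6

end OneRelZ
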