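import Pool.Agent.Lib.MP_85de51_alZ.Inst
import Pool.Agent.Lib.MP_85de51_alZ.RelsIff
import Pool.Agent.Lib.MP_85de51_alP.BrF
set_option autoImplicit false

/-!
# JOB BrF: from modules to the membership problem

Adapt the file `Pool/Agent/Lib/MP_85de51_alP/BrF.lean` (imported, namespace `OneRelP`; it does exactly
this for another relator and another list of relators; `BrF_lift_S`, `BrF_lift_U`, `BrF_lift_X`,
`BrF_lexp_one`, `BrF_lmon_mul`, `BrF_mk`, `BrF_mk_self` can be used). Changes: `relZ k` instead of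
`relP k q`, `map_relS` (Ident) instead of `map_relL`, `rels_map` (RelsIff) instead of `BrF_rels_map`,
and the two elements of the instance with parameter `n`: with `B = s * u - u * s`,
`π (lmon k (powB n w)) = (B^n) (π (lmon k w))` (induction on `n`, as `BrF_powX`), hence
`π (lmon k (tst c n)) = s (B^n (s (B^c (π (lmon k gz)))))`, and
`π (lexp k [(1, gu * t), (-1, t)]) = u (π (lmon k t)) - π (lmon k t)`.
-/

namespace OneRelZ

open MP_85de51_al OneRelP

attribute [local instance 100] LieRing.ofAssociativeRing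

theorem BrF_lift_rels (k : Type) [Field k] {V : Type} [AddCommGroup V] [Module k V]
    (s u : Module.End k V) (D : Mc) :
    (rels D (S0 k) (X0 k) (U0 k)).map (FreeAlgebra.lift k ![s, u]) =
      rels D s (s * u - u * s) u := by
  have h := rels_map (FreeAlgebra.lift k ![s, u]).toRingHom D (S0 k) (X0 k) (U0 k)
  have h0 : (FreeAlgebra.lift k ![s, u]).toRingHom (S0 k) = s := BrF_lift_S k s u
  have h1 : (FreeAlgebra.lift k ![s, u]).toRingHom (X0 k) = s * u - u * s := BrF_lift_X k s u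
  have h2 : (FreeAlgebra.lift k ![s, u]).toRingHom (U0 k) = u := BrF_lift_U k s u
  rw [h0, h1, h2] at h
  exact h

theorem BrF_powB (k : Type) [Field k] {V : Type} [AddCommGroup V] [Module k V]
    (π : FreeLieAlgebra k (Fin 3) →ₗ[k] V) (s u : Module.End k V)
    (hs : ∀ w, π ⁅lmon k gs, w⁆ = s (π w)) (hu : ∀ w, π ⁅lmon k gu, w⁆ = u (π w)) (m : ℕ)
    (w : FreeMagma (Fin 3)) :
    π (lmon k (powB m w)) = ((s * u - u * s) ^ m) (π (lmon k w)) := by
  induction m with
  | zero => rw [pow_zero]; rfl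
  | succ m ih =>
    have h1 : powB (m + 1) w = gv * powB m w := by
      unfold powB
      rw [Function.iterate_succ_apply']
    rw [h1, BrF_lmon_mul, gv, BrF_lmon_mul, lie_lie, map_sub, hs, hu, hu, hs, ih, pow_succ',
      Module.End.mul_apply, LinearMap.sub_apply, Module.End.mul_apply, Module.End.mul_apply]

theorem BrF_tst (k : Type) [Field k] {V : Type} [AddCommGroup V] [Module k V]
    (π : FreeLieAlgebra k (Fin 3) →ₗ[k] V) (s u : Module.End k V)
    (hs : ∀ w, π ⁅lmon k gs, w⁆ = s (π w)) (hu : ∀ w, π ⁅lmon k gu, w⁆ = u (π w)) (c n : ℕ) :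
    π (lmon k (tst c n)) =
      s (((s * u - u * s) ^ n) (s (((s * u - u * s) ^ c) (π (lmon k gz))))) := by
  unfold tst
  rw [BrF_lmon_mul, hs, BrF_powB k π s u hs hu, BrF_lmon_mul, hs, BrF_powB k π s u hs hu]

theorem BrF_lexp_two (k : Type) [Field k] (m m' : FreeMagma (Fin 3)) :
    lexp k [((1 : k), m), ((-1 : k), m')] = lmon k m - lmon k m' := by
  simp [lexp, sub_eq_add_neg]

theorem member_of (k : Type) [Field k] (D : Mc) (i₀ n : ℕ)
    (h : ∀ (V : Type) [AddCommGroup V] [Module k V] (s u : Module.End k V) (e : V),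
      relS s u = 0 → (∀ F ∈ rels D s (s * u - u * s) u, F e = 0) →
      u (s (((s * u - u * s) ^ n) (s (((s * u - u * s) ^ cod i₀ 0 0) e)))) =
        s (((s * u - u * s) ^ n) (s (((s * u - u * s) ^ cod i₀ 0 0) e))) →
      s (((s * u - u * s) ^ n) (s (((s * u - u * s) ^ cod i₀ 0 0) e))) = 0) :
    Member k (relZ k) (inst k D i₀ n) := by
  unfold Member
  have hgen : ∀ w ∈ (inst k D i₀ n).1, BrF_mk k (relZ k) (lexp k w) ∈
      LieSubalgebra.lieSpan k (OneRel k (relZ k))
        {x : OneRel k (relZ k) | ∃ w ∈ (inst k D i₀ n).1,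
          x = LieSubmodule.Quotient.mk (lexp k w)} := fun w hw =>
    LieSubalgebra.subset_lieSpan ⟨w, hw, rfl⟩
  have hgoal : (LieSubmodule.Quotient.mk (lexp k (inst k D i₀ n).2) : OneRel k (relZ k)) =
      BrF_mk k (relZ k) (lexp k (inst k D i₀ n).2) := rfl
  rw [hgoal]
  generalize LieSubalgebra.lieSpan k (OneRel k (relZ k))
        {x : OneRel k (relZ k) | ∃ w ∈ (inst k D i₀ n).1,
          x = LieSubmodule.Quotient.mk (lexp k w)} = K at hgen ⊢
  have hsK : BrF_mk k (relZ k) (lmon k gs) ∈ K := by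
    have := hgen [(1, gs)] (by simp [inst])
    rwa [BrF_lexp_one] at this
  have huK : BrF_mk k (relZ k) (lmon k gu) ∈ K := by
    have := hgen [(1, gu)] (by simp [inst])
    rwa [BrF_lexp_one] at this
  set sK : K := ⟨BrF_mk k (relZ k) (lmon k gs), hsK⟩ with hsKdef
  set uK : K := ⟨BrF_mk k (relZ k) (lmon k gu), huK⟩ with huKdef
  have hrelK : relS sK uK = 0 := by
    have h1 : K.incl (relS sK uK) = K.incl 0 := by
      rw [map_relS, map_zero]
      have h2 := map_relS (BrF_mk k (relZ k)) (lmon k gs) (lmon k gu)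
      have h3 : BrF_mk k (relZ k) (relS (lmon k gs) (lmon k gu)) = 0 :=
        BrF_mk_self k (relZ k)
      rw [h3] at h2
      exact h2.symm
    exact Subtype.ext h1
  set T := LieModule.toEnd k K (OneRel k (relZ k) ⧸ K.toLieSubmodule) with hT
  have hrel : relS (T sK) (T uK) = 0 := by
    rw [← map_relS, hrelK, map_zero]
  set π : FreeLieAlgebra k (Fin 3) →ₗ[k] (OneRel k (relZ k) ⧸ K.toLieSubmodule) :=
    ((LieSubmodule.Quotient.mk' K.toLieSubmodule : OneRel k (relZ k) →ₗ⁅k, K⁆ _) :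
      OneRel k (relZ k) →ₗ[k] (OneRel k (relZ k) ⧸ K.toLieSubmodule)).comp
      ((BrF_mk k (relZ k)) : FreeLieAlgebra k (Fin 3) →ₗ[k] OneRel k (relZ k)) with hπ
  have hπ0 : ∀ w, π w = 0 ↔ BrF_mk k (relZ k) w ∈ K := by
    intro w
    exact LieSubmodule.Quotient.mk_eq_zero'
  have hπs : ∀ w, π ⁅lmon k gs, w⁆ = T sK (π w) := by
    intro w
    have h1 : π ⁅lmon k gs, w⁆ = LieSubmodule.Quotient.mk' K.toLieSubmodule
      (BrF_mk k (relZ k) ⁅lmon k gs, w⁆) := rfl
    rw [h1, LieHom.map_lie]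
    rfl
  have hπu : ∀ w, π ⁅lmon k gu, w⁆ = T uK (π w) := by
    intro w
    have h1 : π ⁅lmon k gu, w⁆ = LieSubmodule.Quotient.mk' K.toLieSubmodule
      (BrF_mk k (relZ k) ⁅lmon k gu, w⁆) := rfl
    rw [h1, LieHom.map_lie]
    rfl
  have hmain := h (OneRel k (relZ k) ⧸ K.toLieSubmodule) (T sK) (T uK) (π (lmon k gz)) hrel
    ?_ ?_
  · rw [← hπ0]
    have h1 : π (lexp k (inst k D i₀ n).2) = π (lmon k (tst (cod i₀ 0 0) n)) := by
      have : (inst k D i₀ n).2 = [(1, tst (cod i₀ 0 0) n)] := rfl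
      rw [this, BrF_lexp_one]
    rw [h1, BrF_tst k π (T sK) (T uK) hπs hπu]
    exact hmain
  · intro F hF
    rw [← BrF_lift_rels, List.mem_map] at hF
    obtain ⟨G, hG, rfl⟩ := hF
    have h1 : π (lexp k (toL k G)) =
        FreeAlgebra.lift k ![T sK, T uK] G (π (lmon k gz)) :=
      toL_spec k G _ π (T sK) (T uK) hπs hπu
    rw [← h1, hπ0]
    apply hgen
    simp only [inst, List.mem_cons, List.mem_map]
    exact Or.inr (Or.inr (Or.inr ⟨G, hG, rfl⟩))
  · have h1 : π (lexp k [(1, gu * tst (cod i₀ 0 0) n), (-1, tst (cod i₀ 0 0) n)]) = 0 := by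
      rw [hπ0]
      exact hgen _ (by simp [inst])
    rw [BrF_lexp_two, map_sub, BrF_lmon_mul, hπu, BrF_tst k π (T sK) (T uK) hπs hπu,
      sub_eq_zero] at h1
    exact h1

end OneRelZ
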