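import Pool.Agent.Lib.MP_85de51_alZ.Ident
set_option autoImplicit false

/-!
# JOB Conseq: consequences of `StAll`

Notation as in Core. First the polynomial versions of the formulas of `StAll` (for `f : k[X]`;
`Polynomial.induction_on'` or `aeval_eq_sum_range`; only the images under the difference matter):
`m (f(b) σ1) = f(b+1) γ`, `p (f(b) σ1) = 0`, `v (f(b) σ1) = 0`, `p (f(b) σ2) = f(b-1) γ`,
`m (f(b) σ2) = 0`, `v (f(b) σ2) = 0`, where `γ = b σ - b^d σ`, `f(b) = aeval b f`.

* `c_vec`: `2 c (b^n σ) = 2 b^(n+1) σ + p (m (b^n σ)) - m (p (b^n σ))` (`add_c`)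
`= 2 b^(n+1) σ - p ((b+1)^n σ2) + p (sM n) - m ((b-1)^n σ1) - m (sP n)`,
`p ((b+1)^n σ2) = b^n γ` and `m ((b-1)^n σ1) = b^n γ` (polynomials `(X+1)^n`, `(X-1)^n`), and
`2 b^(n+1) σ - 2 b^n γ = 2 b^(n+d) σ`.
* `x_vec`: `2 x = 2 v + p + m` (`add_x`), `sV + sV + sP + sM = 2 Y n` (unfold), divide by `2`.
* `x_th`: `2 x (b^i σ1) = m (b^i σ1)`; `2 x ((b-1)^n σ1) = m ((b-1)^n σ1) = b^n γ`,
`2 x ((b+1)^n σ2) = p ((b+1)^n σ2) = b^n γ`; the difference is `0`.
* `x_b_th`: `2 x (b (b-1)^n σ1) = m (f(b) σ1)` with `f = X (X-1)^n`, `= (b+1) b^n γ`;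
`2 x (b (b+1)^n σ2) = p (f(b) σ2)` with `f = X (X+1)^n`, `= (b-1) b^n γ`. So
`2 x (b ((b-1)^n σ1 - (b+1)^n σ2)) = 2 b^n γ`, hence `x (b (th n)) = (1/2) b^n γ`,
`b^n γ = b^(n+1) σ - b^(n+d) σ`.
-/

namespace OneRelZ

open Polynomial

variable {k V : Type*} [Field k] [AddCommGroup V] [Module k V]

/-- the auxiliary part of `x (b^n σ)` -/
def th (b : Module.End k V) (σ1 σ2 : V) (n : ℕ) : V :=
  (2⁻¹ : k) • (((b - 1) ^ n) σ1 - ((b + 1) ^ n) σ2)

variable {b x : Module.End k V} {d : ℕ} {Y : ℕ → V} {σ σ1 σ2 : V}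

theorem Conseq_m1 (hA : StAll b x d Y σ σ1 σ2) (f : k[X]) :
    opM b x ((aeval b f) σ1) = (aeval (b + 1) f) (b σ - (b ^ d) σ) := by
  induction f using Polynomial.induction_on' with
  | add p q hp hq => simp only [map_add, LinearMap.add_apply, hp, hq]
  | monomial n a => simp only [aeval_monomial, Module.End.mul_apply, Module.algebraMap_end_apply, map_smul, hA.m1 n]

theorem Conseq_p1 (hA : StAll b x d Y σ σ1 σ2) (f : k[X]) : opP b x ((aeval b f) σ1) = 0 := by
  induction f using Polynomial.induction_on' with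
  | add p q hp hq => simp only [map_add, LinearMap.add_apply, hp, hq, add_zero]
  | monomial n a => simp only [aeval_monomial, Module.End.mul_apply, Module.algebraMap_end_apply, map_smul, hA.p1 n, smul_zero]

theorem Conseq_v1 (hA : StAll b x d Y σ σ1 σ2) (f : k[X]) : opV b x ((aeval b f) σ1) = 0 := by
  induction f using Polynomial.induction_on' with
  | add p q hp hq => simp only [map_add, LinearMap.add_apply, hp, hq, add_zero]
  | monomial n a => simp only [aeval_monomial, Module.End.mul_apply, Module.algebraMap_end_apply, map_smul, hA.v1 n, smul_zero]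

theorem Conseq_p2 (hA : StAll b x d Y σ σ1 σ2) (f : k[X]) :
    opP b x ((aeval b f) σ2) = (aeval (b - 1) f) (b σ - (b ^ d) σ) := by
  induction f using Polynomial.induction_on' with
  | add p q hp hq => simp only [map_add, LinearMap.add_apply, hp, hq]
  | monomial n a => simp only [aeval_monomial, Module.End.mul_apply, Module.algebraMap_end_apply, map_smul, hA.p2 n]

theorem Conseq_m2 (hA : StAll b x d Y σ σ1 σ2) (f : k[X]) : opM b x ((aeval b f) σ2) = 0 := by
  induction f using Polynomial.induction_on' with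
  | add p q hp hq => simp only [map_add, LinearMap.add_apply, hp, hq, add_zero]
  | monomial n a => simp only [aeval_monomial, Module.End.mul_apply, Module.algebraMap_end_apply, map_smul, hA.m2 n, smul_zero]

theorem Conseq_v2 (hA : StAll b x d Y σ σ1 σ2) (f : k[X]) : opV b x ((aeval b f) σ2) = 0 := by
  induction f using Polynomial.induction_on' with
  | add p q hp hq => simp only [map_add, LinearMap.add_apply, hp, hq, add_zero]
  | monomial n a => simp only [aeval_monomial, Module.End.mul_apply, Module.algebraMap_end_apply, map_smul, hA.v2 n, smul_zero]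

theorem Conseq_xx (b x : Module.End k V) (y : V) :
    x y + x y = opV b x y + opV b x y + opP b x y + opM b x y := by
  have h := congrArg (fun e : Module.End k V => e y) (add_x b x)
  simpa only [LinearMap.add_apply] using h

theorem Conseq_x1 (hA : StAll b x d Y σ σ1 σ2) (f : k[X]) :
    x ((aeval b f) σ1) + x ((aeval b f) σ1) = (aeval (b + 1) f) (b σ - (b ^ d) σ) := by
  rw [Conseq_xx b x, Conseq_v1 hA, Conseq_p1 hA, Conseq_m1 hA]
  simp

theorem Conseq_x2 (hA : StAll b x d Y σ σ1 σ2) (f : k[X]) :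
    x ((aeval b f) σ2) + x ((aeval b f) σ2) = (aeval (b - 1) f) (b σ - (b ^ d) σ) := by
  rw [Conseq_xx b x, Conseq_v2 hA, Conseq_p2 hA, Conseq_m2 hA]
  simp

theorem Conseq_half (h2 : (2 : k) ≠ 0) {u v : V} (h : u + u = v) : u = (2⁻¹ : k) • v := by
  rw [← h, ← two_smul k u, smul_smul, inv_mul_cancel₀ h2, one_smul]

theorem c_vec (hA : StAll b x d Y σ σ1 σ2) (n : ℕ) :
    opC b x ((b ^ n) σ) + opC b x ((b ^ n) σ) =
      (b ^ (n + d)) σ + (b ^ (n + d)) σ + opP b x (sM b Y n) - opM b x (sP b Y n) := by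
  have h := congrArg (fun e : Module.End k V => e ((b ^ n) σ)) (add_c b x)
  simp only [LinearMap.add_apply, LinearMap.sub_apply, Module.End.mul_apply] at h
  have hp := Conseq_p2 hA ((X + 1) ^ n)
  have hm := Conseq_m1 hA ((X - 1) ^ n)
  simp only [map_pow, map_add, map_sub, aeval_X, map_one, sub_add_cancel, add_sub_cancel_right] at hp hm
  rw [h, hA.m0 n, hA.p0 n, map_add, map_add, map_neg, hp, hm, ← Module.End.mul_apply (b ^ n) b,
    ← Module.End.mul_apply (b ^ n) (b ^ d), ← Module.End.mul_apply b (b ^ n), ← pow_succ, ← pow_succ', ← pow_add]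
  abel

theorem x_vec (h2 : (2 : k) ≠ 0) (hA : StAll b x d Y σ σ1 σ2) (n : ℕ) :
    x ((b ^ n) σ) = Y n + th b σ1 σ2 n := by
  have h1 : (x ((b ^ n) σ) - Y n) + (x ((b ^ n) σ) - Y n) = ((b - 1) ^ n) σ1 - ((b + 1) ^ n) σ2 := by
    have h := Conseq_xx b x ((b ^ n) σ)
    rw [hA.v0 n, hA.p0 n, hA.m0 n] at h
    unfold sV sP sM at h
    have h' : (x ((b ^ n) σ) - Y n) + (x ((b ^ n) σ) - Y n) = (x ((b ^ n) σ) + x ((b ^ n) σ)) - Y n - Y n := by abel
    rw [h', h]
    abel
  have h2' := Conseq_half h2 h1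
  unfold th
  rw [← h2']
  abel

theorem x_th (h2 : (2 : k) ≠ 0) (hA : StAll b x d Y σ σ1 σ2) (n : ℕ) :
    x (th b σ1 σ2 n) = 0 := by
  have h1 := Conseq_x1 hA ((X - 1) ^ n)
  have h3 := Conseq_x2 hA ((X + 1) ^ n)
  simp only [map_pow, map_add, map_sub, aeval_X, map_one, sub_add_cancel, add_sub_cancel_right] at h1 h3
  have h4 := Conseq_half h2 h1
  have h5 := Conseq_half h2 h3
  unfold th
  rw [map_smul, map_sub, h4, h5, sub_self, smul_zero]

theorem x_b_th (h2 : (2 : k) ≠ 0) (hA : StAll b x d Y σ σ1 σ2) (n : ℕ) :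
    x (b (th b σ1 σ2 n)) = (2⁻¹ : k) • ((b ^ (n + 1)) σ - (b ^ (n + d)) σ) := by
  have h1 := Conseq_x1 hA (X * (X - 1) ^ n)
  have h3 := Conseq_x2 hA (X * (X + 1) ^ n)
  simp only [map_mul, map_pow, map_add, map_sub, aeval_X, map_one, sub_add_cancel, add_sub_cancel_right,
    Module.End.mul_apply] at h1 h3
  have h4 := Conseq_half h2 h1
  have h5 := Conseq_half h2 h3
  have h6 : (b ^ (n + 1)) σ - (b ^ (n + d)) σ = (b ^ n) (b σ) - (b ^ n) ((b ^ d) σ) := by
    rw [pow_succ, pow_add, Module.End.mul_apply, Module.End.mul_apply]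
  unfold th
  rw [map_smul, map_smul, map_sub, map_sub, h4, h5, h6, ← smul_sub]
  congr 1
  simp only [LinearMap.add_apply, LinearMap.sub_apply, Module.End.one_apply]
  symm
  have h7 : ∀ u v : V, u - v = (2⁻¹ : k) • ((u - v) + (u - v)) := fun u v => Conseq_half h2 rfl
  rw [h7]
  congr 1
  abel

end OneRelZ
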