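import Pool.Agent.Lib.MP_85de51_alZ.Ident
set_option autoImplicit false

/-!
# JOB Core: the relations of a state hold for all powers of `b`

Write `p, m, v, z, c` for `opP b x, ...`, `Z n = sZ b Y n`, `γ = b σ - b^d σ`. From Ident:
`p b = (b-1) p - z`, `m b = (b+1) m - z`, `v b = b v + z`, `2 c = 2 b + (p m - m p)`.

STEP 1 (`p0` etc. from `z0` below; all by induction on `n`, using `b^(n+1) = b * b^n`).
(a) If `z (b^j σ) = Z j` for all `j < n` then `p (b^n σ) = (b-1)^n σ1 + sP b Y n`,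
`m (b^n σ) = - (b+1)^n σ2 + sM b Y n`, `v (b^n σ) = sV b Y n`. Induction step:
`p (b (b^n σ)) = (b-1) (p (b^n σ)) - z (b^n σ) = (b-1)^(n+1) σ1 + (b-1) (sP n) - Z n` and
`sP (n+1) = b (sP n) - sP n - Z n`, since `sD b (sP b Y) n = sP n + Z n` (unfold: both are
`D³Y + D²Y`). Similarly `sM (n+1) = b (sM n) + sM n - Z n` and `sV (n+1) = b (sV n) + Z n`.
(b) If `z (b^j σ1) = 0` for all `j < n` then `p (b^n σ1) = 0`, `m (b^n σ1) = (b+1)^n γ`, `v (b^n σ1) = 0`.
(c) If `z (b^j σ2) = 0` for all `j < n` then `p (b^n σ2) = (b-1)^n γ`, `m (b^n σ2) = 0`, `v (b^n σ2) = 0`.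
POLYNOMIAL VERSIONS (for `f : k[X]` with `natDegree f ≤ n`, `aeval b f : Module.End k V`), by linearity
(`Polynomial.aeval_eq_sum_range'` or `f.sum_over_range`, or by induction on the degree): under the
hypothesis of (a): `p (aeval b f σ) = aeval (b-1) f σ1 + ∑ j ∈ range (n+1), f.coeff j • sP b Y j`,
`m (aeval b f σ) = - aeval (b+1) f σ2 + ∑ j ∈ range (n+1), f.coeff j • sM b Y j`; under (b):
`m (aeval b f σ1) = aeval (b+1) f γ`; under (c): `p (aeval b f σ2) = aeval (b-1) f γ`.

STEP 2: `P N : z (b^N σ) = Z N ∧ z (b^N σ1) = 0 ∧ z (b^N σ2) = 0` for all `N`, by strong induction.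
`N < d`: `a10`, `a11`, `a12`. `N = n + d`: assume `P j` for all `j < n + d`.
(i) `2 c (b^n σ) = 2 b^(n+1) σ + p (m (b^n σ)) - m (p (b^n σ))`
`= 2 b^(n+1) σ - p ((b+1)^n σ2) + p (sM n) - m ((b-1)^n σ1) - m (sP n)`, and
`p ((b+1)^n σ2) = b^n γ` (polynomial `(X+1)^n`, degree `n`), `m ((b-1)^n σ1) = b^n γ`
(polynomial `(X-1)^n`). Since `2 b^(n+1) σ - 2 b^n γ = 2 b^(n+d) σ`:
`2 c (b^n σ) = 2 b^(n+d) σ + p (sM n) - m (sP n)`. Apply `z`: `z c = c z` (`hc`), `P n`, `H1`, `H2`, `H2'`:
`2 z (b^(n+d) σ) = 2 c (Z n) = 2 Z (n+d)`; divide by `2` (`h2`).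
(ii) `2 c (b^n σ1) = 2 b^(n+1) σ1 + p (m (b^n σ1)) - m (p (b^n σ1))`, `p (b^n σ1) = 0`,
`m (b^n σ1) = (b+1)^n γ = aeval b f σ` with `f = (X+1)^n (X - X^d)` of degree `≤ n + d`; by (a) with `n + d`
in place of `n` (only `z (b^j σ) = Z j` for `j < n + d` is needed):
`p (f(b) σ) = f(b-1) σ1 + ∑ f_j sP j`, `f(b-1) = b^n ((b-1) - (b-1)^d)`. Apply `z` (`z c = c z`, `P n`,
`H3`): `z (q(b) σ1) = 0` for `q = X^n (2 X + (X-1) - (X-1)^d)`. `natDegree q = n + d` and the leading
coefficient is `-1` if `d ≥ 2` and `2` if `d = 1` (then `q = X^n (2 X)`); as `z (b^j σ1) = 0` for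
`j < n + d` we get `z (b^(n+d) σ1) = 0`. (General fact `Core_lead` below.)
(iii) `2 c (b^n σ2) = 2 b^(n+1) σ2 + p (m (b^n σ2)) - m (p (b^n σ2))`, `m (b^n σ2) = 0`,
`p (b^n σ2) = (b-1)^n γ = f(b) σ`, `f = (X-1)^n (X - X^d)`, `m (f(b) σ) = - f(b+1) σ2 + ∑ f_j sM j`,
`f(b+1) = b^n ((b+1) - (b+1)^d)`. So `z (q(b) σ2) = 0` for `q = X^n (2 X + (X+1) - (X+1)^d)`
(`H3'`), leading coefficient `-1` or `2` again.

STEP 3: by STEP 1 all fields of `StAll`.
(Useful split: lemmas for STEP 1 with a hypothesis `∀ j < n`.)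
-/

namespace OneRelZ

open Polynomial

variable {k V : Type*} [Field k] [AddCommGroup V] [Module k V]

/-- linear maps on polynomials agreeing on `X^j`, `j ≤ n`, agree in degree `≤ n` -/
theorem Core_ext (l1 l2 : k[X] →ₗ[k] V) (n : ℕ) (h : ∀ j ≤ n, l1 (X ^ j) = l2 (X ^ j)) (f : k[X])
    (hf : f.natDegree ≤ n) : l1 f = l2 f := by
  rw [f.as_sum_range_C_mul_X_pow' (Nat.lt_succ_of_le hf), map_sum, map_sum]
  refine Finset.sum_congr rfl fun j hj => ?_
  rw [← smul_eq_C_mul, map_smul, map_smul, h j (Nat.le_of_lt_succ (Finset.mem_range.1 hj))]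

/-- If a linear map on polynomials kills `X^j` for `j < N` and a polynomial of degree `N` then it
kills `X^N`. -/
theorem Core_lead (l : k[X] →ₗ[k] V) (N : ℕ) (h : ∀ j < N, l (X ^ j) = 0) (q : k[X])
    (hq : q.natDegree ≤ N) (hN : q.coeff N ≠ 0) (h0 : l q = 0) : l (X ^ N) = 0 := by
  rw [q.as_sum_range_C_mul_X_pow' (Nat.lt_succ_of_le hq), map_sum, Finset.sum_range_succ,
    Finset.sum_eq_zero, zero_add, ← smul_eq_C_mul, map_smul] at h0
  · exact (smul_eq_zero.1 h0).resolve_left hN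
  · intro j hj
    rw [← smul_eq_C_mul, map_smul, h j (Finset.mem_range.1 hj), smul_zero]

/-- evaluation at `b` and a vector -/
noncomputable def Core_ev (b : Module.End k V) (σ : V) : k[X] →ₗ[k] V :=
  (LinearMap.applyₗ σ) ∘ₗ (aeval b).toLinearMap

theorem Core_ev_apply (b : Module.End k V) (σ : V) (f : k[X]) : Core_ev b σ f = aeval b f σ := rfl

theorem Core_ev_X (b : Module.End k V) (σ : V) (n : ℕ) : Core_ev b σ (X ^ n) = (b ^ n) σ := by
  rw [Core_ev_apply, map_pow, aeval_X]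

/-- linear extension of a sequence -/
noncomputable def Core_sq (Y : ℕ → V) : k[X] →ₗ[k] V :=
  Polynomial.lsum (fun n => LinearMap.toSpanSingleton k V (Y n))

theorem Core_sq_X (Y : ℕ → V) (n : ℕ) : Core_sq (k := k) Y (X ^ n) = Y n := by
  rw [Core_sq, Polynomial.lsum_apply, ← monomial_one_right_eq_X_pow, sum_monomial_index]
  · simp
  · simp

section

variable (b x : Module.End k V)

theorem Core_P (v : V) : opP b x (b v) = (b - 1) (opP b x v) - opZ b x v := by
  have h := congrArg (fun A : Module.End k V => A v) (opP_b b x)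
  exact h

theorem Core_M (v : V) : opM b x (b v) = (b + 1) (opM b x v) - opZ b x v := by
  have h := congrArg (fun A : Module.End k V => A v) (opM_b b x)
  exact h

theorem Core_V (v : V) : opV b x (b v) = b (opV b x v) + opZ b x v := by
  have h := congrArg (fun A : Module.End k V => A v) (opV_b b x)
  exact h

theorem Core_C (v : V) : opC b x v + opC b x v =
    b v + b v + (opP b x (opM b x v) - opM b x (opP b x v)) := by
  have h := congrArg (fun A : Module.End k V => A v) (add_c b x)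
  exact h

end

theorem Core_sP (b : Module.End k V) (Y : ℕ → V) (n : ℕ) :
    sP b Y (n + 1) = (b - 1) (sP b Y n) - sZ b Y n := by
  have h : sD b (sP b Y) n = sP b Y n + sZ b Y n := by
    simp only [sD, sP, sZ, map_sub, map_add]
    abel
  have h' : sD b (sP b Y) n = b (sP b Y n) - sP b Y (n + 1) := rfl
  rw [LinearMap.sub_apply, Module.End.one_apply]
  have h2 : sP b Y (n + 1) = b (sP b Y n) - sD b (sP b Y) n := by rw [h']; abel
  rw [h2, h]
  abel

theorem Core_sM (b : Module.End k V) (Y : ℕ → V) (n : ℕ) :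
    sM b Y (n + 1) = (b + 1) (sM b Y n) - sZ b Y n := by
  have h : sD b (sM b Y) n = -sM b Y n + sZ b Y n := by
    simp only [sD, sM, sZ, map_sub]
    abel
  have h' : sD b (sM b Y) n = b (sM b Y n) - sM b Y (n + 1) := rfl
  rw [LinearMap.add_apply, Module.End.one_apply]
  have h2 : sM b Y (n + 1) = b (sM b Y n) - sD b (sM b Y) n := by rw [h']; abel
  rw [h2, h]
  abel

theorem Core_sV (b : Module.End k V) (Y : ℕ → V) (n : ℕ) :
    sV b Y (n + 1) = b (sV b Y n) + sZ b Y n := by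
  have h : sD b (sV b Y) n = -sZ b Y n := by
    simp only [sD, sV, sZ, map_sub]
    abel
  have h' : sD b (sV b Y) n = b (sV b Y n) - sV b Y (n + 1) := rfl
  have h2 : sV b Y (n + 1) = b (sV b Y n) - sD b (sV b Y) n := by rw [h']; abel
  rw [h2, h]
  abel

section

variable {b x : Module.End k V} {d : ℕ} {Y : ℕ → V} {σ σ1 σ2 : V}

theorem Core_a (hR : StRel b x d Y σ σ1 σ2) (n : ℕ)
    (h : ∀ j < n, opZ b x ((b ^ j) σ) = sZ b Y j) :
    opP b x ((b ^ n) σ) = ((b - 1) ^ n) σ1 + sP b Y n ∧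
      opM b x ((b ^ n) σ) = -(((b + 1) ^ n) σ2) + sM b Y n ∧
      opV b x ((b ^ n) σ) = sV b Y n := by
  induction n with
  | zero => exact ⟨hR.a1, hR.a2, hR.a3⟩
  | succ n ih =>
    obtain ⟨i1, i2, i3⟩ := ih fun j hj => h j (by omega)
    have hz := h n (by omega)
    refine ⟨?_, ?_, ?_⟩
    · rw [pow_succ', Module.End.mul_apply, Core_P, i1, hz, Core_sP, pow_succ',
        Module.End.mul_apply, map_add]
      abel
    · rw [pow_succ', Module.End.mul_apply, Core_M, i2, hz, Core_sM, pow_succ',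
        Module.End.mul_apply, map_add, map_neg]
      abel
    · rw [pow_succ', Module.End.mul_apply, Core_V, i3, hz, Core_sV]

theorem Core_b (hR : StRel b x d Y σ σ1 σ2) (n : ℕ) (h : ∀ j < n, opZ b x ((b ^ j) σ1) = 0) :
    opP b x ((b ^ n) σ1) = 0 ∧
      opM b x ((b ^ n) σ1) = ((b + 1) ^ n) (b σ - (b ^ d) σ) ∧
      opV b x ((b ^ n) σ1) = 0 := by
  induction n with
  | zero => exact ⟨hR.a4, hR.a5, hR.a6⟩
  | succ n ih =>
    obtain ⟨i1, i2, i3⟩ := ih fun j hj => h j (by omega)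
    have hz := h n (by omega)
    refine ⟨?_, ?_, ?_⟩
    · rw [pow_succ', Module.End.mul_apply, Core_P, i1, hz, map_zero, sub_zero]
    · rw [pow_succ', Module.End.mul_apply, Core_M, i2, hz, pow_succ', Module.End.mul_apply,
        sub_zero]
    · rw [pow_succ', Module.End.mul_apply, Core_V, i3, hz, map_zero, add_zero]

theorem Core_c (hR : StRel b x d Y σ σ1 σ2) (n : ℕ) (h : ∀ j < n, opZ b x ((b ^ j) σ2) = 0) :
    opP b x ((b ^ n) σ2) = ((b - 1) ^ n) (b σ - (b ^ d) σ) ∧
      opM b x ((b ^ n) σ2) = 0 ∧ opV b x ((b ^ n) σ2) = 0 := by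
  induction n with
  | zero => exact ⟨hR.a7, hR.a8, hR.a9⟩
  | succ n ih =>
    obtain ⟨i1, i2, i3⟩ := ih fun j hj => h j (by omega)
    have hz := h n (by omega)
    refine ⟨?_, ?_, ?_⟩
    · rw [pow_succ', Module.End.mul_apply, Core_P, i1, hz, pow_succ', Module.End.mul_apply,
        sub_zero]
    · rw [pow_succ', Module.End.mul_apply, Core_M, i2, hz, map_zero, sub_zero]
    · rw [pow_succ', Module.End.mul_apply, Core_V, i3, hz, map_zero, add_zero]

/-- `γ(b) σ` -/
theorem Core_gam : b σ - (b ^ d) σ = aeval b (X - X ^ d : k[X]) σ := by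
  rw [map_sub, map_pow, aeval_X]
  rfl

theorem Core_Pσ (hR : StRel b x d Y σ σ1 σ2) (n : ℕ)
    (h : ∀ j < n, opZ b x ((b ^ j) σ) = sZ b Y j) (f : k[X]) (hf : f.natDegree ≤ n) :
    opP b x (aeval b f σ) = aeval (b - 1) f σ1 + Core_sq (sP b Y) f := by
  refine Core_ext ((opP b x) ∘ₗ Core_ev b σ) (Core_ev (b - 1) σ1 + Core_sq (sP b Y)) n
    (fun j hj => ?_) f hf
  rw [LinearMap.comp_apply, LinearMap.add_apply, Core_ev_X, Core_ev_X, Core_sq_X]
  exact (Core_a hR j fun i hi => h i (by omega)).1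

theorem Core_Mσ (hR : StRel b x d Y σ σ1 σ2) (n : ℕ)
    (h : ∀ j < n, opZ b x ((b ^ j) σ) = sZ b Y j) (f : k[X]) (hf : f.natDegree ≤ n) :
    opM b x (aeval b f σ) = -(aeval (b + 1) f σ2) + Core_sq (sM b Y) f := by
  refine Core_ext ((opM b x) ∘ₗ Core_ev b σ) (-Core_ev (b + 1) σ2 + Core_sq (sM b Y)) n
    (fun j hj => ?_) f hf
  rw [LinearMap.comp_apply, LinearMap.add_apply, LinearMap.neg_apply, Core_ev_X, Core_ev_X,
    Core_sq_X]
  exact (Core_a hR j fun i hi => h i (by omega)).2.1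

theorem Core_Mσ1 (hR : StRel b x d Y σ σ1 σ2) (n : ℕ)
    (h : ∀ j < n, opZ b x ((b ^ j) σ1) = 0) (f : k[X]) (hf : f.natDegree ≤ n) :
    opM b x (aeval b f σ1) = aeval (b + 1) f (b σ - (b ^ d) σ) := by
  refine Core_ext ((opM b x) ∘ₗ Core_ev b σ1) (Core_ev (b + 1) (b σ - (b ^ d) σ)) n
    (fun j hj => ?_) f hf
  rw [LinearMap.comp_apply, Core_ev_X, Core_ev_X]
  exact (Core_b hR j fun i hi => h i (by omega)).2.1

theorem Core_Pσ2 (hR : StRel b x d Y σ σ1 σ2) (n : ℕ)
    (h : ∀ j < n, opZ b x ((b ^ j) σ2) = 0) (f : k[X]) (hf : f.natDegree ≤ n) :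
    opP b x (aeval b f σ2) = aeval (b - 1) f (b σ - (b ^ d) σ) := by
  refine Core_ext ((opP b x) ∘ₗ Core_ev b σ2) (Core_ev (b - 1) (b σ - (b ^ d) σ)) n
    (fun j hj => ?_) f hf
  rw [LinearMap.comp_apply, Core_ev_X, Core_ev_X]
  exact (Core_c hR j fun i hi => h i (by omega)).1

end

/-- `z` kills all combinations of a sequence killed by `z` -/
theorem Core_sq_zero (A : Module.End k V) (Y : ℕ → V) (h : ∀ n, A (Y n) = 0) (f : k[X]) :
    A (Core_sq Y f) = 0 := by
  have := Core_ext (A ∘ₗ Core_sq Y) 0 f.natDegree (fun j _ => by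
    rw [LinearMap.comp_apply, Core_sq_X, h, LinearMap.zero_apply]) f le_rfl
  exact this

theorem Core_deg1 (n : ℕ) : ((X + 1 : k[X]) ^ n).natDegree ≤ n := by
  have h := natDegree_pow_le (p := (X + 1 : k[X])) (n := n)
  have h1 : (X + 1 : k[X]).natDegree ≤ 1 := (natDegree_add_le_of_degree_le natDegree_X_le (by simp))
  calc _ ≤ n * (X + 1 : k[X]).natDegree := h
    _ ≤ n * 1 := Nat.mul_le_mul_left n h1
    _ = n := mul_one n

theorem Core_deg2 (n : ℕ) : ((X - 1 : k[X]) ^ n).natDegree ≤ n := by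
  have h := natDegree_pow_le (p := (X - 1 : k[X])) (n := n)
  have h1 : (X - 1 : k[X]).natDegree ≤ 1 := natDegree_X_sub_C_le 1
  calc _ ≤ n * (X - 1 : k[X]).natDegree := h
    _ ≤ n * 1 := Nat.mul_le_mul_left n h1
    _ = n := mul_one n

theorem Core_degX (n : ℕ) : ((X : k[X]) ^ n).natDegree ≤ n := natDegree_X_pow_le n

theorem Core_degg (d : ℕ) (hd : 1 ≤ d) : (X - X ^ d : k[X]).natDegree ≤ d := by
  refine (natDegree_sub_le _ _).trans (max_le ?_ (natDegree_X_pow_le d))
  exact natDegree_X_le.trans hd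

theorem Core_q (h2 : (2 : k) ≠ 0) (d : ℕ) (hd : 1 ≤ d) (a : k[X]) (ha : a.natDegree ≤ 1)
    (ha1 : a.coeff 1 = 1) (n : ℕ) :
    (X ^ n * (2 * X + (a - a ^ d)) : k[X]).natDegree ≤ n + d ∧
      (X ^ n * (2 * X + (a - a ^ d)) : k[X]).coeff (n + d) ≠ 0 := by
  have had : (a ^ d).natDegree ≤ d := by
    calc _ ≤ d * a.natDegree := natDegree_pow_le
      _ ≤ d * 1 := Nat.mul_le_mul_left d ha
      _ = d := mul_one d
  have h2X : (2 * X : k[X]).natDegree ≤ 1 := by
    have : (2 * X : k[X]) = C 2 * X := by rw [map_ofNat]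
    rw [this]
    exact (natDegree_C_mul_le 2 X).trans natDegree_X_le
  constructor
  · refine natDegree_mul_le.trans (Nat.add_le_add (Core_degX n) ?_)
    refine natDegree_add_le_of_degree_le (h2X.trans hd) ?_
    exact natDegree_sub_le_of_le (ha.trans hd) had |>.trans (by simp)
  · rw [coeff_X_pow_mul', if_pos (by omega), Nat.add_sub_cancel_left]
    have hlead : (a ^ d).coeff d = 1 := by
      have h := coeff_pow_of_natDegree_le ha (m := d) (n := 1)
      rw [mul_one, ha1, one_pow] at h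
      exact h
    rcases Nat.lt_or_ge d 2 with h | h
    · have hd1 : d = 1 := by omega
      subst hd1
      rw [pow_one, sub_self, add_zero]
      have : (2 * X : k[X]) = C 2 * X := by rw [map_ofNat]
      rw [this, coeff_C_mul, coeff_X_one, mul_one]
      exact h2
    · rw [coeff_add, coeff_sub, hlead, coeff_eq_zero_of_natDegree_lt (lt_of_le_of_lt h2X h),
        coeff_eq_zero_of_natDegree_lt (lt_of_le_of_lt ha h)]
      simp

theorem Core_op1 (b : Module.End k V) (n d : ℕ) :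
    aeval b (X ^ n * (2 * X + ((X - 1) - (X - 1) ^ d)) : k[X]) =
      b * b ^ n + b * b ^ n + aeval (b - 1) ((X + 1) ^ n * (X - X ^ d) : k[X]) := by
  simp only [map_mul, map_add, map_sub, map_pow, aeval_X, map_ofNat, map_one, sub_add_cancel]
  rw [mul_add, ← pow_succ', two_mul, mul_add, ← pow_succ]

theorem Core_op2 (b : Module.End k V) (n d : ℕ) :
    aeval b (X ^ n * (2 * X + ((X + 1) - (X + 1) ^ d)) : k[X]) =
      b * b ^ n + b * b ^ n + aeval (b + 1) ((X - 1) ^ n * (X - X ^ d) : k[X]) := by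
  simp only [map_mul, map_add, map_sub, map_pow, aeval_X, map_ofNat, map_one, add_sub_cancel_right]
  rw [mul_add, ← pow_succ', two_mul, mul_add, ← pow_succ]

theorem core (h2 : (2 : k) ≠ 0) (b x : Module.End k V) (hc : Commute (opC b x) (opZ b x))
    (d : ℕ) (hd : 1 ≤ d) (Y : ℕ → V) (σ σ1 σ2 : V) (hR : StRel b x d Y σ σ1 σ2)
    (H1 : ∀ n, opC b x (sZ b Y n) = sZ b Y (n + d))
    (H2 : ∀ n, opZ b x (opP b x (sM b Y n)) = 0) (H2' : ∀ n, opZ b x (opM b x (sP b Y n)) = 0)
    (H3 : ∀ n, opZ b x (sP b Y n) = 0) (H3' : ∀ n, opZ b x (sM b Y n) = 0) :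
    StAll b x d Y σ σ1 σ2 := by
  have hcz : ∀ v, opZ b x (opC b x v) = opC b x (opZ b x v) := by
    intro v
    rw [← Module.End.mul_apply, ← hc.eq, Module.End.mul_apply]
  have half : ∀ v w : V, v + v = w + w → v = w := by
    intro v w h
    rw [← two_smul k, ← two_smul k] at h
    exact smul_right_injective V h2 h
  have key : ∀ N, opZ b x ((b ^ N) σ) = sZ b Y N ∧ opZ b x ((b ^ N) σ1) = 0 ∧
      opZ b x ((b ^ N) σ2) = 0 := by
    intro N
    induction N using Nat.strong_induction_on with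
    | _ N ih =>
      rcases lt_or_ge N d with h | h
      · exact ⟨hR.a10 N h, hR.a11 N h, hR.a12 N h⟩
      obtain ⟨n, rfl⟩ := Nat.exists_eq_add_of_le' h
      obtain ⟨z0, z1, z2⟩ := ih n (by omega)
      have Z0 : ∀ j < n, opZ b x ((b ^ j) σ) = sZ b Y j := fun j hj => (ih j (by omega)).1
      have Z1 : ∀ j < n, opZ b x ((b ^ j) σ1) = 0 := fun j hj => (ih j (by omega)).2.1
      have Z2 : ∀ j < n, opZ b x ((b ^ j) σ2) = 0 := fun j hj => (ih j (by omega)).2.2
      obtain ⟨p0, m0, -⟩ := Core_a hR n Z0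
      obtain ⟨p1, m1, -⟩ := Core_b hR n Z1
      obtain ⟨p2, m2, -⟩ := Core_c hR n Z2
      refine ⟨?_, ?_, ?_⟩
      · have e1 : opP b x (((b + 1) ^ n) σ2) = (b ^ n) (b σ - (b ^ d) σ) := by
          have := Core_Pσ2 hR n Z2 ((X + 1) ^ n) (Core_deg1 n)
          simpa using this
        have e2 : opM b x (((b - 1) ^ n) σ1) = (b ^ n) (b σ - (b ^ d) σ) := by
          have := Core_Mσ1 hR n Z1 ((X - 1) ^ n) (Core_deg2 n)
          simpa using this
        have e3 : (b ^ n) (b σ - (b ^ d) σ) = b ((b ^ n) σ) - (b ^ (n + d)) σ := by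
          rw [map_sub, pow_add, Module.End.mul_apply]
          congr 1
          rw [← Module.End.mul_apply, ← Module.End.mul_apply, ← pow_succ, ← pow_succ']
        have e4 := Core_C b x ((b ^ n) σ)
        rw [p0, m0, map_add, map_add, map_neg, e1, e2, e3] at e4
        have e5 := congrArg (fun v => opZ b x v) e4
        simp only [map_add, map_sub, map_neg, hcz, z0, H1, H2, H2'] at e5
        apply half
        rw [e5]
        abel
      · have e1 : ((b + 1) ^ n) (b σ - (b ^ d) σ) =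
            aeval b ((X + 1) ^ n * (X - X ^ d) : k[X]) σ := by
          rw [Core_gam, map_mul, Module.End.mul_apply]
          simp
        have hdeg : ((X + 1) ^ n * (X - X ^ d) : k[X]).natDegree ≤ n + d :=
          natDegree_mul_le.trans (Nat.add_le_add (Core_deg1 n) (Core_degg d hd))
        have e2 := Core_Pσ hR (n + d) (fun j hj => (ih j hj).1) _ hdeg
        have e4 := Core_C b x ((b ^ n) σ1)
        rw [p1, m1, e1, e2, map_zero, sub_zero] at e4
        have e5 := congrArg (fun v => opZ b x v) e4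
        simp only [map_add, hcz, z1, map_zero, add_zero, Core_sq_zero _ _ H3] at e5
        obtain ⟨q1, q2⟩ := Core_q h2 d hd (X - 1 : k[X]) (natDegree_X_sub_C_le 1)
          (by simp [coeff_one]) n
        have e6 := Core_lead ((opZ b x) ∘ₗ Core_ev b σ1) (n + d)
          (fun j hj => by
            rw [LinearMap.comp_apply, Core_ev_X]
            exact (ih j hj).2.1) _ q1 q2 ?_
        · rw [LinearMap.comp_apply, Core_ev_X] at e6
          exact e6
        · rw [LinearMap.comp_apply, Core_ev_apply]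
          refine Eq.trans ?_ e5.symm
          rw [Core_op1]
          simp only [LinearMap.add_apply, map_add, Module.End.mul_apply]
      · have e1 : ((b - 1) ^ n) (b σ - (b ^ d) σ) =
            aeval b ((X - 1) ^ n * (X - X ^ d) : k[X]) σ := by
          rw [Core_gam, map_mul, Module.End.mul_apply]
          simp
        have hdeg : ((X - 1) ^ n * (X - X ^ d) : k[X]).natDegree ≤ n + d :=
          natDegree_mul_le.trans (Nat.add_le_add (Core_deg2 n) (Core_degg d hd))
        have e2 := Core_Mσ hR (n + d) (fun j hj => (ih j hj).1) _ hdeg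
        have e4 := Core_C b x ((b ^ n) σ2)
        rw [p2, m2, e1, e2, map_zero, zero_sub] at e4
        have e5 := congrArg (fun v => opZ b x v) e4
        simp only [map_add, map_neg, hcz, z2, map_zero, add_zero, Core_sq_zero _ _ H3'] at e5
        obtain ⟨q1, q2⟩ := Core_q h2 d hd (X + 1 : k[X])
          (natDegree_add_le_of_degree_le natDegree_X_le (by simp)) (by simp [coeff_one]) n
        have e6 := Core_lead ((opZ b x) ∘ₗ Core_ev b σ2) (n + d)
          (fun j hj => by
            rw [LinearMap.comp_apply, Core_ev_X]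
            exact (ih j hj).2.2) _ q1 q2 ?_
        · rw [LinearMap.comp_apply, Core_ev_X] at e6
          exact e6
        · rw [LinearMap.comp_apply, Core_ev_apply]
          refine Eq.trans ?_ e5.symm
          rw [Core_op2]
          simp only [LinearMap.add_apply, map_add, Module.End.mul_apply, neg_neg]
  exact
    { p0 := fun n => (Core_a hR n fun j _ => (key j).1).1
      m0 := fun n => (Core_a hR n fun j _ => (key j).1).2.1
      v0 := fun n => (Core_a hR n fun j _ => (key j).1).2.2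
      z0 := fun n => (key n).1
      p1 := fun n => (Core_b hR n fun j _ => (key j).2.1).1
      m1 := fun n => (Core_b hR n fun j _ => (key j).2.1).2.1
      v1 := fun n => (Core_b hR n fun j _ => (key j).2.1).2.2
      z1 := fun n => (key n).2.1
      p2 := fun n => (Core_c hR n fun j _ => (key j).2.2).1
      m2 := fun n => (Core_c hR n fun j _ => (key j).2.2).2.1
      v2 := fun n => (Core_c hR n fun j _ => (key j).2.2).2.2
      z2 := fun n => (key n).2.2 }

end OneRelZ
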