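import Pool.Agent.Lib.MP_85de51_al.Defs
set_option autoImplicit false

/-!
# Subalgebra membership in one-relator Lie algebras, characteristic different from 2: definitions
-/

namespace OneRelZ

open MP_85de51_al

/-- The element `[b + [[b, x], [b, [b, x]]], [b, [b, [b, x]]] - [b, x]]`. -/
def relB {L : Type*} [LieRing L] (b x : L) : L :=
  ⁅b + ⁅⁅b, x⁆, ⁅b, ⁅b, x⁆⁆⁆, ⁅b, ⁅b, ⁅b, x⁆⁆⁆ - ⁅b, x⁆⁆

/-- The same with `b = [s, u]`, `x = u`. -/
def relS {L : Type*} [LieRing L] (s u : L) : L := relB ⁅s, u⁆ u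

/-- The relator in the free Lie algebra with generators `s, u, z` (the generator `z` does not
occur in it). -/
noncomputable def relZ (k : Type) [Field k] : FreeLieAlgebra k (Fin 3) :=
  relS (lmon k gs) (lmon k gu)

/-! ## The operators -/

section ops

variable {A : Type*} [Ring A]

/-- `[b, x]` -/
def cx1 (b x : A) : A := b * x - x * b

/-- `[b, [b, x]]` -/
def cx2 (b x : A) : A := b * cx1 b x - cx1 b x * b

/-- `[b, [b, [b, x]]]` -/
def cx3 (b x : A) : A := b * cx2 b x - cx2 b x * b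

/-- the operator `p` -/
def opP (b x : A) : A := cx2 b x + cx1 b x

/-- the operator `m` -/
def opM (b x : A) : A := cx2 b x - cx1 b x

/-- the operator `v` -/
def opV (b x : A) : A := x - cx2 b x

/-- the operator `z` -/
def opZ (b x : A) : A := cx3 b x - cx1 b x

/-- the operator `c` -/
def opC (b x : A) : A := b + (cx1 b x * cx2 b x - cx2 b x * cx1 b x)

end ops

/-! ## Sequences of vectors -/

section seqs

variable {k V : Type*} [Field k] [AddCommGroup V] [Module k V]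

/-- the difference operator on sequences of vectors -/
def sD (b : Module.End k V) (Y : ℕ → V) (n : ℕ) : V := b (Y n) - Y (n + 1)

/-- `D² Y + D Y` -/
def sP (b : Module.End k V) (Y : ℕ → V) (n : ℕ) : V := sD b (sD b Y) n + sD b Y n

/-- `D² Y - D Y` -/
def sM (b : Module.End k V) (Y : ℕ → V) (n : ℕ) : V := sD b (sD b Y) n - sD b Y n

/-- `Y - D² Y` -/
def sV (b : Module.End k V) (Y : ℕ → V) (n : ℕ) : V := Y n - sD b (sD b Y) n

/-- `D³ Y - D Y` -/
def sZ (b : Module.End k V) (Y : ℕ → V) (n : ℕ) : V := sD b (sD b (sD b Y)) n - sD b Y n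

/-- The relations of a state: `σ` is the vector of the state, `σ1`, `σ2` are auxiliary vectors,
`d` is the degree of the state, `Y n` the image of `b^n σ`. -/
structure StRel (b x : Module.End k V) (d : ℕ) (Y : ℕ → V) (σ σ1 σ2 : V) : Prop where
  a1 : opP b x σ = σ1 + sP b Y 0
  a2 : opM b x σ = -σ2 + sM b Y 0
  a3 : opV b x σ = sV b Y 0
  a4 : opP b x σ1 = 0
  a5 : opM b x σ1 = b σ - (b ^ d) σ
  a6 : opV b x σ1 = 0
  a7 : opP b x σ2 = b σ - (b ^ d) σ
  a8 : opM b x σ2 = 0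
  a9 : opV b x σ2 = 0
  a10 : ∀ n < d, opZ b x ((b ^ n) σ) = sZ b Y n
  a11 : ∀ n < d, opZ b x ((b ^ n) σ1) = 0
  a12 : ∀ n < d, opZ b x ((b ^ n) σ2) = 0

/-- All consequences of these relations. -/
structure StAll (b x : Module.End k V) (d : ℕ) (Y : ℕ → V) (σ σ1 σ2 : V) : Prop where
  p0 : ∀ n, opP b x ((b ^ n) σ) = ((b - 1) ^ n) σ1 + sP b Y n
  m0 : ∀ n, opM b x ((b ^ n) σ) = -(((b + 1) ^ n) σ2) + sM b Y n
  v0 : ∀ n, opV b x ((b ^ n) σ) = sV b Y n
  z0 : ∀ n, opZ b x ((b ^ n) σ) = sZ b Y n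
  p1 : ∀ n, opP b x ((b ^ n) σ1) = 0
  m1 : ∀ n, opM b x ((b ^ n) σ1) = ((b + 1) ^ n) (b σ - (b ^ d) σ)
  v1 : ∀ n, opV b x ((b ^ n) σ1) = 0
  z1 : ∀ n, opZ b x ((b ^ n) σ1) = 0
  p2 : ∀ n, opP b x ((b ^ n) σ2) = ((b - 1) ^ n) (b σ - (b ^ d) σ)
  m2 : ∀ n, opM b x ((b ^ n) σ2) = 0
  v2 : ∀ n, opV b x ((b ^ n) σ2) = 0
  z2 : ∀ n, opZ b x ((b ^ n) σ2) = 0

end seqs

/-! ## Machines -/

/-- A machine: states `0, ..., m - 1`; in state `i` and with register `n = d m' + r`, `r < d = d i`, it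
stops (dies) if `dead i r = true`; otherwise the new state is `nx i r` and the new register
`al i r * m' + be i r`. -/
structure Mc where
  /-- number of states -/
  m : ℕ
  /-- degrees -/
  d : ℕ → ℕ
  /-- dying residues -/
  dead : ℕ → ℕ → Bool
  /-- multipliers -/
  al : ℕ → ℕ → ℕ
  /-- offsets -/
  be : ℕ → ℕ → ℕ
  /-- next state -/
  nx : ℕ → ℕ → ℕ
  hd : ∀ i, 1 ≤ d i
  hal : ∀ i r, 1 ≤ al i r
  hnx : ∀ i r, nx i r < m

/-- one step -/
def Mc.step (D : Mc) (c : ℕ × ℕ) : Option (ℕ × ℕ) :=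
  if D.dead c.1 (c.2 % D.d c.1) = true then none
  else some (D.nx c.1 (c.2 % D.d c.1),
    D.al c.1 (c.2 % D.d c.1) * (c.2 / D.d c.1) + D.be c.1 (c.2 % D.d c.1))

/-- `t` steps of a partial map -/
def itr {C : Type*} (f : C → Option C) (t : ℕ) (c : C) : Option C :=
  (fun o : Option C => o.bind f)^[t] (some c)

/-- the run starting at `c` dies -/
def Dies {C : Type*} (f : C → Option C) (c : C) : Prop := ∃ t, itr f t c = none

/-- `c` and all its descendants have dying perturbations -/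
def Pert (D : Mc) (c : ℕ × ℕ) : Prop :=
  ∀ t c', itr D.step t c = some c' →
    Dies D.step (c'.1, c'.2 + 1) ∧ Dies D.step (c'.1, c'.2 + D.d c'.1)

/-- code of the vector number `κ` of the state `(i, ρ)`; `ρ = 0`: the state `i` itself;
`ρ = r + 1`: the intermediate state between `i` and `nx i r`. -/
def cod (i ρ κ : ℕ) : ℕ := Nat.pair (Nat.pair i ρ) κ

section rels

variable {A : Type*} [Ring A]

/-- `D Y` for sequences in a ring -/
def rD (b : A) (Y : ℕ → A) (n : ℕ) : A := b * Y n - Y (n + 1)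

/-- the relators of a state -/
def strels (b x : A) (d : ℕ) (Y : ℕ → A) (σ σ1 σ2 : A) : List A :=
  [opP b x * σ - (σ1 + (rD b (rD b Y) 0 + rD b Y 0)),
    opM b x * σ - (-σ2 + (rD b (rD b Y) 0 - rD b Y 0)),
    opV b x * σ - (Y 0 - rD b (rD b Y) 0),
    opP b x * σ1, opM b x * σ1 - (b * σ - b ^ d * σ), opV b x * σ1,
    opP b x * σ2 - (b * σ - b ^ d * σ), opM b x * σ2, opV b x * σ2] ++
  (List.range d).map (fun n => opZ b x * (b ^ n * σ) -
    (rD b (rD b (rD b Y)) n - rD b Y n)) ++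
  (List.range d).map (fun n => opZ b x * (b ^ n * σ1)) ++
  (List.range d).map (fun n => opZ b x * (b ^ n * σ2))

/-- the generator with a given code -/
def gen (s b : A) (i ρ κ : ℕ) : A := s * b ^ cod i ρ κ

/-- the images of `b^n g_i` under the machine -/
def Yg (D : Mc) (s b : A) (i n : ℕ) : A :=
  if D.dead i (n % D.d i) = true then 0
  else b ^ (D.al i (n % D.d i) * (n / D.d i)) * gen s b i (n % D.d i + 1) 0

/-- the images of `b^n h_{i,r}` under the machine -/
def Yh (D : Mc) (s b : A) (i r n : ℕ) : A := b ^ (n + D.be i r) * gen s b (D.nx i r) 0 0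

/-- The list of relators of a machine, as polynomials in `s` and `b`, `x`. -/
def rels (D : Mc) (s b x : A) : List A :=
  (List.range D.m).flatMap (fun i =>
    strels b x (D.d i) (Yg D s b i) (gen s b i 0 0) (gen s b i 0 1) (gen s b i 0 2) ++
    (List.range (D.d i)).flatMap (fun r =>
      strels b x (D.al i r) (Yh D s b i r) (gen s b i (r + 1) 0) (gen s b i (r + 1) 1)
        (gen s b i (r + 1) 2)))

end rels

section vecs

variable {k V : Type*} [Field k] [AddCommGroup V] [Module k V]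

/-- the images of `b^n g_i`, vectors -/
def Vg (D : Mc) (b : Module.End k V) (w : ℕ → ℕ → ℕ → V) (i n : ℕ) : V :=
  if D.dead i (n % D.d i) = true then 0
  else (b ^ (D.al i (n % D.d i) * (n / D.d i))) (w i (n % D.d i + 1) 0)

/-- the images of `b^n h_{i,r}`, vectors -/
def Vh (D : Mc) (b : Module.End k V) (w : ℕ → ℕ → ℕ → V) (i r n : ℕ) : V :=
  (b ^ (n + D.be i r)) (w (D.nx i r) 0 0)

/-- The relations of the module of the machine, for operators `b`, `x` and vectors `w i ρ κ`. -/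
structure Rels (D : Mc) (b x : Module.End k V) (w : ℕ → ℕ → ℕ → V) : Prop where
  II : ∀ i < D.m, StRel b x (D.d i) (Vg D b w i) (w i 0 0) (w i 0 1) (w i 0 2)
  I : ∀ i < D.m, ∀ r < D.d i,
    StRel b x (D.al i r) (Vh D b w i r) (w i (r + 1) 0) (w i (r + 1) 1) (w i (r + 1) 2)

end vecs

end OneRelZ
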