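import Pool.Agent.Lib.MP_85de51_alZ.Defs
set_option autoImplicit false

/-!
# JOB Dstep: the machine with intermediate states

One step of `D` corresponds to two steps of the machine with intermediate states:
`((i, 0), n) → ((i, r + 1), al m) → ((nx i r, 0), al m + be)` where `r = n % d i`, `m = n / d i`.
* `itr_succ`: `itr f (t+1) c = (f c).elim none (itr f t)` (`Function.iterate_succ_apply`; the constant
`none` is fixed by `fun o => o.bind f`), `itr_succ'`: `itr f (t+1) c = (itr f t c).bind f`.
* `dies_step`: `Dies f c ↔ f c = none ∨ ∃ c', f c = some c' ∧ Dies f c'`.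
* `dies_g`: by induction on `t` for `itr D.step t (i, n) = none`, using `dies_step` twice.
* `reach`: by strong induction on `t` (or a simultaneous induction for even and odd times):
every `c` with `itr (dstep D) t ((i₀, 0), n₀) = some c` has the form `((i, 0), n)` or
`((i, r + 1), al i r * m)` with `(i, n)` reached by `D`, `r = n % d i`, `m = n / d i`, `dead i r = false`.
* `pert`: for `c = ((i, 0), n)` use `hp` for `(i, n)` and `dies_g`. For `c = ((i, r+1), al m)` with
`(i, n)` reached: `(nx, n') = D.step (i, n)`, `n' = al m + be`, is reached. `inc c = ((i, r+1), al m + 1)` steps to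
`((nx, 0), al m + 1 + be) = ((nx, 0), n' + 1)`, which dies by `hp`. `add c = ((i, r+1), al m + al)` steps
to `((nx, 0), al (m+1) + be)`, and `(nx, al (m+1) + be) = D.step (i, n + d i)` (`(n + d) % d = n % d`,
`(n + d) / d = m + 1`); `(i, n + d i)` dies by `hp` hence so does its successor.
* `orbit`: `orb' (2 t) = ((i_t, 0), n_t)`, `orb' (2 t + 1) = ((i_t, r_t + 1), al m_t)`, where
`orb t = (i_t, n_t)`. Injective: parity of the time is determined by the second component of the state
being `0` or not; for odd times apply `dstep` to both sides to get `orb (t+1) = orb (t'+1)`.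
-/

namespace OneRelZ

/-- one step of the machine with intermediate states -/
def dstep (D : Mc) (c : (ℕ × ℕ) × ℕ) : Option ((ℕ × ℕ) × ℕ) :=
  match c with
  | ((i, 0), n) => if D.dead i (n % D.d i) = true then none
      else some ((i, n % D.d i + 1), D.al i (n % D.d i) * (n / D.d i))
  | ((i, r + 1), n) => some ((D.nx i r, 0), n + D.be i r)

/-- degree of the states -/
def deg (D : Mc) (σ : ℕ × ℕ) : ℕ :=
  match σ with
  | (i, 0) => D.d i
  | (i, r + 1) => D.al i r

theorem deg_pos (D : Mc) (σ : ℕ × ℕ) : 1 ≤ deg D σ := by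
  obtain ⟨i, r⟩ := σ
  cases r with
  | zero => exact D.hd i
  | succ r => exact D.hal i r

section aux

variable {C : Type*}

theorem Dstep_itr_zero (f : C → Option C) (c : C) : itr f 0 c = some c := rfl

theorem Dstep_itr_succ' (f : C → Option C) (t : ℕ) (c : C) :
    itr f (t + 1) c = (itr f t c).bind f := by
  unfold itr
  rw [Function.iterate_succ_apply']

theorem Dstep_itr_none (f : C → Option C) (t : ℕ) :
    (fun o : Option C => o.bind f)^[t] none = none := by
  induction t with
  | zero => rfl
  | succ t ih =>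
    rw [Function.iterate_succ_apply']
    rw [ih]
    rfl

theorem Dstep_itr_succ_none (f : C → Option C) (t : ℕ) (c : C) (h : f c = none) :
    itr f (t + 1) c = none := by
  unfold itr
  rw [Function.iterate_succ_apply]
  have : (some c).bind f = none := by simpa using h
  rw [this]
  exact Dstep_itr_none f t

theorem Dstep_itr_succ_some (f : C → Option C) (t : ℕ) (c c' : C) (h : f c = some c') :
    itr f (t + 1) c = itr f t c' := by
  unfold itr
  rw [Function.iterate_succ_apply]
  have : (some c).bind f = some c' := by simpa using h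
  rw [this]

theorem Dstep_dies_none (f : C → Option C) (c : C) (h : f c = none) : Dies f c :=
  ⟨1, Dstep_itr_succ_none f 0 c h⟩

theorem Dstep_dies_some (f : C → Option C) (c c' : C) (h : f c = some c') :
    Dies f c ↔ Dies f c' := by
  constructor
  · rintro ⟨t, ht⟩
    cases t with
    | zero => exact absurd ht (by simp [Dstep_itr_zero])
    | succ t => exact ⟨t, by rw [← Dstep_itr_succ_some f t c c' h]; exact ht⟩
  · rintro ⟨t, ht⟩
    exact ⟨t + 1, by rw [Dstep_itr_succ_some f t c c' h]; exact ht⟩

end aux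

theorem Dstep_step_none (D : Mc) (i n : ℕ) (h : D.dead i (n % D.d i) = true) :
    D.step (i, n) = none := by
  simp [Mc.step, h]

theorem Dstep_step_some (D : Mc) (i n : ℕ) (h : ¬ D.dead i (n % D.d i) = true) :
    D.step (i, n) = some (D.nx i (n % D.d i),
      D.al i (n % D.d i) * (n / D.d i) + D.be i (n % D.d i)) := by
  simp [Mc.step, h]

theorem Dstep_d_none (D : Mc) (i n : ℕ) (h : D.dead i (n % D.d i) = true) :
    dstep D ((i, 0), n) = none := by
  simp [dstep, h]

theorem Dstep_d_some (D : Mc) (i n : ℕ) (h : ¬ D.dead i (n % D.d i) = true) :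
    dstep D ((i, 0), n) = some ((i, n % D.d i + 1), D.al i (n % D.d i) * (n / D.d i)) := by
  simp [dstep, h]

theorem Dstep_d_succ (D : Mc) (i r n : ℕ) :
    dstep D ((i, r + 1), n) = some ((D.nx i r, 0), n + D.be i r) := rfl

theorem Dstep_dies_g (D : Mc) (t : ℕ) : ∀ i n : ℕ, itr D.step t (i, n) = none →
    Dies (dstep D) ((i, 0), n) := by
  induction t with
  | zero => intro i n h; exact absurd h (by simp [Dstep_itr_zero])
  | succ t ih =>
    intro i n h
    by_cases hd : D.dead i (n % D.d i) = true
    · exact Dstep_dies_none _ _ (Dstep_d_none D i n hd)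
    · rw [Dstep_itr_succ_some _ _ _ _ (Dstep_step_some D i n hd)] at h
      have h2 := ih _ _ h
      rw [Dstep_dies_some _ _ _ (Dstep_d_some D i n hd), Dstep_dies_some _ _ _ (Dstep_d_succ D _ _ _)]
      exact h2

theorem Dstep_dies (D : Mc) (i n : ℕ) (h : Dies D.step (i, n)) : Dies (dstep D) ((i, 0), n) := by
  obtain ⟨t, ht⟩ := h
  exact Dstep_dies_g D t i n ht

/-- the form of the configurations reached -/
theorem Dstep_reach (D : Mc) (i₀ n₀ : ℕ) (t : ℕ) : ∀ c, itr (dstep D) t ((i₀, 0), n₀) = some c →
    ∃ s i n, itr D.step s (i₀, n₀) = some (i, n) ∧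
      (c = ((i, 0), n) ∨ (¬ D.dead i (n % D.d i) = true ∧
        c = ((i, n % D.d i + 1), D.al i (n % D.d i) * (n / D.d i)))) := by
  induction t with
  | zero =>
    intro c hc
    rw [Dstep_itr_zero] at hc
    refine ⟨0, i₀, n₀, rfl, Or.inl ?_⟩
    exact (Option.some.inj hc).symm
  | succ t ih =>
    intro c hc
    rw [Dstep_itr_succ'] at hc
    obtain ⟨c1, hc1, hc2⟩ := Option.bind_eq_some_iff.mp hc
    obtain ⟨s, i, n, hs, h⟩ := ih c1 hc1
    rcases h with h | ⟨hd, h⟩
    · subst h
      by_cases hd : D.dead i (n % D.d i) = true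
      · rw [Dstep_d_none D i n hd] at hc2
        exact absurd hc2 (by simp)
      · rw [Dstep_d_some D i n hd] at hc2
        exact ⟨s, i, n, hs, Or.inr ⟨hd, (Option.some.inj hc2).symm⟩⟩
    · subst h
      rw [Dstep_d_succ] at hc2
      refine ⟨s + 1, D.nx i (n % D.d i),
        D.al i (n % D.d i) * (n / D.d i) + D.be i (n % D.d i), ?_, Or.inl ?_⟩
      · rw [Dstep_itr_succ', hs]
        exact Dstep_step_some D i n hd
      · exact (Option.some.inj hc2).symm

/-- the run with intermediate states dies, and perturbations of all its configurations die -/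
theorem dstep_halt (D : Mc) (i₀ n₀ : ℕ) (hd : Dies D.step (i₀, n₀)) (hp : Pert D (i₀, n₀)) :
    Dies (dstep D) ((i₀, 0), n₀) ∧
    ∀ t c, itr (dstep D) t ((i₀, 0), n₀) = some c →
      Dies (dstep D) (c.1, c.2 + 1) ∧ Dies (dstep D) (c.1, c.2 + deg D c.1) := by
  refine ⟨Dstep_dies D i₀ n₀ hd, ?_⟩
  intro t c hc
  obtain ⟨s, i, n, hs, h⟩ := Dstep_reach D i₀ n₀ t c hc
  rcases h with h | ⟨hnd, h⟩
  · subst h
    obtain ⟨h1, h2⟩ := hp s (i, n) hs
    exact ⟨Dstep_dies D i (n + 1) h1, Dstep_dies D i (n + D.d i) h2⟩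
  · subst h
    have hs' : itr D.step (s + 1) (i₀, n₀) = some (D.nx i (n % D.d i),
        D.al i (n % D.d i) * (n / D.d i) + D.be i (n % D.d i)) := by
      rw [Dstep_itr_succ', hs]
      exact Dstep_step_some D i n hnd
    obtain ⟨h1, -⟩ := hp _ _ hs'
    obtain ⟨-, h2⟩ := hp _ _ hs
    constructor
    · show Dies (dstep D) ((i, n % D.d i + 1), D.al i (n % D.d i) * (n / D.d i) + 1)
      rw [Dstep_dies_some _ _ _ (Dstep_d_succ D _ _ _)]
      have h3 := Dstep_dies D _ _ h1
      have e : D.al i (n % D.d i) * (n / D.d i) + 1 + D.be i (n % D.d i) =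
        D.al i (n % D.d i) * (n / D.d i) + D.be i (n % D.d i) + 1 := by omega
      rw [e]
      exact h3
    · show Dies (dstep D) ((i, n % D.d i + 1),
        D.al i (n % D.d i) * (n / D.d i) + D.al i (n % D.d i))
      rw [Dstep_dies_some _ _ _ (Dstep_d_succ D _ _ _)]
      have h3 : Dies D.step (i, n + D.d i) := h2
      have hmod : (n + D.d i) % D.d i = n % D.d i := Nat.add_mod_right n (D.d i)
      have hdiv : (n + D.d i) / D.d i = n / D.d i + 1 :=
        Nat.add_div_right n (Nat.lt_of_lt_of_le Nat.zero_lt_one (D.hd i))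
      have hnd' : ¬ D.dead i ((n + D.d i) % D.d i) = true := by rw [hmod]; exact hnd
      rw [Dstep_dies_some _ _ _ (Dstep_step_some D i (n + D.d i) hnd')] at h3
      rw [hmod, hdiv] at h3
      have h4 := Dstep_dies D _ _ h3
      have e : D.al i (n % D.d i) * (n / D.d i) + D.al i (n % D.d i) + D.be i (n % D.d i) =
        D.al i (n % D.d i) * (n / D.d i + 1) + D.be i (n % D.d i) := by ring
      rw [e]
      exact h4

/-- infinite injective orbits -/
theorem dstep_orbit (D : Mc) (orb : ℕ → ℕ × ℕ) (h : ∀ t, D.step (orb t) = some (orb (t + 1)))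
    (hinj : Function.Injective orb) :
    ∃ orb' : ℕ → (ℕ × ℕ) × ℕ, orb' 0 = (((orb 0).1, 0), (orb 0).2) ∧
      (∀ t, dstep D (orb' t) = some (orb' (t + 1))) ∧ Function.Injective orb' := by
  have hnd : ∀ t, ¬ D.dead (orb t).1 ((orb t).2 % D.d (orb t).1) = true := by
    intro t hh
    have h1 := h t
    have h2 : D.step (orb t) = none := Dstep_step_none D (orb t).1 (orb t).2 hh
    rw [h2] at h1
    exact absurd h1 (by simp)
  let A : ℕ → (ℕ × ℕ) × ℕ := fun t => (((orb t).1, 0), (orb t).2)
  let B : ℕ → (ℕ × ℕ) × ℕ := fun t => (((orb t).1, (orb t).2 % D.d (orb t).1 + 1),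
    D.al (orb t).1 ((orb t).2 % D.d (orb t).1) * ((orb t).2 / D.d (orb t).1))
  have hA : ∀ t, dstep D (A t) = some (B t) := fun t =>
    Dstep_d_some D (orb t).1 (orb t).2 (hnd t)
  have hB : ∀ t, dstep D (B t) = some (A (t + 1)) := by
    intro t
    have h1 : D.step (orb t) = _ := Dstep_step_some D (orb t).1 (orb t).2 (hnd t)
    rw [h t] at h1
    have h2 := Option.some.inj h1
    show some _ = some _
    congr 1
    show _ = (((orb (t + 1)).1, 0), (orb (t + 1)).2)
    rw [h2]
  let orb' : ℕ → (ℕ × ℕ) × ℕ := fun t => if t % 2 = 0 then A (t / 2) else B (t / 2)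
  have e0 : ∀ t, orb' (2 * t) = A t := by
    intro t
    have h1 : (2 * t) % 2 = 0 := by omega
    have h2 : (2 * t) / 2 = t := by omega
    show (if (2 * t) % 2 = 0 then A ((2 * t) / 2) else B ((2 * t) / 2)) = A t
    rw [if_pos h1, h2]
  have e1 : ∀ t, orb' (2 * t + 1) = B t := by
    intro t
    have h1 : ¬ (2 * t + 1) % 2 = 0 := by omega
    have h2 : (2 * t + 1) / 2 = t := by omega
    show (if (2 * t + 1) % 2 = 0 then A ((2 * t + 1) / 2) else B ((2 * t + 1) / 2)) = B t
    rw [if_neg h1, h2]
  refine ⟨orb', e0 0, ?_, ?_⟩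
  · intro t
    rcases Nat.even_or_odd' t with ⟨s, hs | hs⟩
    · subst hs
      rw [e0, e1]
      exact hA s
    · subst hs
      have : 2 * s + 1 + 1 = 2 * (s + 1) := by ring
      rw [this, e0, e1]
      exact hB s
  · intro t t' htt
    rcases Nat.even_or_odd' t with ⟨s, hs | hs⟩ <;> rcases Nat.even_or_odd' t' with ⟨s', hs' | hs'⟩
    · subst hs; subst hs'
      rw [e0, e0] at htt
      have h1 : (orb s).1 = (orb s').1 := congrArg (fun c => c.1.1) htt
      have h2 : (orb s).2 = (orb s').2 := congrArg (fun c => c.2) htt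
      have := hinj (Prod.ext h1 h2)
      rw [this]
    · subst hs; subst hs'
      rw [e0, e1] at htt
      have h1 : 0 = (orb s').2 % D.d (orb s').1 + 1 := congrArg (fun c => c.1.2) htt
      exact absurd h1 (by omega)
    · subst hs; subst hs'
      rw [e0, e1] at htt
      have h1 : (orb s).2 % D.d (orb s).1 + 1 = 0 := congrArg (fun c => c.1.2) htt
      exact absurd h1 (by omega)
    · subst hs; subst hs'
      rw [e1, e1] at htt
      have h3 : A (s + 1) = A (s' + 1) := by
        have h4 := congrArg (dstep D) htt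
        rw [hB, hB] at h4
        exact Option.some.inj h4
      have h1 : (orb (s + 1)).1 = (orb (s' + 1)).1 := congrArg (fun c => c.1.1) h3
      have h2 : (orb (s + 1)).2 = (orb (s' + 1)).2 := congrArg (fun c => c.2) h3
      have := hinj (Prod.ext h1 h2)
      have : s = s' := by omega
      rw [this]

end OneRelZ
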