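import Pool.Agent.Lib.MP_85de51_alZ.Defs
set_option autoImplicit false

/-!
# JOB Dyn: the HNN test detects halting

* `itr f (t+1) c = (itr f t c).bind f` (`Function.iterate_succ_apply'`) and
`itr f (t+1) c = (f c).elim none (itr f t)` (`Function.iterate_succ_apply`, `none` is absorbing).
* `dyn_nil`: if `itr f t c = none` then `x^(t+1)` kills `vec c`: induction on `t`
(`t = 0` is impossible; `x (vec c) = 0 + th c` or `vec c' + th c`, `x (th c) = 0`).
Hence `x^K (vec c) = 0` for all large `K`.
* Let `v = vec c₀`, `T` the least number with `itr f T c₀ = none` (`T ≥ 1`), `c i` the configuration at time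
`i < T`. Then `x^i v = vec (c i) + th (c (i-1))` for `1 ≤ i < T`, `x^T v = th (c (T-1))`,
`x^(T+1) v = 0`.
* `s x^N v = x^N (s v) + ∑_{i<N} x^(N-1-i) (b (x^i v))` by induction on `N` (from `hb`). With
`N = T + 1`, `f₀ = s v`, `x f₀ = f₀` (`hf`): `0 = f₀ + ∑_{i<N} x^(N-1-i) (b (x^i v))`.
* each `b (x^i v)` is killed by a power of `x`: `b (vec c) = vec (inc c)` and `x (b (th c)) = (1/2) (vec
(inc c) - vec (add c))`, for `c` a configuration of the run; use `hp` and `dyn_nil`.
So `f₀` is killed by a power of `x`; but `x^K f₀ = f₀`. So `f₀ = 0`.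
(An alternative formulation of the last two steps: the set `J` of all `y` with `∃ K, x^K y = 0` is a
submodule stable under `x`; prove `s (x^N v) - f₀ ∈ J` for all `N` by induction:
`s (x y) = x (s y) + b y`, `x (s y) - f₀ = x (s y - f₀)`. And `b (x^N v) ∈ J` for all `N`.)
-/

namespace OneRelZ

variable {k V : Type*} [Field k] [AddCommGroup V] [Module k V]

theorem Dyn_none {C : Type*} (f : C → Option C) (t : ℕ) :
    (fun o : Option C => o.bind f)^[t] none = none := by
  induction t with
  | zero => rfl
  | succ t ih => rw [Function.iterate_succ_apply]; exact ih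

theorem Dyn_zero {C : Type*} (f : C → Option C) (c : C) : itr f 0 c = some c := rfl

theorem Dyn_succ' {C : Type*} (f : C → Option C) (t : ℕ) (c : C) :
    itr f (t + 1) c = (itr f t c).bind f := by
  unfold itr
  rw [Function.iterate_succ_apply']

theorem Dyn_succ_none {C : Type*} (f : C → Option C) (t : ℕ) (c : C) (h : f c = none) :
    itr f (t + 1) c = none := by
  unfold itr
  rw [Function.iterate_succ_apply]
  simp only [Option.bind_some, h]
  exact Dyn_none f t

theorem Dyn_succ_some {C : Type*} (f : C → Option C) (t : ℕ) (c c' : C) (h : f c = some c') :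
    itr f (t + 1) c = itr f t c' := by
  unfold itr
  rw [Function.iterate_succ_apply]
  simp only [Option.bind_some, h]

theorem dyn_nil {C : Type*} (f : C → Option C) (G : C → Prop)
    (hG : ∀ c c', G c → f c = some c' → G c') (x : Module.End k V) (vec th : C → V)
    (hx : ∀ c, G c → x (vec c) = (f c).elim 0 vec + th c) (hth : ∀ c, G c → x (th c) = 0)
    (c : C) (hc : G c) (hd : Dies f c) : ∃ K : ℕ, (x ^ K) (vec c) = 0 := by
  obtain ⟨t, ht⟩ := hd
  refine ⟨t + 1, ?_⟩
  induction t generalizing c with
  | zero => simp [Dyn_zero] at ht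
  | succ t ih =>
    have hxth : (x ^ (t + 1)) (th c) = 0 := by
      rw [pow_succ, Module.End.mul_apply, hth c hc, map_zero]
    rw [pow_succ, Module.End.mul_apply, hx c hc, map_add, hxth, add_zero]
    cases hfc : f c with
    | none => simp
    | some c' =>
      rw [Dyn_succ_some f t c c' hfc] at ht
      simpa using ih c' (hG c c' hc hfc) ht

/-- vectors killed by a power of `x` -/
def Dyn_J (x : Module.End k V) : Submodule k V where
  carrier := {y | ∃ K : ℕ, (x ^ K) y = 0}
  zero_mem' := ⟨0, by simp⟩
  add_mem' := by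
    rintro y z ⟨K, hK⟩ ⟨M, hM⟩
    refine ⟨M + K, ?_⟩
    have h1 : (x ^ (M + K)) y = 0 := by
      rw [pow_add, Module.End.mul_apply, hK, map_zero]
    have h2 : (x ^ (M + K)) z = 0 := by
      rw [add_comm M K, pow_add, Module.End.mul_apply, hM, map_zero]
    rw [map_add, h1, h2, add_zero]
  smul_mem' := by
    rintro c y ⟨K, hK⟩
    exact ⟨K, by rw [map_smul, hK, smul_zero]⟩

theorem Dyn_memJ (x : Module.End k V) (y : V) : y ∈ Dyn_J x ↔ ∃ K : ℕ, (x ^ K) y = 0 := Iff.rfl

theorem Dyn_xJ (x : Module.End k V) (y : V) : x y ∈ Dyn_J x ↔ y ∈ Dyn_J x := by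
  constructor
  · rintro ⟨K, hK⟩
    exact ⟨K + 1, by rw [pow_succ, Module.End.mul_apply]; exact hK⟩
  · rintro ⟨K, hK⟩
    refine ⟨K, ?_⟩
    rw [← Module.End.mul_apply, ← pow_succ, pow_succ', Module.End.mul_apply, hK, map_zero]

theorem dyn_halt {C : Type*} (f : C → Option C) (G : C → Prop)
    (hG : ∀ c c', G c → f c = some c' → G c') (s b x : Module.End k V) (hb : s * x - x * s = b)
    (vec th : C → V) (hx : ∀ c, G c → x (vec c) = (f c).elim 0 vec + th c)
    (hth : ∀ c, G c → x (th c) = 0) (inc add : C → C) (hinc : ∀ c, G c → G (inc c))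
    (hadd : ∀ c, G c → G (add c)) (hbv : ∀ c, G c → b (vec c) = vec (inc c))
    (hbt : ∀ c, G c → x (b (th c)) = (2⁻¹ : k) • (vec (inc c) - vec (add c)))
    (c₀ : C) (h0 : G c₀) (hd : Dies f c₀)
    (hp : ∀ t c, itr f t c₀ = some c → Dies f (inc c) ∧ Dies f (add c))
    (hf : x (s (vec c₀)) = s (vec c₀)) : s (vec c₀) = 0 := by
  -- `G` along the run
  have hGr : ∀ t c, itr f t c₀ = some c → G c := by
    intro t
    induction t with
    | zero =>
      intro c h
      rw [Dyn_zero, Option.some.injEq] at h
      rwa [← h]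
    | succ t ih =>
      intro c h
      rw [Dyn_succ'] at h
      cases hc : itr f t c₀ with
      | none => rw [hc] at h; simp at h
      | some c' =>
        rw [hc] at h
        exact hG c' c (ih c' hc) h
  -- `b (th c)`, `b (vec c)` in `J`
  have hbvJ : ∀ t c, itr f t c₀ = some c → b (vec c) ∈ Dyn_J x := by
    intro t c h
    have hc := hGr t c h
    rw [hbv c hc]
    exact dyn_nil f G hG x vec th hx hth _ (hinc c hc) (hp t c h).1
  have hbtJ : ∀ t c, itr f t c₀ = some c → b (th c) ∈ Dyn_J x := by
    intro t c h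
    have hc := hGr t c h
    rw [← Dyn_xJ, hbt c hc]
    refine Submodule.smul_mem _ _ (sub_mem ?_ ?_)
    · exact dyn_nil f G hG x vec th hx hth _ (hinc c hc) (hp t c h).1
    · exact dyn_nil f G hG x vec th hx hth _ (hadd c hc) (hp t c h).2
  -- the orbit of `v`
  have horb : ∀ N : ℕ, (x ^ (N + 1)) (vec c₀) = (itr f (N + 1) c₀).elim 0 vec +
      (itr f N c₀).elim 0 th := by
    intro N
    induction N with
    | zero =>
      rw [pow_one, hx c₀ h0, Dyn_succ', Dyn_zero]
      simp
    | succ N ih =>
      rw [pow_succ', Module.End.mul_apply, ih, map_add, Dyn_succ' f (N + 1)]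
      cases hc : itr f N c₀ with
      | none =>
        rw [Dyn_succ', hc]
        simp
      | some c' =>
        have h1 : x (th c') = 0 := hth c' (hGr N c' hc)
        cases hc2 : itr f (N + 1) c₀ with
        | none => simp [h1]
        | some c2 =>
          have h2 := hx c2 (hGr (N + 1) c2 hc2)
          simp [h1, h2]
  have hbJ : ∀ N : ℕ, b ((x ^ N) (vec c₀)) ∈ Dyn_J x := by
    intro N
    cases N with
    | zero => exact hbvJ 0 c₀ (Dyn_zero f c₀)
    | succ N =>
      rw [horb N, map_add]
      refine add_mem ?_ ?_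
      · cases hc : itr f (N + 1) c₀ with
        | none => simp
        | some c => simpa using hbvJ _ c hc
      · cases hc : itr f N c₀ with
        | none => simp
        | some c => simpa using hbtJ _ c hc
  have hsx : ∀ y, s (x y) = x (s y) + b y := by
    intro y
    rw [← hb]
    simp
  have hsJ : ∀ N : ℕ, s ((x ^ N) (vec c₀)) - s (vec c₀) ∈ Dyn_J x := by
    intro N
    induction N with
    | zero => simp
    | succ N ih =>
      have e : s ((x ^ (N + 1)) (vec c₀)) - s (vec c₀) =
          x (s ((x ^ N) (vec c₀)) - s (vec c₀)) + b ((x ^ N) (vec c₀)) := by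
        rw [pow_succ', Module.End.mul_apply, hsx, map_sub, hf]
        abel
      rw [e]
      exact add_mem ((Dyn_xJ x _).mpr ih) (hbJ N)
  obtain ⟨K, hK⟩ := dyn_nil f G hG x vec th hx hth c₀ h0 hd
  have h1 := hsJ K
  rw [hK, map_zero, zero_sub] at h1
  obtain ⟨M, hM⟩ := (neg_mem_iff.mp h1 : s (vec c₀) ∈ Dyn_J x)
  have h2 : ∀ M : ℕ, (x ^ M) (s (vec c₀)) = s (vec c₀) := by
    intro M
    induction M with
    | zero => simp
    | succ M ih => rw [pow_succ, Module.End.mul_apply, hf, ih]
  rw [h2] at hM
  exact hM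

end OneRelZ
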