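import Pool.Agent.Lib.MP_85de51_alZ.Defs
import Pool.Agent.Lib.MP_85de51_alP.Mach
set_option autoImplicit false

/-!
# JOB ErrMc: flow charts with error detection

`FM` is a flow chart on one register (`Pool/Agent/Lib/MP_85de51_alP/Mach.lean`): in state `s` test
whether `l s` divides the register `N`; if so the new register is `N / l s * c` with
`(s', c) = yes s`, otherwise `N * c` with `(s', c) = no s`.
Choose a bound `B` for all `l s`, `(yes s).2`, `(no s).2` (`P.S` is finite, `Set.Finite.bddAbove` or a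
sum over a `Fintype`) and primes `B < D1 < D2` (`Nat.exists_infinite_primes`). Then `D1` divides none of
`l s`, `(yes s).2`, `(no s).2`, and `D2` does not divide `l s`; `θ = D1 * D2`; `l s ∣ θ * N ↔ l s ∣ N`
(`Nat.Coprime.dvd_mul_left`, the primes `D1`, `D2` are coprime to `0 < l s < D1`).
Let `e : P.S ≃ Fin m'` (`Finite.equivFin`), `idx s = 3 * e s`. The machine `D` has `m = 3 m'` states; state
`3 e + 0` (phase 0): degree `D1`, residue `0`: next state `3 e + 1`, `al = D1`, `be = 0`; other residues dead.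
State `3 e + 1` (phase 1): degree `D2`, residue `0`: next state `3 e + 2`, `al = D2`, `be = 0`; other
residues dead. State `3 e + 2` (phase 2) for `s = F`: degree `1`, dead. For `s ≠ F`: degree `l s`,
residue `0`: next state `idx (yes s).1`, `al = (yes s).2`, `be = 0`; residue `r ≠ 0`: next state
`idx (no s).1`, `al = (no s).2 * l s`, `be = (no s).2 * r`. (For state indices `≥ 3 m'` anything, e.g.
degree `1`, dead, `al = 1`, `nx = 0`; note `m' ≥ 1` because of `F`, so `nx < m` holds.)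
One step in phase 2 with ANY register `n` is the step of the flow chart: `n ↦ n / l * c` or `n * c`
(`c * l * (n / l) + c * (n % l) = c * n`).
PERTURBATIONS. `n = θ N`. Phase 0: `D1 ∤ n + 1`, dead. `n + D1`: passes phase 0 to phase 1 with the same
register, `D2 ∤ n + D1` (`D2 ∣ n`, `D2 ∤ D1`): dead. Phase 1: `D2 ∤ n + 1`: dead. `n + D2`: passes to phase 2
with the same register; if `s = F`: dead, otherwise one more step leads to phase 0 with register
`n' = (n + D2) / l * c` or `(n + D2) * c`; `D1 ∤ n + D2` and `D1 ∤ c`, `D1` prime, so `D1 ∤ n'`: dead.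
Phase 2: `s = F`: dead. Otherwise `n + 1` resp. `n + l s` is not divisible by `D1`, so the new register in
phase 0 is not divisible by `D1`: dead. (`Dies`: `⟨t, _⟩` with `t ≤ 3`; `itr` unfolds by `rfl`/`simp [itr]`.)
-/

namespace OneRelZ

open OneRelP

theorem ErrMc_die_none {C : Type*} {f : C → Option C} {c : C} (h : f c = none) : Dies f c :=
  ⟨1, by simp [itr, h]⟩

theorem ErrMc_die_some {C : Type*} {f : C → Option C} {c c' : C} (h : f c = some c')
    (h' : Dies f c') : Dies f c := by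
  obtain ⟨t, ht⟩ := h'
  refine ⟨t + 1, ?_⟩
  unfold itr at ht ⊢
  rw [Function.iterate_succ_apply]
  simpa [h] using ht

open Classical in
/-- the machine -/
noncomputable def ErrMc_mc (P : FM) (F : P.S) (st : ℕ → P.S) (e : P.S → ℕ) (M D1 D2 : ℕ)
    (he : ∀ s, e s < M) (h1 : 1 ≤ D1) (h2 : 1 ≤ D2) (hl : ∀ s, 1 ≤ P.l s)
    (hy : ∀ s, 1 ≤ (P.yes s).2) (hn : ∀ s, 1 ≤ (P.no s).2) : Mc where
  m := 3 * M
  d i := if i % 3 = 0 then D1 else if i % 3 = 1 then D2 else P.l (st i)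
  dead i r := if i % 3 = 2 then decide (st i = F) else decide (r ≠ 0)
  al i r := if i % 3 = 0 then D1 else if i % 3 = 1 then D2 else
    if r = 0 then (P.yes (st i)).2 else (P.no (st i)).2 * P.l (st i)
  be i r := if i % 3 = 2 then (if r = 0 then 0 else (P.no (st i)).2 * r) else 0
  nx i r := if i % 3 = 0 then 3 * e (st i) + 1 else if i % 3 = 1 then 3 * e (st i) + 2 else
    if r = 0 then 3 * e (P.yes (st i)).1 else 3 * e (P.no (st i)).1
  hd i := by
    split_ifs
    · exact h1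
    · exact h2
    · exact hl _
  hal i r := by
    split_ifs
    · exact h1
    · exact h2
    · exact hy _
    · exact Nat.mul_pos (hn _) (hl _)
  hnx i r := by
    have a := he (st i)
    have b := he (P.yes (st i)).1
    have c := he (P.no (st i)).1
    split_ifs <;> omega

section
variable (P : FM) (F : P.S) (st : ℕ → P.S) (e : P.S → ℕ) (M D1 D2 : ℕ)
    (he : ∀ s, e s < M) (h1 : 1 ≤ D1) (h2 : 1 ≤ D2) (hl : ∀ s, 1 ≤ P.l s)
    (hy : ∀ s, 1 ≤ (P.yes s).2) (hn : ∀ s, 1 ≤ (P.no s).2)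
    (hst : ∀ s i, i < 3 → st (3 * e s + i) = s)

include hst

theorem ErrMc_step0 (s : P.S) (n : ℕ) (h : D1 ∣ n) :
    (ErrMc_mc P F st e M D1 D2 he h1 h2 hl hy hn).step (3 * e s, n) = some (3 * e s + 1, n) := by
  have hs : st (3 * e s) = s := by simpa using hst s 0 (by norm_num)
  have a0 : (3 * e s) % 3 = 0 := by omega
  have a1 : n % D1 = 0 := Nat.mod_eq_zero_of_dvd h
  simp [Mc.step, ErrMc_mc, a0, a1, hs, Nat.mul_div_cancel' h]

theorem ErrMc_step0' (s : P.S) (n : ℕ) (h : ¬ D1 ∣ n) :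
    (ErrMc_mc P F st e M D1 D2 he h1 h2 hl hy hn).step (3 * e s, n) = none := by
  have a0 : (3 * e s) % 3 = 0 := by omega
  have a1 : ¬ n % D1 = 0 := fun h' => h (Nat.dvd_of_mod_eq_zero h')
  simp [Mc.step, ErrMc_mc, a0, a1]

theorem ErrMc_step1 (s : P.S) (n : ℕ) (h : D2 ∣ n) :
    (ErrMc_mc P F st e M D1 D2 he h1 h2 hl hy hn).step (3 * e s + 1, n) =
      some (3 * e s + 2, n) := by
  have hs : st (3 * e s + 1) = s := hst s 1 (by norm_num)
  have a0 : (3 * e s + 1) % 3 = 1 := by omega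
  have a1 : n % D2 = 0 := Nat.mod_eq_zero_of_dvd h
  simp [Mc.step, ErrMc_mc, a0, a1, hs, Nat.mul_div_cancel' h]

theorem ErrMc_step1' (s : P.S) (n : ℕ) (h : ¬ D2 ∣ n) :
    (ErrMc_mc P F st e M D1 D2 he h1 h2 hl hy hn).step (3 * e s + 1, n) = none := by
  have a0 : (3 * e s + 1) % 3 = 1 := by omega
  have a1 : ¬ n % D2 = 0 := fun h' => h (Nat.dvd_of_mod_eq_zero h')
  simp [Mc.step, ErrMc_mc, a0, a1]

theorem ErrMc_step2 (s : P.S) (n : ℕ) (hF : s ≠ F) :
    (ErrMc_mc P F st e M D1 D2 he h1 h2 hl hy hn).step (3 * e s + 2, n) =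
      some (3 * e (P.step (s, n)).1, (P.step (s, n)).2) := by
  have hs : st (3 * e s + 2) = s := hst s 2 (by norm_num)
  have a0 : (3 * e s + 2) % 3 = 2 := by omega
  by_cases h : P.l s ∣ n
  · have a1 : n % P.l s = 0 := Nat.mod_eq_zero_of_dvd h
    simp [Mc.step, ErrMc_mc, FM.step, a0, hs, hF, h]
    simp [a1, Nat.mul_comm]
  · have a1 : ¬ n % P.l s = 0 := fun h' => h (Nat.dvd_of_mod_eq_zero h')
    have a2 : (P.no s).2 * P.l s * (n / P.l s) + (P.no s).2 * (n % P.l s) = n * (P.no s).2 := by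
      rw [Nat.mul_assoc, ← Nat.mul_add, Nat.div_add_mod, Nat.mul_comm]
    simp [Mc.step, ErrMc_mc, FM.step, a0, hs, hF, h]
    simp [a1, a2]

theorem ErrMc_step2' (n : ℕ) :
    (ErrMc_mc P F st e M D1 D2 he h1 h2 hl hy hn).step (3 * e F + 2, n) = none := by
  have hs : st (3 * e F + 2) = F := hst F 2 (by norm_num)
  have a0 : (3 * e F + 2) % 3 = 2 := by omega
  simp [Mc.step, ErrMc_mc, a0, hs]

theorem ErrMc_die2 (hp1 : D1.Prime) (by1 : ∀ s, (P.yes s).2 < D1) (bn1 : ∀ s, (P.no s).2 < D1)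
    (s : P.S) (n : ℕ) (h : ¬ D1 ∣ n) :
    Dies (ErrMc_mc P F st e M D1 D2 he h1 h2 hl hy hn).step (3 * e s + 2, n) := by
  by_cases hF : s = F
  · subst hF
    exact ErrMc_die_none (ErrMc_step2' P s st e M D1 D2 he h1 h2 hl hy hn hst n)
  refine ErrMc_die_some (ErrMc_step2 P F st e M D1 D2 he h1 h2 hl hy hn hst s n hF) ?_
  refine ErrMc_die_none (ErrMc_step0' P F st e M D1 D2 he h1 h2 hl hy hn hst _ _ ?_)
  unfold FM.step
  by_cases hd : P.l s ∣ n
  · simp only [hd, if_true]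
    intro hh
    rcases (hp1.dvd_mul).1 hh with h' | h'
    · exact h (h'.trans (Nat.div_dvd_of_dvd hd))
    · exact absurd (Nat.le_of_dvd (hy s) h') (not_le.2 (by1 s))
  · simp only [hd, if_false]
    intro hh
    rcases (hp1.dvd_mul).1 hh with h' | h'
    · exact h h'
    · exact absurd (Nat.le_of_dvd (hn s) h') (not_le.2 (bn1 s))

end

theorem ErrMc_fm_mul (P : FM) (s : P.S) (θ N : ℕ) (h : Nat.Coprime (P.l s) θ) :
    P.step (s, θ * N) = ((P.step (s, N)).1, θ * (P.step (s, N)).2) := by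
  unfold FM.step
  by_cases hd : P.l s ∣ N
  · have hd' : P.l s ∣ θ * N := dvd_mul_of_dvd_right hd θ
    simp only [hd, hd', if_true, Prod.mk.injEq, true_and]
    rw [Nat.mul_div_assoc _ hd, Nat.mul_assoc]
  · have hd' : ¬ P.l s ∣ θ * N := fun h' => hd (h.dvd_of_dvd_mul_left h')
    simp only [hd, hd', if_false, Prod.mk.injEq, true_and]
    rw [Nat.mul_assoc]

theorem mc_of_fm (P : FM) (hfin : Finite P.S) (hl : ∀ s, 1 ≤ P.l s)
    (hy : ∀ s, 1 ≤ (P.yes s).2) (hn : ∀ s, 1 ≤ (P.no s).2) (F : P.S) :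
    ∃ (D : Mc) (θ : ℕ) (idx : P.S → ℕ), 1 ≤ θ ∧ Function.Injective idx ∧
      (∀ s, idx s % 3 = 0 ∧ idx s < D.m) ∧
      (∀ s N, D.step (idx s, θ * N) = some (idx s + 1, θ * N)) ∧
      (∀ s N, D.step (idx s + 1, θ * N) = some (idx s + 2, θ * N)) ∧
      (∀ s N, s ≠ F → D.step (idx s + 2, θ * N) =
        some (idx (P.step (s, N)).1, θ * (P.step (s, N)).2)) ∧
      (∀ n, D.step (idx F + 2, n) = none) ∧
      (∀ s N i, i < 3 → Dies D.step (idx s + i, θ * N + 1) ∧
        Dies D.step (idx s + i, θ * N + D.d (idx s + i))) := by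
  obtain ⟨M, ⟨e⟩⟩ := Finite.exists_equiv_fin P.S
  obtain ⟨B1, hB1⟩ := (Set.finite_range P.l).bddAbove
  obtain ⟨B2, hB2⟩ := (Set.finite_range fun s => (P.yes s).2).bddAbove
  obtain ⟨B3, hB3⟩ := (Set.finite_range fun s => (P.no s).2).bddAbove
  have b1 : ∀ s, P.l s ≤ B1 := fun s => hB1 ⟨s, rfl⟩
  have b2 : ∀ s, (P.yes s).2 ≤ B2 := fun s => hB2 ⟨s, rfl⟩
  have b3 : ∀ s, (P.no s).2 ≤ B3 := fun s => hB3 ⟨s, rfl⟩
  obtain ⟨D1, hD1, hp1⟩ := Nat.exists_infinite_primes (B1 + B2 + B3 + 2)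
  obtain ⟨D2, hD2, hp2⟩ := Nat.exists_infinite_primes (D1 + 1)
  have c1 : ∀ s, P.l s < D1 := fun s => by have := b1 s; omega
  have c2 : ∀ s, (P.yes s).2 < D1 := fun s => by have := b2 s; omega
  have c3 : ∀ s, (P.no s).2 < D1 := fun s => by have := b3 s; omega
  have g1 : 1 ≤ D1 := hp1.one_lt.le
  have g2 : 1 ≤ D2 := hp2.one_lt.le
  classical
  let st : ℕ → P.S := fun i => if h : i / 3 < M then e.symm ⟨i / 3, h⟩ else F
  have he : ∀ s, ((e s : Fin M) : ℕ) < M := fun s => (e s).2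
  have hst : ∀ s i, i < 3 → st (3 * ((e s : Fin M) : ℕ) + i) = s := by
    intro s i hi
    have h3 : (3 * ((e s : Fin M) : ℕ) + i) / 3 = (e s : Fin M) := by omega
    have h4 : (3 * ((e s : Fin M) : ℕ) + i) / 3 < M := by rw [h3]; exact he s
    have h5 : (⟨(3 * ((e s : Fin M) : ℕ) + i) / 3, h4⟩ : Fin M) = e s := Fin.ext h3
    simp only [st, h4, dif_pos]
    rw [h5, e.symm_apply_apply]
  have hne : D1 ≠ D2 := by omega
  have nd12 : ¬ D1 ∣ D2 := fun h => hne ((Nat.prime_dvd_prime_iff_eq hp1 hp2).1 h)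
  have nd21 : ¬ D2 ∣ D1 := fun h => by have := Nat.le_of_dvd g1 h; omega
  have cop : ∀ s, Nat.Coprime (P.l s) (D1 * D2) := by
    intro s
    have q1 : Nat.Coprime D1 (P.l s) := by
      rw [Nat.Prime.coprime_iff_not_dvd hp1]
      intro h
      exact absurd (Nat.le_of_dvd (hl s) h) (not_le.2 (c1 s))
    have q2 : Nat.Coprime D2 (P.l s) := by
      rw [Nat.Prime.coprime_iff_not_dvd hp2]
      intro h
      have := Nat.le_of_dvd (hl s) h
      have := c1 s
      omega
    exact Nat.Coprime.mul_right q1.symm q2.symm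
  have t1 : ∀ N, D1 ∣ D1 * D2 * N := fun N => Dvd.intro _ (by rw [Nat.mul_assoc])
  have t2 : ∀ N, D2 ∣ D1 * D2 * N := fun N => Dvd.intro_left (D1 * N) (by ring)
  have u1 : ∀ N, ¬ D1 ∣ D1 * D2 * N + 1 := fun N h =>
    hp1.one_lt.ne' (Nat.dvd_one.1 ((Nat.dvd_add_right (t1 N)).1 h))
  have u2 : ∀ N, ¬ D2 ∣ D1 * D2 * N + 1 := fun N h =>
    hp2.one_lt.ne' (Nat.dvd_one.1 ((Nat.dvd_add_right (t2 N)).1 h))
  let E : P.S → ℕ := fun s => ((e s : Fin M) : ℕ)
  let D := ErrMc_mc P F st E M D1 D2 he g1 g2 hl hy hn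
  have s0 := ErrMc_step0 P F st E M D1 D2 he g1 g2 hl hy hn hst
  have s0' := ErrMc_step0' P F st E M D1 D2 he g1 g2 hl hy hn hst
  have s1 := ErrMc_step1 P F st E M D1 D2 he g1 g2 hl hy hn hst
  have s1' := ErrMc_step1' P F st E M D1 D2 he g1 g2 hl hy hn hst
  have s2 := ErrMc_step2 P F st E M D1 D2 he g1 g2 hl hy hn hst
  have s2' := ErrMc_step2' P F st E M D1 D2 he g1 g2 hl hy hn hst
  have d2 := ErrMc_die2 P F st E M D1 D2 he g1 g2 hl hy hn hst hp1 c2 c3
  refine ⟨D, D1 * D2, fun s => 3 * E s, Nat.mul_pos g1 g2, ?_, ?_, ?_, ?_, ?_, ?_, ?_⟩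
  · intro a b hab
    have h6 : E a = E b := by
      have : 3 * E a = 3 * E b := hab
      omega
    exact e.injective (Fin.ext h6)
  · intro s
    have h7 : E s < M := he s
    refine ⟨by show 3 * E s % 3 = 0; omega, ?_⟩
    show 3 * E s < 3 * M
    omega
  · intro s N
    exact s0 s _ (t1 N)
  · intro s N
    exact s1 s _ (t2 N)
  · intro s N hs
    have := s2 s (D1 * D2 * N) hs
    rw [ErrMc_fm_mul P s _ N (cop s)] at this
    exact this
  · intro n
    exact s2' n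
  · intro s N i hi
    have hd0 : D.d (3 * E s + 0) = D1 := by
      have a0 : (3 * E s + 0) % 3 = 0 := by omega
      show (if (3 * E s + 0) % 3 = 0 then D1 else if (3 * E s + 0) % 3 = 1 then D2 else
        P.l (st (3 * E s + 0))) = D1
      rw [if_pos a0]
    have hd1 : D.d (3 * E s + 1) = D2 := by
      have a0 : ¬ (3 * E s + 1) % 3 = 0 := by omega
      have a1 : (3 * E s + 1) % 3 = 1 := by omega
      show (if (3 * E s + 1) % 3 = 0 then D1 else if (3 * E s + 1) % 3 = 1 then D2 else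
        P.l (st (3 * E s + 1))) = D2
      rw [if_neg a0, if_pos a1]
    have hd2 : D.d (3 * E s + 2) = P.l s := by
      have a0 : ¬ (3 * E s + 2) % 3 = 0 := by omega
      have a1 : ¬ (3 * E s + 2) % 3 = 1 := by omega
      show (if (3 * E s + 2) % 3 = 0 then D1 else if (3 * E s + 2) % 3 = 1 then D2 else
        P.l (st (3 * E s + 2))) = P.l s
      rw [if_neg a0, if_neg a1, hst s 2 (by norm_num)]
    interval_cases i
    · show Dies D.step (3 * E s + 0, _) ∧ Dies D.step (3 * E s + 0, _ + D.d (3 * E s + 0))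
      rw [hd0]
      refine ⟨ErrMc_die_none (s0' s _ (u1 N)), ?_⟩
      have v0 : D1 ∣ D1 * D2 * N + D1 := (Nat.dvd_add_right (t1 N)).2 dvd_rfl
      refine ErrMc_die_some (s0 s _ v0) (ErrMc_die_none (s1' s _ ?_))
      intro h
      exact nd21 ((Nat.dvd_add_right (t2 N)).1 h)
    · show Dies D.step (3 * E s + 1, _) ∧ Dies D.step (3 * E s + 1, _ + D.d (3 * E s + 1))
      rw [hd1]
      refine ⟨ErrMc_die_none (s1' s _ (u2 N)), ?_⟩
      have v0 : D2 ∣ D1 * D2 * N + D2 := (Nat.dvd_add_right (t2 N)).2 dvd_rfl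
      refine ErrMc_die_some (s1 s _ v0) (d2 s _ ?_)
      intro h
      exact nd12 ((Nat.dvd_add_right (t1 N)).1 h)
    · show Dies D.step (3 * E s + 2, _) ∧ Dies D.step (3 * E s + 2, _ + D.d (3 * E s + 2))
      rw [hd2]
      refine ⟨d2 s _ (u1 N), d2 s _ ?_⟩
      intro h
      have h8 := (Nat.dvd_add_right (t1 N)).1 h
      exact absurd (Nat.le_of_dvd (hl s) h8) (not_le.2 (c1 s))

end OneRelZ
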