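import Pool.Agent.Lib.MP_85de51_alZ.Ident
import Pool.Agent.Lib.MP_85de51_alP.Ext
set_option autoImplicit false

/-!
# JOB Ext: the HNN step

Adapt `Pool/Agent/Lib/MP_85de51_alP/Ext.lean` (imported; namespace `OneRelP`; in the notation there
`X` is our `b` and `U` is our `x`). `V = ℕ → M`, `ι m = (m, 0, 0, ...)`, `u = ext_u x` (that is
`(u w) i = x (w i) + w (i+1)`), `s = ext_s b x t` where `t : Module.End k M` is a linear map with
`t (x^i (a j)) = x^i (t' j) + Z i` for all `j : J`, `i : ℕ`, `Z = ext_Z b x (a j)` (`Z 0 = 0`,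
`Z (i+1) = x (Z i) + b (x^i (a j))`). It exists by `hli` (as in `ext_exists_t`).
`s * u - u * s = ext_cw b` is `ext_comm`.
* `s (ι (a j)) = ι (t' j)`: prove `ext_sig b x t i (ι (x^l (a j))) = if i = 0 then x^l (t' j) + Z l else 0` by
induction on `i` (all `l`), as at the end of the proof of `OneRelP.extend`.
* the relation: `u = ext_cw x + ext_sh`, `ext_sh` commutes with `ext_cw b` (`ext_cw_sh`), so
`cx1 (ext_cw b) u = cx1 (ext_cw b) (ext_cw x) = ext_cw (cx1 b x)`, hence `cx2`, `cx3`, `opC`, `opZ` of
`(ext_cw b, u)` are `ext_cw` of those of `(b, x)` (`opV` and so `x` itself does not occur in them);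
`ext_cw_commute`.
-/

namespace OneRelZ

open OneRelP

theorem Ext_exists_t {k M : Type} [Field k] [AddCommGroup M] [Module k M] {J : Type}
    (b x : Module.End k M) (a t' : J → M)
    (hli : LinearIndependent k (fun c : J × ℕ => (x ^ c.2) (a c.1))) :
    ∃ t : Module.End k M, ∀ j i, t ((x ^ i) (a j)) = (x ^ i) (t' j) + ext_Z b x (a j) i := by
  obtain ⟨t, ht⟩ := LinearMap.exists_extend
    ((Finsupp.linearCombination k (fun c : J × ℕ => (x ^ c.2) (t' c.1) + ext_Z b x (a c.1) c.2)) ∘ₗ
      (hli.repr : _ →ₗ[k] _))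
  refine ⟨t, fun j i => ?_⟩
  have hmem : (x ^ i) (a j) ∈ Submodule.span k (Set.range (fun c : J × ℕ => (x ^ c.2) (a c.1))) :=
    Submodule.subset_span ⟨(j, i), rfl⟩
  have h1 := LinearMap.congr_fun ht ⟨(x ^ i) (a j), hmem⟩
  have h2 : hli.repr ⟨(x ^ i) (a j), hmem⟩ = Finsupp.single (j, i) 1 := by
    apply hli.repr_eq_single (j, i)
    rfl
  simpa [h2] using h1

theorem Ext_cx1 {k M : Type} [Field k] [AddCommGroup M] [Module k M] (b x : Module.End k M) :
    cx1 (ext_cw b) (ext_u x) = ext_cw (cx1 b x) := by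
  apply ext_ext
  intro w i
  simp only [cx1, LinearMap.sub_apply, Module.End.mul_apply, Pi.sub_apply, ext_u_apply,
    ext_cw_apply, map_add]
  abel

theorem Ext_cw_sub {k M : Type} [Field k] [AddCommGroup M] [Module k M] (S T : Module.End k M) :
    ext_cw (S - T) = ext_cw S - ext_cw T := by
  apply ext_ext
  intro w i
  simp

theorem Ext_cw_add {k M : Type} [Field k] [AddCommGroup M] [Module k M] (S T : Module.End k M) :
    ext_cw (S + T) = ext_cw S + ext_cw T := by
  apply ext_ext
  intro w i
  simp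

theorem Ext_cw_mul {k M : Type} [Field k] [AddCommGroup M] [Module k M] (S T : Module.End k M) :
    ext_cw (S * T) = ext_cw S * ext_cw T := by
  apply ext_ext
  intro w i
  simp [Module.End.mul_apply]

theorem Ext_cx2 {k M : Type} [Field k] [AddCommGroup M] [Module k M] (b x : Module.End k M) :
    cx2 (ext_cw b) (ext_u x) = ext_cw (cx2 b x) := by
  unfold cx2
  rw [Ext_cx1, Ext_cw_sub, Ext_cw_mul, Ext_cw_mul]

theorem Ext_cx3 {k M : Type} [Field k] [AddCommGroup M] [Module k M] (b x : Module.End k M) :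
    cx3 (ext_cw b) (ext_u x) = ext_cw (cx3 b x) := by
  unfold cx3
  rw [Ext_cx2, Ext_cw_sub, Ext_cw_mul, Ext_cw_mul]

theorem extend {k M : Type} [Field k] [AddCommGroup M] [Module k M] {J : Type}
    (b x : Module.End k M) (hc : Commute (opC b x) (opZ b x)) (a t' : J → M)
    (hli : LinearIndependent k (fun c : J × ℕ => (x ^ c.2) (a c.1))) :
    ∃ (V : Type) (_ : AddCommGroup V) (_ : Module k V) (s u : Module.End k V) (ι : M →ₗ[k] V),
      Function.Injective ι ∧ (∀ m, ι (x m) = u (ι m)) ∧
      (∀ m, ι (b m) = (s * u - u * s) (ι m)) ∧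
      Commute (opC (s * u - u * s) u) (opZ (s * u - u * s) u) ∧
      ∀ j, s (ι (a j)) = ι (t' j) := by
  obtain ⟨t, ht⟩ := Ext_exists_t b x a t' hli
  refine ⟨ℕ → M, inferInstance, inferInstance, ext_s b x t, ext_u x,
    LinearMap.single k (fun _ : ℕ => M) 0, ?_, ?_, ?_, ?_, ?_⟩
  · intro m m' h
    have := congrFun h 0
    simpa using this
  · intro m
    funext i
    rcases i with _ | i
    · simp
    · simp
  · intro m
    rw [ext_comm]
    funext i
    rcases i with _ | i
    · simp
    · simp
  · rw [ext_comm]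
    have h1 : opC (ext_cw b) (ext_u x) = ext_cw (opC b x) := by
      unfold opC
      rw [Ext_cx1, Ext_cx2, Ext_cw_add, Ext_cw_sub, Ext_cw_mul, Ext_cw_mul]
    have h2 : opZ (ext_cw b) (ext_u x) = ext_cw (opZ b x) := by
      unfold opZ
      rw [Ext_cx1, Ext_cx3, Ext_cw_sub]
    rw [h1, h2]
    exact ext_cw_commute _ _ hc
  · intro j
    funext i
    have key : ∀ i l, ext_sig b x t i (LinearMap.single k (fun _ : ℕ => M) 0 ((x ^ l) (a j))) =
        if i = 0 then (x ^ l) (t' j) + ext_Z b x (a j) l else 0 := by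
      have hu : ∀ l, ext_u x (LinearMap.single k (fun _ : ℕ => M) 0 ((x ^ l) (a j))) =
          LinearMap.single k (fun _ : ℕ => M) 0 ((x ^ (l + 1)) (a j)) := by
        intro l
        funext i
        rcases i with _ | i
        · simp [pow_succ', Module.End.mul_apply]
        · simp
      intro i
      induction i with
      | zero =>
        intro l
        rw [ext_sig_zero]
        simp [ht]
      | succ i ih =>
        intro l
        rw [ext_sig_succ, hu, ih, ih]
        rcases i with _ | i
        · simp [ext_Z, pow_succ', Module.End.mul_apply]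
        · simp
    have h0 := key i 0
    simp only [pow_zero, Module.End.one_apply] at h0
    rw [ext_s_apply, h0]
    rcases i with _ | i
    · simp [ext_Z]
    · simp

end OneRelZ
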