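import Pool.Agent.Lib.MP_85de51_alZ.StII
import Pool.Agent.Lib.MP_85de51_alZ.Dyn
import Pool.Agent.Lib.MP_85de51_alZ.Dstep
set_option autoImplicit false

/-!
# JOB Fwd: if the machine halts then the test vector vanishes

Put `b = s u - u s`, `x = u`. By `st_I` (with `β = be i r`, `τ = w (nx i r) 0 0`) and `st_II` (with
`dead = D.dead i`, `al = D.al i`, `be = D.be i`, `h r = w i (r+1) 0`, `h1 r = w i (r+1) 1`,
`h2' r = w i (r+1) 2`, `τ r = w (D.nx i r) 0 0`) the predicate `StAll` holds for all states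
`(i, 0)`, `i < m`, and `(i, r + 1)`, `i < m`, `r < d i`. Apply `dyn_halt` with `C = (ℕ × ℕ) × ℕ`,
`f = dstep D`, `G c = (c.1.1 < D.m ∧ c.1.2 ≤ D.d c.1.1)`, `vec c = b^n (w i ρ 0)`,
`th c = th b (w i ρ 1) (w i ρ 2) n` for `c = ((i, ρ), n)`, `inc c = (c.1, c.2 + 1)`,
`add c = (c.1, c.2 + deg D c.1)`; `hx`: `x_vec`; `hth`: `x_th`; `hbt`: `x_b_th`;
`hd`, `hp`: `dstep_halt`. (`n % d < d`, `D.hd`; `D.hnx` for `G`.)
-/

namespace OneRelZ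

variable {k V : Type*} [Field k] [AddCommGroup V] [Module k V]

/-- the sequence of images of the state `(i, ρ)` -/
def Fwd_Y (D : Mc) (b : Module.End k V) (w : ℕ → ℕ → ℕ → V) (σ : ℕ × ℕ) : ℕ → V :=
  match σ with
  | (i, 0) => Vg D b w i
  | (i, r + 1) => Vh D b w i r

theorem Fwd_stAll (h2 : (2 : k) ≠ 0) (D : Mc) (b x : Module.End k V)
    (hc : Commute (opC b x) (opZ b x)) (w : ℕ → ℕ → ℕ → V) (hR : Rels D b x w) (i ρ : ℕ)
    (hi : i < D.m) (hρ : ρ ≤ D.d i) :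
    StAll b x (deg D (i, ρ)) (Fwd_Y D b w (i, ρ)) (w i ρ 0) (w i ρ 1) (w i ρ 2) := by
  have hI : ∀ r < D.d i, StAll b x (D.al i r) (fun n => (b ^ (n + D.be i r)) (w (D.nx i r) 0 0))
      (w i (r + 1) 0) (w i (r + 1) 1) (w i (r + 1) 2) := fun r hr =>
    st_I h2 b x hc (D.al i r) (D.hal i r) (D.be i r) (w (D.nx i r) 0 0) _ _ _ (hR.I i hi r hr)
  cases ρ with
  | zero =>
    exact st_II h2 b x hc (D.d i) (D.hd i) (D.dead i) (D.al i) (D.be i) (fun r => w i (r + 1) 0)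
      (fun r => w i (r + 1) 1) (fun r => w i (r + 1) 2) (fun r => w (D.nx i r) 0 0) hI _ _ _
      (hR.II i hi)
  | succ r => exact hI r (by omega)

theorem Fwd_elim (D : Mc) (b : Module.End k V) (w : ℕ → ℕ → ℕ → V) (i ρ n : ℕ) :
    (dstep D ((i, ρ), n)).elim 0 (fun c => (b ^ c.2) (w c.1.1 c.1.2 0)) = Fwd_Y D b w (i, ρ) n := by
  cases ρ with
  | zero =>
    show (if D.dead i (n % D.d i) = true then none
      else some ((i, n % D.d i + 1), D.al i (n % D.d i) * (n / D.d i)) :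
        Option ((ℕ × ℕ) × ℕ)).elim 0 _ = Vg D b w i n
    unfold Vg
    split_ifs <;> rfl
  | succ r => rfl

theorem Fwd_G (D : Mc) (c c' : (ℕ × ℕ) × ℕ) (h : c.1.1 < D.m ∧ c.1.2 ≤ D.d c.1.1)
    (hc : dstep D c = some c') : c'.1.1 < D.m ∧ c'.1.2 ≤ D.d c'.1.1 := by
  obtain ⟨⟨i, ρ⟩, n⟩ := c
  cases ρ with
  | zero =>
    simp only [dstep] at hc
    split_ifs at hc
    have h1 := Option.some.inj hc
    subst h1
    exact ⟨h.1, Nat.mod_lt _ (D.hd i)⟩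
  | succ r =>
    simp only [dstep] at hc
    have h1 := Option.some.inj hc
    subst h1
    exact ⟨D.hnx i r, Nat.zero_le _⟩

theorem fwd (h2 : (2 : k) ≠ 0) (D : Mc) (s u : Module.End k V)
    (hc : Commute (opC (s * u - u * s) u) (opZ (s * u - u * s) u)) (w : ℕ → ℕ → ℕ → V)
    (hR : Rels D (s * u - u * s) u w) (i₀ n₀ : ℕ) (hi : i₀ < D.m)
    (hd : Dies D.step (i₀, n₀)) (hp : Pert D (i₀, n₀))
    (hf : u (s (((s * u - u * s) ^ n₀) (w i₀ 0 0))) = s (((s * u - u * s) ^ n₀) (w i₀ 0 0))) :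
    s (((s * u - u * s) ^ n₀) (w i₀ 0 0)) = 0 := by
  set b : Module.End k V := s * u - u * s with hb
  have hS := Fwd_stAll h2 D b u hc w hR
  obtain ⟨hd', hp'⟩ := dstep_halt D i₀ n₀ hd hp
  refine dyn_halt (dstep D) (fun c => c.1.1 < D.m ∧ c.1.2 ≤ D.d c.1.1)
    (fun c c' h h' => Fwd_G D c c' h h') s b u hb.symm
    (fun c => (b ^ c.2) (w c.1.1 c.1.2 0))
    (fun c => th b (w c.1.1 c.1.2 1) (w c.1.1 c.1.2 2) c.2) ?_ ?_
    (fun c => (c.1, c.2 + 1)) (fun c => (c.1, c.2 + deg D c.1)) (fun c h => h) (fun c h => h)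
    ?_ ?_ ((i₀, 0), n₀) ⟨hi, Nat.zero_le _⟩ hd' hp' hf
  · rintro ⟨⟨i, ρ⟩, n⟩ ⟨h1, h3⟩
    rw [Fwd_elim]
    exact x_vec h2 (hS i ρ h1 h3) n
  · rintro ⟨⟨i, ρ⟩, n⟩ ⟨h1, h3⟩
    exact x_th h2 (hS i ρ h1 h3) n
  · rintro ⟨⟨i, ρ⟩, n⟩ _
    show b ((b ^ n) (w i ρ 0)) = (b ^ (n + 1)) (w i ρ 0)
    rw [pow_succ', Module.End.mul_apply]
  · rintro ⟨⟨i, ρ⟩, n⟩ ⟨h1, h3⟩
    exact x_b_th h2 (hS i ρ h1 h3) n

end OneRelZ
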