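import Pool.Agent.Lib.MP_85de51_alZ.Ext
set_option autoImplicit false

/-!
# JOB Hat: adding the cyclic generator and the fixed vector

Let `M̂ = M × ((ℕ × ℕ) →₀ k) × k` with the operators `b̂ = (b, b', 0)`, `x̂ = (x, x', 1)` (componentwise;
`LinearMap.prodMap`), `b' (single (i, j) c) = single (i + 1, j) c`,
`x' (single (i, j) c) = single (i, j + 1) c` (`Finsupp.lmapDomain`), so `b' x' = x' b'`.
`cx1 b̂ x̂ = (cx1 b x, 0, 0)`, so `opC b̂ x̂ = (opC b x, b', 0)`, `opZ b̂ x̂ = (opZ b x, 0, 0)` commute.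
Apply `extend` with `J = Option ℕ`, `a (some j) = (0, single (j, 0) 1, 0)`, `a none = (v, 0, 0)`,
`t' (some j) = (w j, 0, 0)`, `t' none = (0, 0, 1)`. Linear independence of
`x̂^l (a (some j)) = (0, single (j, l) 1, 0)` and `x̂^l (a none) = (x^l v, 0, 0)`: e.g.
`LinearIndependent.sum_type`/`linearIndependent_inl_union_inr'` after the equivalence
`Option ℕ × ℕ ≃ ℕ ⊕ (ℕ × ℕ)`, or directly `linearIndependent_iff'`.
Let `ι m = ι̂ (m, 0, 0)`, `e = ι̂ (0, single (0,0) 1, 0)`, `f = ι̂ (0, 0, 1)`. Then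
`(s * u - u * s)^j e = ι̂ (b̂^j ..) = ι̂ (a (some j))`, so `s` of it is `ι (w j)`; `s (ι v) = f`,
`u f = ι̂ (x̂ (0,0,1)) = f`, `f ≠ 0` as `ι̂` is injective.
-/

namespace OneRelZ

section HatAux

variable {k M : Type} [Field k] [AddCommGroup M] [Module k M]

/-- the module with the additional generators -/
abbrev HatM (k M : Type) [Field k] [AddCommGroup M] [Module k M] : Type :=
  M × ((ℕ × ℕ) →₀ k) × k

/-- `b'` -/
noncomputable def Hat_b' (k : Type) [Field k] : Module.End k ((ℕ × ℕ) →₀ k) :=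
  Finsupp.lmapDomain k k (fun p : ℕ × ℕ => (p.1 + 1, p.2))

/-- `x'` -/
noncomputable def Hat_x' (k : Type) [Field k] : Module.End k ((ℕ × ℕ) →₀ k) :=
  Finsupp.lmapDomain k k (fun p : ℕ × ℕ => (p.1, p.2 + 1))

theorem Hat_b'_single (i j : ℕ) (c : k) :
    Hat_b' k (Finsupp.single (i, j) c) = Finsupp.single (i + 1, j) c := by
  unfold Hat_b'
  simp [Finsupp.lmapDomain_apply, Finsupp.mapDomain_single]

theorem Hat_x'_single (i j : ℕ) (c : k) :
    Hat_x' k (Finsupp.single (i, j) c) = Finsupp.single (i, j + 1) c := by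
  unfold Hat_x'
  simp [Finsupp.lmapDomain_apply, Finsupp.mapDomain_single]

theorem Hat_comm' (w : (ℕ × ℕ) →₀ k) : Hat_b' k (Hat_x' k w) = Hat_x' k (Hat_b' k w) := by
  have h : Hat_b' k ∘ₗ Hat_x' k = Hat_x' k ∘ₗ Hat_b' k := by
    apply Finsupp.lhom_ext
    rintro ⟨i, j⟩ c
    simp [Hat_b'_single, Hat_x'_single]
  exact LinearMap.congr_fun h w

/-- `b̂` -/
noncomputable def Hat_b (b : Module.End k M) : Module.End k (HatM k M) :=
  LinearMap.prodMap b (LinearMap.prodMap (Hat_b' k) (0 : k →ₗ[k] k))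

/-- `x̂` -/
noncomputable def Hat_x (x : Module.End k M) : Module.End k (HatM k M) :=
  LinearMap.prodMap x (LinearMap.prodMap (Hat_x' k) (LinearMap.id : k →ₗ[k] k))

/-- componentwise operator `(S, T, c)` -/
noncomputable def Hat_D (S : Module.End k M) (T : Module.End k ((ℕ × ℕ) →₀ k)) (c : k →ₗ[k] k) :
    Module.End k (HatM k M) :=
  LinearMap.prodMap S (LinearMap.prodMap T c)

theorem Hat_D_mul (S S' : Module.End k M) (T T' : Module.End k ((ℕ × ℕ) →₀ k)) (c c' : k →ₗ[k] k) :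
    Hat_D S T c * Hat_D S' T' c' = Hat_D (S * S') (T * T') (c ∘ₗ c') := by
  refine LinearMap.ext fun w => ?_
  rfl

theorem Hat_D_sub (S S' : Module.End k M) (T T' : Module.End k ((ℕ × ℕ) →₀ k)) (c c' : k →ₗ[k] k) :
    Hat_D S T c - Hat_D S' T' c' = Hat_D (S - S') (T - T') (c - c') := by
  refine LinearMap.ext fun w => ?_
  rfl

theorem Hat_D_add (S S' : Module.End k M) (T T' : Module.End k ((ℕ × ℕ) →₀ k)) (c c' : k →ₗ[k] k) :
    Hat_D S T c + Hat_D S' T' c' = Hat_D (S + S') (T + T') (c + c') := by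
  refine LinearMap.ext fun w => ?_
  rfl

theorem Hat_cx1 (b x : Module.End k M) : cx1 (Hat_b b) (Hat_x x) = Hat_D (cx1 b x) 0 0 := by
  have h1 : Hat_b b = Hat_D b (Hat_b' k) 0 := rfl
  have h2 : Hat_x x = Hat_D x (Hat_x' k) LinearMap.id := rfl
  have h3 : Hat_b' k * Hat_x' k - Hat_x' k * Hat_b' k = 0 := by
    refine LinearMap.ext fun w => ?_
    simp only [LinearMap.sub_apply, Module.End.mul_apply, Hat_comm', sub_self, LinearMap.zero_apply]
  unfold cx1
  rw [h1, h2, Hat_D_mul, Hat_D_mul, Hat_D_sub, h3]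
  congr 1
  simp

theorem Hat_cx2 (b x : Module.End k M) : cx2 (Hat_b b) (Hat_x x) = Hat_D (cx2 b x) 0 0 := by
  have h1 : Hat_b b = Hat_D b (Hat_b' k) 0 := rfl
  unfold cx2
  rw [Hat_cx1, h1, Hat_D_mul, Hat_D_mul, Hat_D_sub]
  simp only [mul_zero, zero_mul, LinearMap.comp_zero, LinearMap.zero_comp, sub_self]
  exact congrArg (fun T => Hat_D _ T 0) (sub_self (0 : Module.End k ((ℕ × ℕ) →₀ k)))

theorem Hat_cx3 (b x : Module.End k M) : cx3 (Hat_b b) (Hat_x x) = Hat_D (cx3 b x) 0 0 := by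
  have h1 : Hat_b b = Hat_D b (Hat_b' k) 0 := rfl
  unfold cx3
  rw [Hat_cx2, h1, Hat_D_mul, Hat_D_mul, Hat_D_sub]
  simp only [mul_zero, zero_mul, LinearMap.comp_zero, LinearMap.zero_comp, sub_self]
  exact congrArg (fun T => Hat_D _ T 0) (sub_self (0 : Module.End k ((ℕ × ℕ) →₀ k)))

theorem Hat_opC (b x : Module.End k M) :
    opC (Hat_b b) (Hat_x x) = Hat_D (opC b x) (Hat_b' k) 0 := by
  have h1 : Hat_b b = Hat_D b (Hat_b' k) 0 := rfl
  unfold opC
  rw [Hat_cx1, Hat_cx2, h1, Hat_D_mul, Hat_D_mul, Hat_D_sub, Hat_D_add]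
  simp only [mul_zero, LinearMap.comp_zero, sub_self, add_zero]
  refine congrArg (fun T => Hat_D _ T 0) ?_
  exact (congrArg (fun T : Module.End k ((ℕ × ℕ) →₀ k) => Hat_b' k + T)
    (sub_self (0 : Module.End k ((ℕ × ℕ) →₀ k)))).trans (add_zero _)

theorem Hat_opZ (b x : Module.End k M) :
    opZ (Hat_b b) (Hat_x x) = Hat_D (opZ b x) 0 0 := by
  unfold opZ
  rw [Hat_cx1, Hat_cx3, Hat_D_sub]
  simp only [sub_self]
  exact congrArg (fun T => Hat_D _ T 0) (sub_self (0 : Module.End k ((ℕ × ℕ) →₀ k)))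

theorem Hat_commute (b x : Module.End k M) (hc : Commute (opC b x) (opZ b x)) :
    Commute (opC (Hat_b b) (Hat_x x)) (opZ (Hat_b b) (Hat_x x)) := by
  rw [Hat_opC, Hat_opZ]
  have hc' : opC b x * opZ b x = opZ b x * opC b x := hc
  show Hat_D (opC b x) (Hat_b' k) 0 * Hat_D (opZ b x) 0 0
    = Hat_D (opZ b x) 0 0 * Hat_D (opC b x) (Hat_b' k) 0
  rw [Hat_D_mul, Hat_D_mul, hc']
  simp

/-- the vectors `a` -/
noncomputable def Hat_a (v : M) : Option ℕ → HatM k M
  | none => (v, 0, 0)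
  | some j => (0, Finsupp.single (j, 0) 1, 0)

/-- the vectors `t'` -/
noncomputable def Hat_t (w : ℕ → M) : Option ℕ → HatM k M
  | none => (0, 0, 1)
  | some j => (w j, 0, 0)

theorem Hat_x_pow_none (x : Module.End k M) (v : M) (l : ℕ) :
    (Hat_x x ^ l) (Hat_a (k := k) v none) = ((x ^ l) v, 0, 0) := by
  induction l with
  | zero => simp [Hat_a]
  | succ l ih =>
    rw [pow_succ', Module.End.mul_apply, ih, pow_succ', Module.End.mul_apply]
    simp [Hat_x]

theorem Hat_x_pow_some (x : Module.End k M) (v : M) (j l : ℕ) :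
    (Hat_x x ^ l) (Hat_a (k := k) v (some j)) = (0, Finsupp.single (j, l) 1, 0) := by
  induction l with
  | zero => simp [Hat_a]
  | succ l ih =>
    rw [pow_succ', Module.End.mul_apply, ih]
    simp [Hat_x, Hat_x'_single]

theorem Hat_b_pow (b : Module.End k M) (v : M) (j : ℕ) :
    (Hat_b b ^ j) (Hat_a (k := k) v (some 0)) = Hat_a v (some j) := by
  induction j with
  | zero => simp [Hat_a]
  | succ j ih =>
    rw [pow_succ', Module.End.mul_apply, ih]
    simp [Hat_b, Hat_a, Hat_b'_single]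

theorem Hat_li_of_dual {E ι : Type} [AddCommGroup E] [Module k E] [DecidableEq ι] (f : ι → E)
    (φ : ι → E →ₗ[k] k) (h : ∀ i j, φ i (f j) = if j = i then 1 else 0) :
    LinearIndependent k f := by
  rw [linearIndependent_iff']
  intro s g hg i hi
  have h1 := congrArg (φ i) hg
  rw [map_sum, map_zero] at h1
  simp only [map_smul, h, smul_eq_mul, mul_ite, mul_one, mul_zero] at h1
  rw [Finset.sum_ite_eq' s i g, if_pos hi] at h1
  exact h1

theorem Hat_li (x : Module.End k M) (v : M)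
    (hli : LinearIndependent k (fun j : ℕ => (x ^ j) v)) :
    LinearIndependent k (fun c : Option ℕ × ℕ => (Hat_x x ^ c.2) (Hat_a (k := k) v c.1)) := by
  obtain ⟨t, ht⟩ := LinearMap.exists_extend (hli.repr : _ →ₗ[k] _)
  have ht' : ∀ j, t ((x ^ j) v) = Finsupp.single j 1 := by
    intro j
    have hmem : (x ^ j) v ∈ Submodule.span k (Set.range (fun j : ℕ => (x ^ j) v)) :=
      Submodule.subset_span ⟨j, rfl⟩
    have h1 := LinearMap.congr_fun ht ⟨(x ^ j) v, hmem⟩
    have h2 : hli.repr ⟨(x ^ j) v, hmem⟩ = Finsupp.single j 1 := by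
      apply hli.repr_eq_single j
      rfl
    simpa [h2] using h1
  classical
  refine Hat_li_of_dual _ (fun c => match c with
    | (none, j) => (Finsupp.lapply j) ∘ₗ t ∘ₗ LinearMap.fst k M (((ℕ × ℕ) →₀ k) × k)
    | (some i, j) => (Finsupp.lapply (i, j)) ∘ₗ LinearMap.fst k ((ℕ × ℕ) →₀ k) k ∘ₗ
        LinearMap.snd k M (((ℕ × ℕ) →₀ k) × k)) ?_
  rintro ⟨c, j⟩ ⟨c', j'⟩
  rcases c with _ | i <;> rcases c' with _ | i'
  · simp only [Hat_x_pow_none, LinearMap.comp_apply, LinearMap.fst_apply, ht', Finsupp.lapply_apply,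
      Finsupp.single_apply, Prod.mk.injEq, true_and]
  · simp [Hat_x_pow_some]
  · simp [Hat_x_pow_none]
  · simp [Hat_x_pow_some, Finsupp.single_apply]

end HatAux

theorem hat {k M : Type} [Field k] [AddCommGroup M] [Module k M] (b x : Module.End k M)
    (hc : Commute (opC b x) (opZ b x)) (v : M)
    (hli : LinearIndependent k (fun j : ℕ => (x ^ j) v)) (w : ℕ → M) :
    ∃ (V : Type) (_ : AddCommGroup V) (_ : Module k V) (s u : Module.End k V) (ι : M →ₗ[k] V)
      (e f : V), (∀ m, ι (x m) = u (ι m)) ∧ (∀ m, ι (b m) = (s * u - u * s) (ι m)) ∧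
      Commute (opC (s * u - u * s) u) (opZ (s * u - u * s) u) ∧
      (∀ j, s (((s * u - u * s) ^ j) e) = ι (w j)) ∧ s (ι v) = f ∧ u f = f ∧ f ≠ 0 := by
  obtain ⟨V, _, _, s, u, ι, hinj, hx, hb, hcom, hs⟩ := extend (Hat_b b) (Hat_x x)
    (Hat_commute b x hc) (Hat_a v) (Hat_t w) (Hat_li x v hli)
  refine ⟨V, inferInstance, inferInstance, s, u, ι ∘ₗ LinearMap.inl k M (((ℕ × ℕ) →₀ k) × k),
    ι (Hat_a v (some 0)), ι (0, 0, 1), ?_, ?_, hcom, ?_, ?_, ?_, ?_⟩
  · intro m
    simp only [LinearMap.comp_apply, LinearMap.inl_apply]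
    rw [← hx]
    refine congrArg ι ?_
    refine Prod.ext ?_ (Prod.ext ?_ ?_) <;> simp [Hat_x]
  · intro m
    simp only [LinearMap.comp_apply, LinearMap.inl_apply]
    rw [← hb]
    refine congrArg ι ?_
    refine Prod.ext ?_ (Prod.ext ?_ ?_) <;> simp [Hat_b]
  · intro j
    have h1 : ∀ j, ((s * u - u * s) ^ j) (ι (Hat_a v (some 0))) = ι ((Hat_b b ^ j) (Hat_a v (some 0))) := by
      intro j
      induction j with
      | zero => simp
      | succ j ih => rw [pow_succ', Module.End.mul_apply, ih, ← hb, pow_succ', Module.End.mul_apply]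
    rw [h1, Hat_b_pow, hs]
    rfl
  · exact hs none
  · rw [← hx]
    refine congrArg ι ?_
    simp [Hat_x]
  · intro h
    have h1 : ι (0, 0, 1) = ι 0 := by rw [h, map_zero]
    have h2 := hinj h1
    simp at h2

end OneRelZ
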