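import Pool.Agent.Lib.MP_85de51_alZ.Defs
set_option autoImplicit false

/-!
# Identities
-/

namespace OneRelZ

open MP_85de51_al

attribute [local instance 100] LieRing.ofAssociativeRing

section

variable {A : Type*} [Ring A]

theorem cx1_b (b x : A) : cx1 b x * b = b * cx1 b x - cx2 b x := by
  unfold cx2
  abel

theorem cx2_b (b x : A) : cx2 b x * b = b * cx2 b x - cx3 b x := by
  unfold cx3
  abel

theorem opP_b (b x : A) : opP b x * b = (b - 1) * opP b x - opZ b x := by
  unfold opP opZ
  rw [add_mul, cx1_b, cx2_b]
  noncomm_ring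

theorem opM_b (b x : A) : opM b x * b = (b + 1) * opM b x - opZ b x := by
  unfold opM opZ
  rw [sub_mul, cx1_b, cx2_b]
  noncomm_ring

theorem opV_b (b x : A) : opV b x * b = b * opV b x + opZ b x := by
  unfold opV opZ
  rw [sub_mul, cx2_b, mul_sub]
  have h : x * b = b * x - cx1 b x := by unfold cx1; abel
  rw [h]
  abel

theorem add_x (b x : A) : x + x = opV b x + opV b x + opP b x + opM b x := by
  unfold opV opP opM
  abel

theorem add_c (b x : A) :
    opC b x + opC b x = b + b + (opP b x * opM b x - opM b x * opP b x) := by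
  unfold opC opP opM
  noncomm_ring

theorem relB_assoc (b x : A) : relB b x = opC b x * opZ b x - opZ b x * opC b x := rfl

theorem relS_assoc (s u : A) : relS s u =
    opC (s * u - u * s) u * opZ (s * u - u * s) u -
      opZ (s * u - u * s) u * opC (s * u - u * s) u := rfl

theorem relS_iff (s u : A) : relS s u = 0 ↔
    Commute (opC (s * u - u * s) u) (opZ (s * u - u * s) u) := by
  rw [relS_assoc, sub_eq_zero]
  exact Iff.rfl

end

/-- Lie homomorphisms preserve `relS`. -/
theorem map_relS {k L L' : Type*} [CommRing k] [LieRing L] [LieAlgebra k L] [LieRing L']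
    [LieAlgebra k L'] (φ : L →ₗ⁅k⁆ L') (s u : L) : φ (relS s u) = relS (φ s) (φ u) := by
  simp only [relS, relB, LieHom.map_lie, map_add, map_sub]

end OneRelZ
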