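import Pool.Agent.Lib.MP_85de51_alZ.Ident
import Pool.Agent.Lib.MP_85de51_alP.Inst
set_option autoImplicit false

/-!
# The instances of the membership problem
-/

namespace OneRelZ

open MP_85de51_al OneRelP

/-- `[v, [v, ..., [v, w]]]`, `n` times `v = [s, u]` -/
def powB (n : ℕ) (w : FreeMagma (Fin 3)) : FreeMagma (Fin 3) := (fun w => gv * w)^[n] w

/-- the test element `[s, v^n [s, v^c z]]` -/
def tst (c n : ℕ) : FreeMagma (Fin 3) := gs * powB n (gs * powB c gz)

/-- the instance with parameter `n` -/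
noncomputable def inst (k : Type) [Field k] (D : Mc) (i₀ n : ℕ) :
    List (List (k × FreeMagma (Fin 3))) × List (k × FreeMagma (Fin 3)) :=
  ([(1, gu * tst (cod i₀ 0 0) n), (-1, tst (cod i₀ 0 0) n)] :: [(1, gs)] :: [(1, gu)] ::
    (rels D (S0 k) (X0 k) (U0 k)).map (toL k), [(1, tst (cod i₀ 0 0) n)])

end OneRelZ
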