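import Pool.Agent.Lib.MP_85de51_alZ.BlockSt
import Pool.Agent.Lib.MP_85de51_alZ.Dstep
set_option autoImplicit false

/-!
# JOB ModMc: the module of a machine

`W = ((ℕ × ℕ) × ℕ) →₀ k` with basis vectors `[σ, n] = Finsupp.single (σ, n) 1`, operators (given on the
basis, `Finsupp.linearCombination k f`):
`wb [σ, n] = [σ, n + 1]`, `wc [σ, n] = [σ, n + deg D σ]`, `wY [σ, n] = [dstep D (σ, n)]` (`0` if `none`).
Operators are compared on the basis (`Finsupp.lhom_ext'`, `LinearMap.ext_ring`; compare the file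
`Pool/Agent/Lib/MP_85de51_alP/Model.lean`).
* `wb`, `wc` commute.
* `E = cx1 wb wY = wb wY - wY wb` kills all `[(i, r+1), n]`
(`wY [(i, r+1), n] = [(nx i r, 0), n + be]`), and maps `[(i, 0), n]` into the span of the vectors
`[(i, r+1), n']`; this span is stable under `wb` and `wc` and is killed by `E`. So `E wb^n E = 0`.
* `wc E = E wc`: on `[(i, r+1), n]` both sides are `0`. On `[(i, 0), n]`: `wY wc = wc wY` there
(`(n + d) % d = n % d`, `(n + d) / d = n / d + 1`, `deg (i, r+1) = al i r`), also on `[(i, 0), n+1]`, and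
`wb wc = wc wb`.
* `M = W × W × W`, `b = Bb wb`, `x = Bx wb wc wY`, `w i ρ 0 = ([(i,ρ),0], 0, 0)`,
`w i ρ 1 = (0, [(i,ρ),0], 0)`, `w i ρ κ = (0, 0, [(i,ρ),0])` for `κ ≥ 2`. `Rels`: `block_st` with
`σ = [(i,ρ),0]`, `d = deg D (i,ρ)`, and the sequences agree: `wY (wb^n [(i,ρ),0]) = [dstep D ((i,ρ),n)]`,
`Vg D b w i n` and `Vh D b w i r n` are computed with `block_bpow` and `wb^n [σ, m] = [σ, m + n]`.
* linear independence: `x^j (b^n₀ (w i₀ 0 0))` has first component `wY^j [(i₀,0), n₀] = [orb' j]`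
(`block_bpow`, `block_pow`, `dstep_orbit`), which are distinct basis vectors
(`LinearIndependent.of_comp` for `LinearMap.fst`; `Finsupp.basisSingleOne.linearIndependent.comp`).
-/

namespace OneRelZ

section

variable (k : Type) [Field k] (D : Mc)

/-- index type of the basis -/
abbrev ModMcIx : Type := (ℕ × ℕ) × ℕ

/-- basis vectors -/
noncomputable def ModMcB (i : ModMcIx) : ModMcIx →₀ k := Finsupp.single i 1

/-- operators given on the basis -/
noncomputable def ModMcT (f : ModMcIx → (ModMcIx →₀ k)) : Module.End k (ModMcIx →₀ k) :=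
  Finsupp.linearCombination k f

theorem ModMc_T_B (f : ModMcIx → (ModMcIx →₀ k)) (i : ModMcIx) :
    ModMcT k f (ModMcB k i) = f i := by
  simp [ModMcT, ModMcB, Finsupp.linearCombination_single]

variable {k} in
theorem ModMc_ext (A B : Module.End k (ModMcIx →₀ k))
    (h : ∀ i, A (ModMcB k i) = B (ModMcB k i)) : A = B := by
  apply Finsupp.lhom_ext'
  intro i
  apply LinearMap.ext_ring
  exact h i

/-- the shift -/
noncomputable def ModMc_b : ModMcIx → (ModMcIx →₀ k) := fun c => ModMcB k (c.1, c.2 + 1)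

/-- the shift by the degree -/
noncomputable def ModMc_c : ModMcIx → (ModMcIx →₀ k) := fun c => ModMcB k (c.1, c.2 + deg D c.1)

/-- the vector of a configuration or zero -/
noncomputable def ModMcO (o : Option ModMcIx) : ModMcIx →₀ k := o.elim 0 (ModMcB k)

/-- the step -/
noncomputable def ModMc_Y : ModMcIx → (ModMcIx →₀ k) := fun c => ModMcO k (dstep D c)

/-- the operator b -/
noncomputable def wb : Module.End k (ModMcIx →₀ k) := ModMcT k (ModMc_b k)
/-- the operator c -/
noncomputable def wc : Module.End k (ModMcIx →₀ k) := ModMcT k (ModMc_c k D)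
/-- the operator Y -/
noncomputable def wY : Module.End k (ModMcIx →₀ k) := ModMcT k (ModMc_Y k D)

theorem wb_B (σ : ℕ × ℕ) (n : ℕ) : wb k (ModMcB k (σ, n)) = ModMcB k (σ, n + 1) := by
  rw [wb, ModMc_T_B]; rfl

theorem wc_B (σ : ℕ × ℕ) (n : ℕ) : wc k D (ModMcB k (σ, n)) = ModMcB k (σ, n + deg D σ) := by
  rw [wc, ModMc_T_B]; rfl

theorem wY_B (c : ModMcIx) : wY k D (ModMcB k c) = ModMcO k (dstep D c) := by
  rw [wY, ModMc_T_B]; rfl

theorem wb_pow_B (σ : ℕ × ℕ) (n m : ℕ) :
    (wb k ^ n) (ModMcB k (σ, m)) = ModMcB k (σ, m + n) := by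
  induction n with
  | zero => simp
  | succ n ih =>
    rw [pow_succ', Module.End.mul_apply, ih, wb_B]
    rfl

theorem wb_wc : Commute (wb k) (wc k D) := by
  apply ModMc_ext
  rintro ⟨σ, n⟩
  rw [Module.End.mul_apply, Module.End.mul_apply, wc_B, wb_B, wb_B, wc_B]
  congr 2
  ring

/-- the vector of the intermediate states and their shifts -/
theorem wY_h (i r n : ℕ) : wY k D (ModMcB k ((i, r + 1), n)) = ModMcB k ((D.nx i r, 0), n + D.be i r) := by
  rw [wY_B]; rfl

theorem wY_g (i n : ℕ) : wY k D (ModMcB k ((i, 0), n)) =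
    if D.dead i (n % D.d i) = true then 0
    else ModMcB k ((i, n % D.d i + 1), D.al i (n % D.d i) * (n / D.d i)) := by
  rw [wY_B]
  simp only [dstep]
  split_ifs <;> rfl

/-- the operator E kills intermediate states -/
theorem E_h (i r n : ℕ) : cx1 (wb k) (wY k D) (ModMcB k ((i, r + 1), n)) = 0 := by
  simp only [cx1, LinearMap.sub_apply, Module.End.mul_apply]
  rw [wY_h, wb_B, wb_B, wY_h, sub_eq_zero]
  congr 2
  ring

/-- the span of the intermediate states -/
noncomputable def ModMcH : Submodule k (ModMcIx →₀ k) :=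
  Submodule.span k (Set.range fun p : ℕ × ℕ × ℕ => ModMcB k ((p.1, p.2.1 + 1), p.2.2))

theorem ModMcH_mem (i r n : ℕ) : ModMcB k ((i, r + 1), n) ∈ ModMcH k :=
  Submodule.subset_span ⟨(i, r, n), rfl⟩

theorem wb_H (w : ModMcIx →₀ k) (hw : w ∈ ModMcH k) : wb k w ∈ ModMcH k := by
  have : ModMcH k ≤ (ModMcH k).comap (wb k) := by
    unfold ModMcH
    rw [Submodule.span_le]
    rintro _ ⟨⟨i, r, n⟩, rfl⟩
    change wb k (ModMcB k ((i, r + 1), n)) ∈ ModMcH k
    rw [wb_B]
    exact ModMcH_mem k i r (n + 1)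
  exact this hw

theorem wb_pow_H (n : ℕ) (w : ModMcIx →₀ k) (hw : w ∈ ModMcH k) : (wb k ^ n) w ∈ ModMcH k := by
  induction n with
  | zero => simpa using hw
  | succ n ih =>
    rw [pow_succ', Module.End.mul_apply]
    exact wb_H k _ ih

theorem E_H (w : ModMcIx →₀ k) (hw : w ∈ ModMcH k) : cx1 (wb k) (wY k D) w = 0 := by
  have : ModMcH k ≤ LinearMap.ker (cx1 (wb k) (wY k D)) := by
    unfold ModMcH
    rw [Submodule.span_le]
    rintro _ ⟨⟨i, r, n⟩, rfl⟩
    exact E_h k D i r n
  exact this hw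

theorem wY_g_H (i n : ℕ) : wY k D (ModMcB k ((i, 0), n)) ∈ ModMcH k := by
  rw [wY_g]
  split_ifs
  · exact Submodule.zero_mem _
  · exact ModMcH_mem k _ _ _

theorem E_mem (w : ModMcIx →₀ k) : cx1 (wb k) (wY k D) w ∈ ModMcH k := by
  have : (⊤ : Submodule k (ModMcIx →₀ k)) ≤ (ModMcH k).comap (cx1 (wb k) (wY k D)) := by
    rw [← (Finsupp.basisSingleOne (R := k) (ι := ModMcIx)).span_eq, Submodule.span_le]
    rintro _ ⟨⟨⟨i, ρ⟩, n⟩, rfl⟩
    rw [Finsupp.coe_basisSingleOne]
    change cx1 (wb k) (wY k D) (ModMcB k ((i, ρ), n)) ∈ ModMcH k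
    cases ρ with
    | zero =>
      simp only [cx1, LinearMap.sub_apply, Module.End.mul_apply]
      apply Submodule.sub_mem
      · exact wb_H k _ (wY_g_H k D i n)
      · rw [wb_B]
        exact wY_g_H k D i (n + 1)
    | succ r =>
      rw [E_h]
      exact Submodule.zero_mem _
  exact this trivial

theorem E_E (n : ℕ) : cx1 (wb k) (wY k D) * wb k ^ n * cx1 (wb k) (wY k D) = 0 := by
  refine LinearMap.ext fun w => ?_
  rw [Module.End.mul_apply, Module.End.mul_apply, LinearMap.zero_apply]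
  exact E_H k D _ (wb_pow_H k n _ (E_mem k D w))

theorem wY_wc (i n : ℕ) : wY k D (wc k D (ModMcB k ((i, 0), n))) =
    wc k D (wY k D (ModMcB k ((i, 0), n))) := by
  rw [wc_B, wY_g, wY_g]
  have h1 : deg D (i, 0) = D.d i := rfl
  rw [h1, Nat.add_mod_right, Nat.add_div_right _ (D.hd i)]
  split_ifs
  · simp
  · rw [wc_B]
    have h2 : deg D (i, n % D.d i + 1) = D.al i (n % D.d i) := rfl
    rw [h2, mul_add, mul_one]

theorem wc_E : Commute (wc k D) (cx1 (wb k) (wY k D)) := by
  apply ModMc_ext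
  rintro ⟨⟨i, ρ⟩, n⟩
  rw [Module.End.mul_apply, Module.End.mul_apply]
  have hcomm : ∀ w, wc k D (wb k w) = wb k (wc k D w) := fun w => by
    have := congrArg (fun T : Module.End k (ModMcIx →₀ k) => T w) (wb_wc k D).eq
    simpa [Module.End.mul_apply] using this.symm
  cases ρ with
  | zero =>
    simp only [cx1, LinearMap.sub_apply, Module.End.mul_apply, map_sub]
    rw [hcomm, ← wY_wc, ← hcomm, wb_B, ← wY_wc]
  | succ r =>
    rw [E_h, map_zero, wc_B, E_h]

end

theorem model_mc (k : Type) [Field k] (h2 : (2 : k) ≠ 0) (D : Mc) :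
    ∃ (M : Type) (_ : AddCommGroup M) (_ : Module k M) (b x : Module.End k M)
      (w : ℕ → ℕ → ℕ → M), Commute (opC b x) (opZ b x) ∧ Rels D b x w ∧
      ∀ (orb : ℕ → ℕ × ℕ), (∀ t, D.step (orb t) = some (orb (t + 1))) →
        Function.Injective orb →
        LinearIndependent k (fun j : ℕ => (x ^ j) ((b ^ (orb 0).2) (w (orb 0).1 0 0))) := by
  refine ⟨(ModMcIx →₀ k) × (ModMcIx →₀ k) × (ModMcIx →₀ k), inferInstance, inferInstance,
    Bb (wb k), Bx (wb k) (wc k D) (wY k D),
    fun i ρ κ => match κ with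
      | 0 => (ModMcB k ((i, ρ), 0), 0, 0)
      | 1 => (0, ModMcB k ((i, ρ), 0), 0)
      | _ + 2 => (0, 0, ModMcB k ((i, ρ), 0)), ?_, ?_, ?_⟩
  · exact block_comm _ _ _ h2 (wb_wc k D) (E_E k D) (wc_E k D)
  · constructor
    · intro i _
      have h := block_st h2 (wb k) (wc k D) (wY k D) (wb_wc k D) (D.d i) (ModMcB k ((i, 0), 0)) (by
        rw [wc_B, wb_pow_B]; rfl)
      convert h using 1
      funext n
      rw [wb_pow_B, zero_add, wY_g]
      unfold Vg
      split_ifs with h0
      · rfl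
      · change (Bb (wb k) ^ _) (ModMcB k ((i, n % D.d i + 1), 0), 0, 0) = _
        rw [block_bpow, wb_pow_B, zero_add]
    · intro i _ r _
      have h := block_st h2 (wb k) (wc k D) (wY k D) (wb_wc k D) (D.al i r)
        (ModMcB k ((i, r + 1), 0)) (by rw [wc_B, wb_pow_B]; rfl)
      convert h using 1
      funext n
      rw [wb_pow_B, zero_add, wY_h]
      unfold Vh
      change (Bb (wb k) ^ _) (ModMcB k ((D.nx i r, 0), 0), 0, 0) = _
      rw [block_bpow, wb_pow_B, zero_add]
  · intro orb horb hinj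
    obtain ⟨orb', h0, hs, hi⟩ := dstep_orbit D orb horb hinj
    have key : ∀ j, (wY k D ^ j) (ModMcB k (((orb 0).1, 0), (orb 0).2)) = ModMcB k (orb' j) := by
      intro j
      induction j with
      | zero => rw [h0]; rfl
      | succ j ih =>
        rw [pow_succ', Module.End.mul_apply, ih, wY_B, hs j]
        rfl
    apply LinearIndependent.of_comp (LinearMap.fst k (ModMcIx →₀ k)
      ((ModMcIx →₀ k) × (ModMcIx →₀ k)))
    have h1 : (⇑(LinearMap.fst k (ModMcIx →₀ k) ((ModMcIx →₀ k) × (ModMcIx →₀ k))) ∘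
        fun j : ℕ => (Bx (wb k) (wc k D) (wY k D) ^ j) ((Bb (wb k) ^ (orb 0).2)
          ((ModMcB k (((orb 0).1, 0), 0), 0, 0) :
            (ModMcIx →₀ k) × (ModMcIx →₀ k) × (ModMcIx →₀ k)))) =
        fun j => ModMcB k (orb' j) := by
      funext j
      rw [Function.comp_apply, block_bpow, LinearMap.fst_apply, block_pow, wb_pow_B, zero_add, key]
    have h3 : LinearIndependent k (fun x : ModMcIx => ModMcB k x) := by
      have := (Finsupp.basisSingleOne (R := k) (ι := ModMcIx)).linearIndependent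
      simpa [ModMcB] using this
    have h4 := h3.comp _ hi
    have h5 : LinearIndependent k (fun j => ModMcB k (orb' j)) := h4
    rw [← h1] at h5
    exact h5

end OneRelZ
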