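import Pool.Agent.Lib.MP_85de51_alZ.Undec
import Pool.Agent.Lib.MP_85de51_alZ.BrF
import Pool.Agent.Lib.MP_85de51_alZ.BrB
import Pool.Agent.Lib.MP_85de51_alZ.RelsIff
import Pool.Agent.Lib.MP_85de51_alZ.Fwd
import Pool.Agent.Lib.MP_85de51_alZ.Hat
import Pool.Agent.Lib.MP_85de51_alZ.ModMc
import Pool.Agent.Lib.MP_85de51_alP.Main
set_option autoImplicit false

/-!
# Undecidability of the membership problem, characteristic different from 2
-/

namespace OneRelZ

open MP_85de51_al

attribute [local instance 100] LieRing.ofAssociativeRing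

theorem member_inst (k : Type) [Field k] (h2 : (2 : k) ≠ 0) (D : Mc) (i₀ n₀ : ℕ)
    (hi : i₀ < D.m) (hd : Dies D.step (i₀, n₀)) (hp : Pert D (i₀, n₀)) :
    Member k (relZ k) (inst k D i₀ n₀) := by
  apply member_of
  intro V _ _ s u e h0 h1 hf
  exact fwd h2 D s u ((relS_iff s u).1 h0) _ ((rels_iff D s _ u e).1 h1) i₀ n₀ hi hd hp hf

theorem not_member_inst (k : Type) [Field k] (h2 : (2 : k) ≠ 0) (D : Mc) (i₀ n₀ : ℕ)
    (orb : ℕ → ℕ × ℕ) (h0 : orb 0 = (i₀, n₀)) (hs : ∀ t, D.step (orb t) = some (orb (t + 1)))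
    (hinj : Function.Injective orb) :
    ¬ Member k (relZ k) (inst k D i₀ n₀) := by
  obtain ⟨M, _, _, b, x, w, hc, hR, hli⟩ := model_mc k h2 D
  have hli' := hli orb hs hinj
  rw [h0] at hli'
  obtain ⟨V, _, _, s, u, ι, e, f, hx, hb, hc', hw, hv, hf, hne⟩ :=
    hat b x hc ((b ^ n₀) (w i₀ 0 0)) hli'
      (fun j => w j.unpair.1.unpair.1 j.unpair.1.unpair.2 j.unpair.2)
  have hw' : ∀ i ρ κ, s (((s * u - u * s) ^ cod i ρ κ) e) = ι (w i ρ κ) := by
    intro i ρ κ
    rw [hw]
    simp [cod]
  have hB : ∀ (j : ℕ) (m : M), ι ((b ^ j) m) = ((s * u - u * s) ^ j) (ι m) :=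
    fun j m => OneRelP.pow_intertwine _ _ ι hb j m
  have hT : s (((s * u - u * s) ^ n₀) (s (((s * u - u * s) ^ cod i₀ 0 0) e))) = f := by
    rw [hw', ← hB, hv]
  refine not_member_of k D i₀ n₀ V s u e ((relS_iff s u).2 hc') ?_ ?_ ?_
  · rw [rels_iff]
    have h := hR.map D b x w _ u ι hb hx
    have h3 : (fun i ρ κ => ι (w i ρ κ)) =
        (fun i ρ κ => s (((s * u - u * s) ^ cod i ρ κ) e)) := by
      funext i ρ κ
      rw [hw']
    rw [h3] at h
    exact h
  · rw [hT, hf]
  · rw [hT]
    exact hne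

theorem computable_powB [Primcodable (FreeMagma (Fin 3))]
    (hmul : Computable₂ fun a b : FreeMagma (Fin 3) => a * b) (w : FreeMagma (Fin 3)) :
    Computable fun n => powB n w := by
  have h : Computable fun n : ℕ =>
      (Nat.rec w (fun _ w => gv * w) n : FreeMagma (Fin 3)) :=
    Computable.nat_rec (f := fun n : ℕ => n) (g := fun _ => w)
      (h := fun _ (q : ℕ × FreeMagma (Fin 3)) => gv * q.2) Computable.id (Computable.const w)
      (hmul.comp (Computable.const gv) (Computable.snd.comp Computable.snd)).to₂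
  refine h.of_eq fun n => ?_
  unfold powB
  induction n with
  | zero => rfl
  | succ n ih =>
    rw [Function.iterate_succ_apply', ← ih]

theorem computable_inst (k : Type) [Field k] [Primcodable k] [Primcodable (FreeMagma (Fin 3))]
    (hmul : Computable₂ fun a b : FreeMagma (Fin 3) => a * b) (D : Mc) (i₀ : ℕ) :
    Computable (inst k D i₀) := by
  have h1 : Computable fun n : ℕ => tst (cod i₀ 0 0) n :=
    hmul.comp (Computable.const gs) (computable_powB hmul _)
  have h2 : Computable fun n : ℕ => gu * tst (cod i₀ 0 0) n :=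
    hmul.comp (Computable.const gu) h1
  have h3 : Computable fun n : ℕ => [((-1 : k), tst (cod i₀ 0 0) n)] :=
    Computable.list_cons.comp (Computable.pair (Computable.const (-1)) h1) (Computable.const [])
  have h4 : Computable fun n : ℕ => [((1 : k), gu * tst (cod i₀ 0 0) n),
      (-1, tst (cod i₀ 0 0) n)] :=
    Computable.list_cons.comp (Computable.pair (Computable.const 1) h2) h3
  have h5 : Computable fun n : ℕ => [((1 : k), tst (cod i₀ 0 0) n)] :=
    Computable.list_cons.comp (Computable.pair (Computable.const 1) h1) (Computable.const [])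
  have h6 : Computable fun n : ℕ => ([((1 : k), gu * tst (cod i₀ 0 0) n),
      (-1, tst (cod i₀ 0 0) n)] :: [(1, gs)] :: [(1, gu)] ::
      (rels D (OneRelP.S0 k) (OneRelP.X0 k) (OneRelP.U0 k)).map (OneRelP.toL k)) :=
    Computable.list_cons.comp h4 (Computable.const _)
  exact Computable.pair h6 h5

/-- MAIN THEOREM. -/
theorem main (k : Type) [Field k] (h2 : (2 : k) ≠ 0)
    [Primcodable k] [Primcodable (FreeMagma (Fin 3))]
    (hmul : Computable₂ fun a b : FreeMagma (Fin 3) => a * b) :
    ¬ ComputablePred (fun x : List (List (k × FreeMagma (Fin 3))) ×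
      List (k × FreeMagma (Fin 3)) => Member k (relZ k) x) := by
  intro h
  obtain ⟨D, i₀, inp, hi, hinp, hD⟩ := exists_mc
  apply ComputablePred.halting_problem 0
  obtain ⟨_, h1⟩ := h
  classical
  refine ⟨Classical.decPred _, ?_⟩
  have h3 : Computable fun c : Nat.Partrec.Code => inst k D i₀ (inp (Encodable.encode c)) :=
    (computable_inst k hmul D i₀).comp (hinp.to_comp.comp Computable.encode)
  refine (h1.comp h3).of_eq ?_
  intro c
  simp only [decide_eq_decide]
  have h4 := hD (Encodable.encode c)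
  rw [Denumerable.ofNat_encode] at h4
  constructor
  · intro hm
    by_contra hc
    obtain ⟨orb, h5, h6, h7⟩ := h4.2 hc
    exact not_member_inst k h2 D i₀ _ orb h5 h6 h7 hm
  · intro hc
    obtain ⟨h5, h6⟩ := h4.1 hc
    exact member_inst k h2 D i₀ _ hi h5 h6

end OneRelZ
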