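import Pool.Agent.Lib.MP_85de51_alZ.Core
import Pool.Agent.Lib.MP_85de51_alZ.Conseq
set_option autoImplicit false

/-!
# JOB StI: intermediate states

For `Y n = b^(n+β) τ` we have `sD b Y = 0` (`b (b^(n+β) τ) = b^(n+1+β) τ`), so `sP`, `sM`, `sZ` vanish
and `sV b Y n = Y n`. All hypotheses of `core` are trivial. `c_I`: `c_vec` and `2 ≠ 0`. `zp_I`:
`p (b^n σ) = (b-1)^n σ1` and `z (b^j σ1) = 0` for all `j`; `(b-1)^n = aeval b ((X-1)^n)` is a
polynomial in `b` (or: the submodule of all `v` with `z (b^j v) = 0` for all `j` is stable under `b` and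
`b ± 1`). `zm_I`: the same with `(b+1)^n σ2`.
-/

namespace OneRelZ

variable {k V : Type*} [Field k] [AddCommGroup V] [Module k V]

theorem StI_sD (b : Module.End k V) (β : ℕ) (τ : V) (n : ℕ) :
    sD b (fun n => (b ^ (n + β)) τ) n = 0 := by
  unfold sD
  have e : n + 1 + β = (n + β) + 1 := by omega
  show b ((b ^ (n + β)) τ) - (b ^ (n + 1 + β)) τ = 0
  rw [e, pow_succ', Module.End.mul_apply, sub_self]

theorem StI_sD1 (b : Module.End k V) (β : ℕ) (τ : V) :
    sD b (fun n => (b ^ (n + β)) τ) = fun _ => 0 := by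
  funext n
  exact StI_sD b β τ n

theorem StI_sD0 (b : Module.End k V) : sD b (fun _ => (0 : V)) = fun _ => 0 := by
  funext n
  simp [sD]

theorem StI_sP (b : Module.End k V) (β : ℕ) (τ : V) (n : ℕ) :
    sP b (fun n => (b ^ (n + β)) τ) n = 0 := by
  unfold sP
  rw [StI_sD1, StI_sD0, add_zero]

theorem StI_sM (b : Module.End k V) (β : ℕ) (τ : V) (n : ℕ) :
    sM b (fun n => (b ^ (n + β)) τ) n = 0 := by
  unfold sM
  rw [StI_sD1, StI_sD0, sub_zero]

theorem StI_sZ (b : Module.End k V) (β : ℕ) (τ : V) (n : ℕ) :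
    sZ b (fun n => (b ^ (n + β)) τ) n = 0 := by
  unfold sZ
  rw [StI_sD1, StI_sD0, StI_sD0, sub_zero]

theorem st_I (h2 : (2 : k) ≠ 0) (b x : Module.End k V) (hc : Commute (opC b x) (opZ b x))
    (d : ℕ) (hd : 1 ≤ d) (β : ℕ) (τ σ σ1 σ2 : V)
    (hR : StRel b x d (fun n => (b ^ (n + β)) τ) σ σ1 σ2) :
    StAll b x d (fun n => (b ^ (n + β)) τ) σ σ1 σ2 := by
  refine core h2 b x hc d hd _ σ σ1 σ2 hR ?_ ?_ ?_ ?_ ?_
  · intro n
    rw [StI_sZ, StI_sZ, map_zero]
  · intro n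
    rw [StI_sM, map_zero, map_zero]
  · intro n
    rw [StI_sP, map_zero, map_zero]
  · intro n
    rw [StI_sP, map_zero]
  · intro n
    rw [StI_sM, map_zero]

theorem StI_sub (b x : Module.End k V) (u : V) (h : ∀ j, opZ b x ((b ^ j) u) = 0) (n : ℕ) :
    ∀ j, opZ b x ((b ^ j) (((b - 1) ^ n) u)) = 0 := by
  induction n with
  | zero =>
    intro j
    simpa using h j
  | succ n ih =>
    intro j
    have e : (b ^ j) (((b - 1) ^ (n + 1)) u)
        = (b ^ (j + 1)) (((b - 1) ^ n) u) - (b ^ j) (((b - 1) ^ n) u) := by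
      rw [pow_succ' (b - 1) n, Module.End.mul_apply, LinearMap.sub_apply, Module.End.one_apply,
        map_sub, pow_succ b j, Module.End.mul_apply]
    rw [e, map_sub, ih, ih, sub_zero]

theorem StI_add (b x : Module.End k V) (u : V) (h : ∀ j, opZ b x ((b ^ j) u) = 0) (n : ℕ) :
    ∀ j, opZ b x ((b ^ j) (((b + 1) ^ n) u)) = 0 := by
  induction n with
  | zero =>
    intro j
    simpa using h j
  | succ n ih =>
    intro j
    have e : (b ^ j) (((b + 1) ^ (n + 1)) u)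
        = (b ^ (j + 1)) (((b + 1) ^ n) u) + (b ^ j) (((b + 1) ^ n) u) := by
      rw [pow_succ' (b + 1) n, Module.End.mul_apply, LinearMap.add_apply, Module.End.one_apply,
        map_add, pow_succ b j, Module.End.mul_apply]
    rw [e, map_add, ih, ih, add_zero]

variable {b x : Module.End k V} {d β : ℕ} {τ σ σ1 σ2 : V}

theorem c_I (h2 : (2 : k) ≠ 0) (hA : StAll b x d (fun n => (b ^ (n + β)) τ) σ σ1 σ2) (n : ℕ) :
    opC b x ((b ^ n) σ) = (b ^ (n + d)) σ := by
  have h := c_vec hA n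
  rw [StI_sM, StI_sP, map_zero, map_zero, add_zero, sub_zero] at h
  have h' : (2 : k) • opC b x ((b ^ n) σ) = (2 : k) • (b ^ (n + d)) σ := by
    rw [two_smul, two_smul]
    exact h
  have h3 := congrArg (fun v => (2 : k)⁻¹ • v) h'
  simpa [smul_smul, inv_mul_cancel₀ h2] using h3

theorem z_I (hA : StAll b x d (fun n => (b ^ (n + β)) τ) σ σ1 σ2) (n : ℕ) :
    opZ b x ((b ^ n) σ) = 0 := by
  rw [hA.z0 n, StI_sZ]

theorem zp_I (hA : StAll b x d (fun n => (b ^ (n + β)) τ) σ σ1 σ2) (n : ℕ) :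
    opZ b x (opP b x ((b ^ n) σ)) = 0 := by
  rw [hA.p0 n, StI_sP, add_zero]
  have h := StI_sub b x σ1 hA.z1 n 0
  simpa using h

theorem zm_I (hA : StAll b x d (fun n => (b ^ (n + β)) τ) σ σ1 σ2) (n : ℕ) :
    opZ b x (opM b x ((b ^ n) σ)) = 0 := by
  rw [hA.m0 n, StI_sM, add_zero, map_neg, neg_eq_zero]
  have h := StI_add b x σ2 hA.z2 n 0
  simpa using h

end OneRelZ
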