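import Pool.Agent.Lib.MP_85de51_alZ.StI
set_option autoImplicit false

/-!
# JOB StII: the states of the machine

Let `Y n = 0` if `dead (n % d)`, `Y n = b^(al r * (n / d)) (h r)`, `r = n % d`, otherwise. Let
`G ≤ V` be the submodule spanned by all `b^j (h r)`, `j : ℕ`, `r < d`. `G` is stable under `b`
(`Submodule.span_induction`), and for `v ∈ G`: `opZ v = 0`, `opZ (opP v) = 0`, `opZ (opM v) = 0`,
`opC (b v) = b (opC v)` (on generators: `z_I`, `zp_I`, `zm_I`, `c_I`; for the last one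
`opC (b (b^j (h r))) = b^(j+1+al r) (h r)`).
`Y n ∈ G` for all `n`, `opC (Y n) = Y (n + d)` (`(n + d) % d = n % d`, `(n + d) / d = n / d + 1`, `c_I`).
If a sequence `W` satisfies `W n ∈ G` and `opC (W n) = W (n + d)` for all `n` then so does `sD b W`:
`opC (b (W n) - W (n+1)) = b (W (n+d)) - W (n+1+d)`. So `sD b Y`, `sD b (sD b Y)`, `sD b (sD b (sD b Y))`
have these properties, and so `sZ`, `sP`, `sM` (`∈ G`). Now `core` applies.
-/

namespace OneRelZ

variable {k V : Type*} [Field k] [AddCommGroup V] [Module k V]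

/-- the span of all `b^j (h r)` -/
def StII_G (b : Module.End k V) (d : ℕ) (h : ℕ → V) : Submodule k V :=
  Submodule.span k {v | ∃ j : ℕ, ∃ r : ℕ, r < d ∧ v = (b ^ j) (h r)}

theorem StII_gen (b : Module.End k V) (d : ℕ) (h : ℕ → V) (j r : ℕ) (hr : r < d) :
    (b ^ j) (h r) ∈ StII_G b d h :=
  Submodule.subset_span ⟨j, r, hr, rfl⟩

theorem StII_eq (b : Module.End k V) (d : ℕ) (h : ℕ → V) (A B : Module.End k V)
    (hAB : ∀ j, ∀ r < d, A ((b ^ j) (h r)) = B ((b ^ j) (h r))) (v : V)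
    (hv : v ∈ StII_G b d h) : A v = B v := by
  unfold StII_G at hv
  induction hv using Submodule.span_induction with
  | mem v hv =>
    obtain ⟨j, r, hr, rfl⟩ := hv
    exact hAB j r hr
  | zero => simp
  | add v w _ _ h1 h2 => rw [map_add, map_add, h1, h2]
  | smul c v _ h1 => rw [map_smul, map_smul, h1]

theorem StII_b (b : Module.End k V) (d : ℕ) (h : ℕ → V) (v : V)
    (hv : v ∈ StII_G b d h) : b v ∈ StII_G b d h := by
  unfold StII_G at hv
  induction hv using Submodule.span_induction with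
  | mem v hv =>
    obtain ⟨j, r, hr, rfl⟩ := hv
    have := StII_gen b d h (j + 1) r hr
    rwa [pow_succ', Module.End.mul_apply] at this
  | zero => simp
  | add v w _ _ h1 h2 => rw [map_add]; exact add_mem h1 h2
  | smul c v _ h1 => rw [map_smul]; exact Submodule.smul_mem _ _ h1

/-- the property of a sequence -/
def StII_P (b x : Module.End k V) (d : ℕ) (h : ℕ → V) (W : ℕ → V) : Prop :=
  (∀ n, W n ∈ StII_G b d h) ∧ ∀ n, opC b x (W n) = W (n + d)

theorem StII_sD (b x : Module.End k V) (d : ℕ) (h : ℕ → V)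
    (hcb : ∀ v ∈ StII_G b d h, opC b x (b v) = b (opC b x v)) (W : ℕ → V)
    (hW : StII_P b x d h W) : StII_P b x d h (sD b W) := by
  refine ⟨fun n => sub_mem (StII_b b d h _ (hW.1 n)) (hW.1 (n + 1)), fun n => ?_⟩
  unfold sD
  rw [map_sub, hcb _ (hW.1 n), hW.2, hW.2, Nat.add_right_comm]

theorem st_II (h2 : (2 : k) ≠ 0) (b x : Module.End k V) (hc : Commute (opC b x) (opZ b x))
    (d : ℕ) (hd : 1 ≤ d) (dead : ℕ → Bool) (al be : ℕ → ℕ) (h h1 h2' τ : ℕ → V)
    (hI : ∀ r < d, StAll b x (al r) (fun n => (b ^ (n + be r)) (τ r)) (h r) (h1 r) (h2' r))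
    (σ σ1 σ2 : V)
    (hR : StRel b x d (fun n => if dead (n % d) = true then 0 else
      (b ^ (al (n % d) * (n / d))) (h (n % d))) σ σ1 σ2) :
    StAll b x d (fun n => if dead (n % d) = true then 0 else
      (b ^ (al (n % d) * (n / d))) (h (n % d))) σ σ1 σ2 := by
  set Y : ℕ → V := fun n => if dead (n % d) = true then 0 else
      (b ^ (al (n % d) * (n / d))) (h (n % d)) with hY
  have gz : ∀ v ∈ StII_G b d h, opZ b x v = 0 := fun v hv =>
    StII_eq b d h (opZ b x) 0 (fun j r hr => by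
      rw [z_I (hI r hr)]; rfl) v hv
  have gzp : ∀ v ∈ StII_G b d h, opZ b x (opP b x v) = 0 := fun v hv =>
    StII_eq b d h (opZ b x * opP b x) 0 (fun j r hr => by
      rw [Module.End.mul_apply, zp_I (hI r hr)]; rfl) v hv
  have gzm : ∀ v ∈ StII_G b d h, opZ b x (opM b x v) = 0 := fun v hv =>
    StII_eq b d h (opZ b x * opM b x) 0 (fun j r hr => by
      rw [Module.End.mul_apply, zm_I (hI r hr)]; rfl) v hv
  have gcb : ∀ v ∈ StII_G b d h, opC b x (b v) = b (opC b x v) := fun v hv =>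
    StII_eq b d h (opC b x * b) (b * opC b x) (fun j r hr => by
      have e1 : b ((b ^ j) (h r)) = (b ^ (j + 1)) (h r) := by
        rw [pow_succ', Module.End.mul_apply]
      rw [Module.End.mul_apply, Module.End.mul_apply, e1, c_I h2 (hI r hr), c_I h2 (hI r hr),
        Nat.add_right_comm, pow_succ', Module.End.mul_apply]) v hv
  have hPY : StII_P b x d h Y := by
    refine ⟨fun n => ?_, fun n => ?_⟩
    · simp only [hY]
      split_ifs
      · exact zero_mem _
      · exact StII_gen b d h _ _ (Nat.mod_lt _ hd)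
    · simp only [hY, Nat.add_mod_right, Nat.add_div_right n hd]
      split_ifs
      · rw [map_zero]
      · rw [c_I h2 (hI _ (Nat.mod_lt _ hd)), Nat.mul_succ]
  have hD1 := StII_sD b x d h gcb _ hPY
  have hD2 := StII_sD b x d h gcb _ hD1
  have hD3 := StII_sD b x d h gcb _ hD2
  have hsP : ∀ n, sP b Y n ∈ StII_G b d h := fun n => add_mem (hD2.1 n) (hD1.1 n)
  have hsM : ∀ n, sM b Y n ∈ StII_G b d h := fun n => sub_mem (hD2.1 n) (hD1.1 n)
  refine core h2 b x hc d hd Y σ σ1 σ2 hR (fun n => ?_) (fun n => gzp _ (hsM n))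
    (fun n => gzm _ (hsP n)) (fun n => gz _ (hsP n)) (fun n => gz _ (hsM n))
  unfold sZ
  rw [map_sub, hD3.2, hD1.2]

end OneRelZ
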