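import Pool.Agent.Lib.MP_85de51_alZ.ErrMc
import Pool.Agent.Lib.MP_85de51_alP.Undec
set_option autoImplicit false

/-!
# JOB Undec: a machine with error detection and an undecidable halting problem

Follow the proof of `OneRelP.exists_clz` in `Pool/Agent/Lib/MP_85de51_alP/Undec.lean` (`exists_mach`,
`fm_of_mach`, `primrec_pow'`, `primrec_beta'`), with `mc_of_fm` instead of `clz_of_fm`. `i₀ = idx (st s₀)`,
`inp n = θ * 3 ^ (beta M.Q d₀ d₁ n)`.
* INVARIANT: every configuration reached from `(idx s + i, θ * N)`, `i < 3`, has this form again (three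
cases `i = 0, 1, 2`; for `i = 2` and `s = F` the machine dies). So `Pert` holds for `(i₀, inp n)` by the last
property of `mc_of_fm` (induction on `t`; `itr f (t+1) c = (itr f t c).bind f` is
`Function.iterate_succ_apply'`).
* three steps from `(idx s, θ N)`, `s ≠ F`, lead to `(idx s', θ N')` with `(s', N') = P.step (s, N)`.
If `P.step^[t] (st s₀, 3^b) = (F, 1)` and the states before time `t` are different from `F`, the run of `D`
reaches `(idx F, θ)` at time `3 t` and dies at time `3 t + 3`.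
* otherwise all states are different from `F`; put
`orb t = (idx (P.step^[t / 3] c).1 + t % 3, θ * (P.step^[t / 3] c).2)`. Then `D.step (orb t) = some (orb (t+1))`
(cases of `t % 3`; write `t = 3 q + r`), and `orb` is injective: `(orb t).1 % 3 = t % 3` since
`idx s % 3 = 0`, then `idx` is injective and `θ ≥ 1`, and `t ↦ P.step^[t] c` is injective.
-/

namespace OneRelZ

open OneRelP Pool.Agent.WreathContraction

theorem Undec_itr_succ {C : Type*} (f : C → Option C) (t : ℕ) (c : C) :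
    itr f (t + 1) c = (itr f t c).bind f :=
  Function.iterate_succ_apply' (fun o : Option C => o.bind f) t (some c)

/-- the properties of the machine of a flow chart -/
structure Undec_Data (P : FM) (F : P.S) (D : Mc) (θ : ℕ) (idx : P.S → ℕ) : Prop where
  th : 1 ≤ θ
  inj : Function.Injective idx
  idx3 : ∀ s, idx s % 3 = 0 ∧ idx s < D.m
  s0 : ∀ s N, D.step (idx s, θ * N) = some (idx s + 1, θ * N)
  s1 : ∀ s N, D.step (idx s + 1, θ * N) = some (idx s + 2, θ * N)
  s2 : ∀ s N, s ≠ F → D.step (idx s + 2, θ * N) = some (idx (P.step (s, N)).1, θ * (P.step (s, N)).2)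
  sF : ∀ n, D.step (idx F + 2, n) = none
  pe : ∀ s N i, i < 3 → Dies D.step (idx s + i, θ * N + 1) ∧
        Dies D.step (idx s + i, θ * N + D.d (idx s + i))

theorem Undec_inv {P : FM} {F : P.S} {D : Mc} {θ : ℕ} {idx : P.S → ℕ} (h : Undec_Data P F D θ idx)
    (t : ℕ) (s : P.S) (N : ℕ) (c' : ℕ × ℕ) (hc : itr D.step t (idx s, θ * N) = some c') :
    ∃ s' N' i, i < 3 ∧ c' = (idx s' + i, θ * N') := by
  induction t generalizing c' with
  | zero =>
    have h1 : (idx s, θ * N) = c' := Option.some.inj hc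
    exact ⟨s, N, 0, by norm_num, h1.symm⟩
  | succ t ih =>
    rw [Undec_itr_succ] at hc
    obtain ⟨c, hc1, hc2⟩ := Option.bind_eq_some_iff.1 hc
    obtain ⟨s', N', i, hi, rfl⟩ := ih c hc1
    have hi' : i = 0 ∨ i = 1 ∨ i = 2 := by omega
    rcases hi' with rfl | rfl | rfl
    · have h1 := h.s0 s' N'
      have h2 : D.step (idx s', θ * N') = some c' := hc2
      rw [h1] at h2
      exact ⟨s', N', 1, by norm_num, (Option.some.inj h2).symm⟩
    · have h1 := h.s1 s' N'
      rw [h1] at hc2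
      exact ⟨s', N', 2, by norm_num, (Option.some.inj hc2).symm⟩
    · by_cases hF : s' = F
      · rw [hF, h.sF] at hc2
        exact absurd hc2 (by simp)
      · rw [h.s2 s' N' hF] at hc2
        exact ⟨(P.step (s', N')).1, (P.step (s', N')).2, 0, by norm_num, (Option.some.inj hc2).symm⟩

theorem Undec_pert {P : FM} {F : P.S} {D : Mc} {θ : ℕ} {idx : P.S → ℕ} (h : Undec_Data P F D θ idx)
    (s : P.S) (N : ℕ) : Pert D (idx s, θ * N) := by
  intro t c' hc
  obtain ⟨s', N', i, hi, rfl⟩ := Undec_inv h t s N c' hc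
  exact h.pe s' N' i hi

/-- the orbit -/
def Undec_orb (P : FM) (θ : ℕ) (idx : P.S → ℕ) (c : P.S × ℕ) (t : ℕ) : ℕ × ℕ :=
  (idx (P.step^[t / 3] c).1 + t % 3, θ * (P.step^[t / 3] c).2)

theorem Undec_orb_step {P : FM} {F : P.S} {D : Mc} {θ : ℕ} {idx : P.S → ℕ} (h : Undec_Data P F D θ idx)
    (c : P.S × ℕ) (t : ℕ) (ht : t % 3 = 2 → (P.step^[t / 3] c).1 ≠ F) :
    D.step (Undec_orb P θ idx c t) = some (Undec_orb P θ idx c (t + 1)) := by
  have hr : t % 3 = 0 ∨ t % 3 = 1 ∨ t % 3 = 2 := by omega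
  unfold Undec_orb
  rcases hr with hr | hr | hr
  · have h1 : (t + 1) / 3 = t / 3 := by omega
    have h2 : (t + 1) % 3 = 1 := by omega
    rw [hr, h1, h2, add_zero]
    exact h.s0 _ _
  · have h1 : (t + 1) / 3 = t / 3 := by omega
    have h2 : (t + 1) % 3 = 2 := by omega
    rw [hr, h1, h2]
    exact h.s1 _ _
  · have h1 : (t + 1) / 3 = t / 3 + 1 := by omega
    have h2 : (t + 1) % 3 = 0 := by omega
    rw [hr, h1, h2, add_zero, Function.iterate_succ_apply']
    exact h.s2 _ _ (ht hr)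

theorem Undec_orb_zero {P : FM} {θ : ℕ} {idx : P.S → ℕ} (c : P.S × ℕ) :
    Undec_orb P θ idx c 0 = (idx c.1, θ * c.2) := rfl

theorem Undec_dies {P : FM} {F : P.S} {D : Mc} {θ : ℕ} {idx : P.S → ℕ} (h : Undec_Data P F D θ idx)
    (c : P.S × ℕ) (t : ℕ) (ht : P.step^[t] c = (F, 1)) (hlt : ∀ t' < t, (P.step^[t'] c).1 ≠ F) :
    Dies D.step (idx c.1, θ * c.2) := by
  have key : ∀ j, j ≤ 3 * t + 2 → itr D.step j (idx c.1, θ * c.2) = some (Undec_orb P θ idx c j) := by
    intro j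
    induction j with
    | zero => intro _; rfl
    | succ j ih =>
      intro hj
      rw [Undec_itr_succ, ih (by omega), Option.bind_some]
      exact Undec_orb_step h c j (fun hr => hlt _ (by omega))
  refine ⟨3 * t + 2 + 1, ?_⟩
  rw [Undec_itr_succ, key _ le_rfl, Option.bind_some]
  unfold Undec_orb
  have h1 : (3 * t + 2) / 3 = t := by omega
  have h2 : (3 * t + 2) % 3 = 2 := by omega
  rw [h1, h2, ht]
  exact h.sF _

theorem Undec_inj {P : FM} {F : P.S} {D : Mc} {θ : ℕ} {idx : P.S → ℕ} (h : Undec_Data P F D θ idx)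
    (c : P.S × ℕ) (hinj : Function.Injective fun t => P.step^[t] c) :
    Function.Injective (Undec_orb P θ idx c) := by
  intro t t' htt
  unfold Undec_orb at htt
  have h1 : idx (P.step^[t / 3] c).1 + t % 3 = idx (P.step^[t' / 3] c).1 + t' % 3 := congrArg Prod.fst htt
  have h2 : θ * (P.step^[t / 3] c).2 = θ * (P.step^[t' / 3] c).2 := congrArg Prod.snd htt
  have h3 := (h.idx3 (P.step^[t / 3] c).1).1
  have h4 := (h.idx3 (P.step^[t' / 3] c).1).1
  have h5 : t % 3 = t' % 3 := by omega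
  have h6 : idx (P.step^[t / 3] c).1 = idx (P.step^[t' / 3] c).1 := by omega
  have h7 := h.inj h6
  have h8 := Nat.eq_of_mul_eq_mul_left h.th h2
  have h9 : t / 3 = t' / 3 := hinj (Prod.ext h7 h8)
  omega

theorem exists_mc : ∃ (D : Mc) (i₀ : ℕ) (inp : ℕ → ℕ), i₀ < D.m ∧ Primrec inp ∧
    ∀ n, ((Nat.Partrec.Code.eval (Denumerable.ofNat Nat.Partrec.Code n) 0).Dom →
        Dies D.step (i₀, inp n) ∧ Pert D (i₀, inp n)) ∧
      (¬ (Nat.Partrec.Code.eval (Denumerable.ofNat Nat.Partrec.Code n) 0).Dom →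
        ∃ orb : ℕ → ℕ × ℕ, orb 0 = (i₀, inp n) ∧ (∀ t, D.step (orb t) = some (orb (t + 1))) ∧
          Function.Injective orb) := by
  obtain ⟨M, hfin, hQ, s₀, d₀, d₁, h⟩ := exists_mach
  obtain ⟨P, F, st, hPf, hl, hy, hn, hP⟩ := fm_of_mach M hfin hQ
  obtain ⟨D, θ, idx, g1, g2, g3, g4, g5, g6, g7, g8⟩ := mc_of_fm P hPf hl hy hn F
  have hD : Undec_Data P F D θ idx := ⟨g1, g2, g3, g4, g5, g6, g7, g8⟩
  refine ⟨D, idx (st s₀), fun n => θ * 3 ^ (beta M.Q d₀ d₁ n), (g3 (st s₀)).2, ?_, ?_⟩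
  · exact Primrec.nat_mul.comp (Primrec.const θ) ((primrec_pow' 3).comp (primrec_beta' M.Q d₀ d₁))
  · intro n
    obtain ⟨h1, h2⟩ := hP s₀ (beta M.Q d₀ d₁ n)
    constructor
    · intro hh
      obtain ⟨t, ht, hlt⟩ := h1 ((h n).2 hh)
      exact ⟨Undec_dies hD (st s₀, 3 ^ (beta M.Q d₀ d₁ n)) t ht hlt, Undec_pert hD _ _⟩
    · intro hh
      obtain ⟨h3, h4⟩ := h2 (fun hc => hh ((h n).1 hc))
      exact ⟨Undec_orb P θ idx (st s₀, 3 ^ (beta M.Q d₀ d₁ n)), rfl,
        fun t => Undec_orb_step hD _ t (fun _ => h3 _), Undec_inj hD _ h4⟩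

end OneRelZ
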